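import Mathlib

/-!
# Jack polynomials of hook shape: the differential equation

`f : ℕ → MvPolynomial (Fin N) ℝ` is a sequence with `f 0 = 1`, `∂_i f_0 = 0`,
`∂_i f_(m+1) = α f_m + x_i ∂_i f_m`, `f_m` homogeneous of degree `m`.
-/

set_option autoImplicit false

open MvPolynomial

namespace Pool.Agent.JH

variable {N : ℕ}

/-- `e_s` of the variables without `x_i`. -/
noncomputable def ehat (i : Fin N) (s : ℕ) : MvPolynomial (Fin N) ℝ :=
  ∑ A ∈ (Finset.univ.erase i).powersetCard s, ∏ j ∈ A, X j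

theorem ehat_zero (i : Fin N) : ehat i 0 = 1 := by
  simp [ehat]

theorem esymm_succ_eq (i : Fin N) (s : ℕ) :
    esymm (Fin N) ℝ (s + 1) = ehat i (s + 1) + X i * ehat i s := by
  unfold esymm ehat
  have h : (Finset.univ : Finset (Fin N)) = insert i (Finset.univ.erase i) := by
    rw [Finset.insert_erase (Finset.mem_univ i)]
  conv_lhs => rw [h]
  have hi : i ∉ (Finset.univ.erase i : Finset (Fin N)) := Finset.notMem_erase i _
  rw [Finset.powersetCard_succ_insert hi, Finset.sum_union]
  · congr 1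
    rw [Finset.sum_image, Finset.mul_sum]
    · refine Finset.sum_congr rfl fun A hA => ?_
      rw [Finset.prod_insert]
      intro h'
      exact hi ((Finset.mem_powersetCard.mp hA).1 h')
    · intro A hA B hB hAB
      have hA' : i ∉ A := fun h' => hi ((Finset.mem_powersetCard.mp hA).1 h')
      have hB' : i ∉ B := fun h' => hi ((Finset.mem_powersetCard.mp hB).1 h')
      rw [← Finset.erase_insert hA', ← Finset.erase_insert hB', hAB]
  · rw [Finset.disjoint_left]
    intro A hA hA'
    obtain ⟨B, hB, rfl⟩ := Finset.mem_image.mp hA'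
    exact hi ((Finset.mem_powersetCard.mp hA).1 (Finset.mem_insert_self i B))

theorem pderiv_prod_X {i : Fin N} {A : Finset (Fin N)} (h : i ∉ A) :
    pderiv i (∏ j ∈ A, X j : MvPolynomial (Fin N) ℝ) = 0 := by
  classical
  induction A using Finset.induction_on with
  | empty => simp
  | insert a A ha ih =>
    rw [Finset.prod_insert ha, Derivation.leibniz, ih (fun h' => h (Finset.mem_insert_of_mem h')),
      pderiv_X_of_ne (show a ≠ i from fun h' => h (by rw [← h']; exact Finset.mem_insert_self a A))]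
    simp

theorem pderiv_ehat (i : Fin N) (s : ℕ) : pderiv i (ehat i s) = 0 := by
  unfold ehat
  rw [map_sum]
  refine Finset.sum_eq_zero fun A hA => pderiv_prod_X fun h => ?_
  exact Finset.notMem_erase i _ ((Finset.mem_powersetCard.mp hA).1 h)

theorem pderiv_esymm (i : Fin N) (s : ℕ) : pderiv i (esymm (Fin N) ℝ (s + 1)) = ehat i s := by
  rw [esymm_succ_eq i s, map_add, Derivation.leibniz, pderiv_ehat, pderiv_ehat]
  simp

theorem pderiv_esymm_zero (i : Fin N) : pderiv i (esymm (Fin N) ℝ 0) = 0 := by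
  rw [esymm_zero]; simp

theorem esymm_homogeneous (s : ℕ) : (esymm (Fin N) ℝ s).IsHomogeneous s := by
  unfold esymm
  refine IsHomogeneous.sum _ _ _ fun A hA => ?_
  have h : A.card = s := (Finset.mem_powersetCard.mp hA).2
  have := IsHomogeneous.prod A (fun j => (X j : MvPolynomial (Fin N) ℝ)) (fun _ => 1)
    (fun j _ => isHomogeneous_X ℝ j)
  rw [Finset.sum_const, smul_eq_mul, mul_one, h] at this
  exact this

theorem ehat_homogeneous (i : Fin N) (s : ℕ) : (ehat i s).IsHomogeneous s := by
  unfold ehat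
  refine IsHomogeneous.sum _ _ _ fun A hA => ?_
  have h : A.card = s := (Finset.mem_powersetCard.mp hA).2
  have := IsHomogeneous.prod A (fun j => (X j : MvPolynomial (Fin N) ℝ)) (fun _ => 1)
    (fun j _ => isHomogeneous_X ℝ j)
  rw [Finset.sum_const, smul_eq_mul, mul_one, h] at this
  exact this

/-- The sequences of polynomials we need. -/
structure Seq (α : ℝ) (f : ℕ → MvPolynomial (Fin N) ℝ) : Prop where
  zero : f 0 = 1
  hom : ∀ m, (f m).IsHomogeneous m
  step : ∀ i m, pderiv i (f (m + 1)) = C α * f m + X i * pderiv i (f m)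

/-- `V_{r,s} = ∑ x_i ∂_i f_r · e_s(without x_i)`. -/
noncomputable def V (f : ℕ → MvPolynomial (Fin N) ℝ) (r s : ℕ) : MvPolynomial (Fin N) ℝ :=
  ∑ i, X i * pderiv i (f r) * ehat i s

theorem V_zero_right (α : ℝ) (f : ℕ → MvPolynomial (Fin N) ℝ) (hf : Seq α f) (r : ℕ) :
    V f r 0 = C (r : ℝ) * f r := by
  unfold V
  simp only [ehat_zero, mul_one]
  have := (hf.hom r).sum_X_mul_pderiv
  rw [this, nsmul_eq_mul]
  simp

theorem pieri (α : ℝ) (f : ℕ → MvPolynomial (Fin N) ℝ) (hf : Seq α f) (r s : ℕ) :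
    C ((r : ℝ) + (s + 1) * α) * (f r * esymm (Fin N) ℝ (s + 1)) = V f r (s + 1) + V f (r + 1) s := by
  have h1 : ∑ i, X i * pderiv i (f r) = C (r : ℝ) * f r := by
    rw [(hf.hom r).sum_X_mul_pderiv, nsmul_eq_mul]; simp
  have h2 : ∑ i, X i * ehat i s = C ((s : ℝ) + 1) * esymm (Fin N) ℝ (s + 1) := by
    have := (esymm_homogeneous (N := N) (s + 1)).sum_X_mul_pderiv
    simp only [pderiv_esymm] at this
    rw [this, nsmul_eq_mul]; simp
  have h3 : V f (r + 1) s = C α * f r * ∑ i, X i * ehat i s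
      + ∑ i, X i * pderiv i (f r) * (X i * ehat i s) := by
    unfold V
    rw [Finset.mul_sum, ← Finset.sum_add_distrib]
    refine Finset.sum_congr rfl fun i _ => ?_
    rw [hf.step]; ring
  have h4 : ∑ i, X i * pderiv i (f r) * (X i * ehat i s) + V f r (s + 1)
      = C (r : ℝ) * f r * esymm (Fin N) ℝ (s + 1) := by
    unfold V
    rw [← Finset.sum_add_distrib, ← h1, Finset.sum_mul]
    refine Finset.sum_congr rfl fun i _ => ?_
    rw [esymm_succ_eq i s]; ring
  rw [h3, h2]
  have h5 : V f r (s + 1) = C (r : ℝ) * f r * esymm (Fin N) ℝ (s + 1) -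
    ∑ i, X i * pderiv i (f r) * (X i * ehat i s) := by rw [← h4]; ring
  rw [h5]
  simp only [map_add, map_mul, map_one, map_natCast]
  ring

/-- The cross term. -/
theorem cross (α : ℝ) (f : ℕ → MvPolynomial (Fin N) ℝ) (hf : Seq α f) (r s : ℕ) :
    ∑ i, X i ^ 2 * (pderiv i (f r) * pderiv i (esymm (Fin N) ℝ (s + 1))) =
      C (r : ℝ) * (f r * esymm (Fin N) ℝ (s + 1)) - V f r (s + 1) := by
  have h1 : ∑ i, X i * pderiv i (f r) = C (r : ℝ) * f r := by
    rw [(hf.hom r).sum_X_mul_pderiv, nsmul_eq_mul]; simp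
  rw [← mul_assoc, ← h1, Finset.sum_mul]
  unfold V
  rw [← Finset.sum_sub_distrib]
  refine Finset.sum_congr rfl fun i _ => ?_
  rw [pderiv_esymm, esymm_succ_eq i s]; ring

/-! ### the operator at a point -/

/-- The (rescaled) Laplace-Beltrami operator at a point. -/
noncomputable def Dop (α : ℝ) (x : Fin N → ℝ) (g : MvPolynomial (Fin N) ℝ) : ℝ :=
  ∑ i, x i ^ 2 * eval x (pderiv i (pderiv i g)) +
    2 * α * ∑ i, ∑ j ∈ Finset.univ.erase i, x i ^ 2 / (x i - x j) * eval x (pderiv i g)

theorem Dop_add (α : ℝ) (x : Fin N → ℝ) (g g' : MvPolynomial (Fin N) ℝ) :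
    Dop α x (g + g') = Dop α x g + Dop α x g' := by
  unfold Dop
  simp only [map_add, mul_add, Finset.sum_add_distrib]
  ring

theorem Dop_C_mul (α : ℝ) (x : Fin N → ℝ) (c : ℝ) (g : MvPolynomial (Fin N) ℝ) :
    Dop α x (C c * g) = c * Dop α x g := by
  unfold Dop
  simp only [Derivation.leibniz, pderiv_C, smul_eq_mul, mul_zero, add_zero, map_mul, eval_C]
  have h1 : (∑ i, x i ^ 2 * (c * eval x (pderiv i (pderiv i g)))) =
      c * ∑ i, x i ^ 2 * eval x (pderiv i (pderiv i g)) := by
    rw [Finset.mul_sum]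
    refine Finset.sum_congr rfl fun i _ => ?_
    ring
  have h2 : (∑ i, ∑ j ∈ Finset.univ.erase i, x i ^ 2 / (x i - x j) *
      (c * eval x (pderiv i g))) =
      c * ∑ i, ∑ j ∈ Finset.univ.erase i, x i ^ 2 / (x i - x j) * eval x (pderiv i g) := by
    rw [Finset.mul_sum]
    refine Finset.sum_congr rfl fun i _ => ?_
    rw [Finset.mul_sum]
    refine Finset.sum_congr rfl fun j _ => ?_
    ring
  rw [h1, h2]
  ring

theorem Dop_mul (α : ℝ) (x : Fin N → ℝ) (g g' : MvPolynomial (Fin N) ℝ) :
    Dop α x (g * g') = Dop α x g * eval x g' + eval x g * Dop α x g' +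
      2 * eval x (∑ i, X i ^ 2 * (pderiv i g * pderiv i g')) := by
  unfold Dop
  have h1 : ∀ i, eval x (pderiv i (pderiv i (g * g'))) =
      eval x (pderiv i (pderiv i g)) * eval x g' + eval x g * eval x (pderiv i (pderiv i g')) +
      2 * (eval x (pderiv i g) * eval x (pderiv i g')) := by
    intro i
    simp only [Derivation.leibniz, smul_eq_mul, map_add, map_mul]
    ring
  have h2 : ∀ i, eval x (pderiv i (g * g')) =
      eval x (pderiv i g) * eval x g' + eval x g * eval x (pderiv i g') := by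
    intro i
    simp only [Derivation.leibniz, smul_eq_mul, map_add, map_mul]
    ring
  simp only [h1, h2]
  rw [map_sum]
  simp only [map_mul, map_pow, eval_X]
  rw [show (∑ i, x i ^ 2 * (eval x (pderiv i (pderiv i g)) * eval x g' +
      eval x g * eval x (pderiv i (pderiv i g')) + 2 * (eval x (pderiv i g) *
      eval x (pderiv i g')))) = (∑ i, x i ^ 2 * eval x (pderiv i (pderiv i g))) * eval x g' +
      eval x g * (∑ i, x i ^ 2 * eval x (pderiv i (pderiv i g'))) +
      2 * ∑ i, x i ^ 2 * (eval x (pderiv i g) * eval x (pderiv i g')) by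
    rw [Finset.sum_mul, Finset.mul_sum, Finset.mul_sum, ← Finset.sum_add_distrib,
      ← Finset.sum_add_distrib]
    refine Finset.sum_congr rfl fun i _ => ?_
    ring]
  rw [show (∑ i, ∑ j ∈ Finset.univ.erase i, x i ^ 2 / (x i - x j) *
      (eval x (pderiv i g) * eval x g' + eval x g * eval x (pderiv i g'))) =
      (∑ i, ∑ j ∈ Finset.univ.erase i, x i ^ 2 / (x i - x j) * eval x (pderiv i g)) * eval x g' +
      eval x g * (∑ i, ∑ j ∈ Finset.univ.erase i, x i ^ 2 / (x i - x j) *
        eval x (pderiv i g')) by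
    rw [Finset.sum_mul, Finset.mul_sum, ← Finset.sum_add_distrib]
    refine Finset.sum_congr rfl fun i _ => ?_
    rw [Finset.sum_mul, Finset.mul_sum, ← Finset.sum_add_distrib]
    refine Finset.sum_congr rfl fun j _ => ?_
    ring]
  ring

/-- The mixed second derivatives determine the singular part. -/
theorem sing_eq (lam : ℝ) (x : Fin N → ℝ) (hx : Function.Injective x)
    (g : MvPolynomial (Fin N) ℝ)
    (h : ∀ i j, i ≠ j → eval x (pderiv i g) - eval x (pderiv j g) =
      lam * (x i - x j) * eval x (pderiv i (pderiv j g))) :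
    2 * ∑ i, ∑ j ∈ Finset.univ.erase i, x i ^ 2 / (x i - x j) * eval x (pderiv i g) =
      2 * (N - 1) * ∑ i, x i * eval x (pderiv i g) +
      lam * ∑ i, ∑ j ∈ Finset.univ.erase i, x i * x j * eval x (pderiv i (pderiv j g)) := by
  have hswap : ∀ F : Fin N → Fin N → ℝ, ∑ i, ∑ j ∈ Finset.univ.erase i, F i j =
      ∑ i, ∑ j ∈ Finset.univ.erase i, F j i := by
    intro F
    rw [Finset.sum_comm' (t' := Finset.univ) (s' := fun j => Finset.univ.erase j)]
    intro i j
    simp [ne_comm]
  have e1 := hswap (fun i j => x i ^ 2 / (x i - x j) * eval x (pderiv i g))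
  have h1 : 2 * ∑ i, ∑ j ∈ Finset.univ.erase i, x i ^ 2 / (x i - x j) * eval x (pderiv i g) =
      ∑ i, ∑ j ∈ Finset.univ.erase i, (x i * eval x (pderiv i g) + x j * eval x (pderiv j g) +
        lam * (x i * x j * eval x (pderiv i (pderiv j g)))) := by
    rw [two_mul]
    nth_rewrite 2 [e1]
    rw [← Finset.sum_add_distrib]
    refine Finset.sum_congr rfl fun i _ => ?_
    rw [← Finset.sum_add_distrib]
    refine Finset.sum_congr rfl fun j hj => ?_
    have hij : i ≠ j := (Finset.ne_of_mem_erase hj).symm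
    have hne : x i - x j ≠ 0 := sub_ne_zero.mpr fun h' => hij (hx h')
    have hne' : x j - x i ≠ 0 := sub_ne_zero.mpr fun h' => hij (hx h'.symm)
    have hk := h i j hij
    have hk' : lam * eval x (pderiv i (pderiv j g)) =
        (eval x (pderiv i g) - eval x (pderiv j g)) / (x i - x j) := by
      rw [hk]; field_simp
    rw [show lam * (x i * x j * eval x (pderiv i (pderiv j g))) =
      x i * x j * (lam * eval x (pderiv i (pderiv j g))) by ring, hk',
      show x j - x i = -(x i - x j) by ring]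
    field_simp
    ring
  rw [h1]
  have h2 : ∀ i : Fin N, ∑ j ∈ Finset.univ.erase i, x i * eval x (pderiv i g) =
      ((N : ℝ) - 1) * (x i * eval x (pderiv i g)) := by
    intro i
    have hN : 1 ≤ N := by have := i.2; omega
    rw [Finset.sum_const, Finset.card_erase_of_mem (Finset.mem_univ i), Finset.card_univ,
      Fintype.card_fin, nsmul_eq_mul, Nat.cast_sub hN]
    simp
  simp only [Finset.sum_add_distrib]
  rw [hswap (fun i j => x j * eval x (pderiv j g))]
  simp only [h2, ← Finset.mul_sum]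
  ring

/-- Euler's identity twice. -/
theorem euler2 (x : Fin N → ℝ) (g : MvPolynomial (Fin N) ℝ) (m : ℕ) (hg : g.IsHomogeneous m) :
    ∑ i, x i ^ 2 * eval x (pderiv i (pderiv i g)) +
      ∑ i, ∑ j ∈ Finset.univ.erase i, x i * x j * eval x (pderiv i (pderiv j g)) =
      (m : ℝ) * (m - 1) * eval x g := by
  have h1 : ∀ j, ∑ i, X i * pderiv i (pderiv j g) = C ((m : ℝ) - 1) * pderiv j g := by
    intro j
    rcases Nat.eq_zero_or_pos m with rfl | hm
    · have h0 : pderiv j g = 0 := by
        rw [← totalDegree_zero_iff_isHomogeneous, totalDegree_eq_zero_iff_eq_C] at hg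
        rw [hg, pderiv_C]
      simp [h0]
    · rw [(hg.pderiv (i := j)).sum_X_mul_pderiv, nsmul_eq_mul, Nat.cast_sub hm]
      simp
  have h2 : ∑ j, X j * ∑ i, X i * pderiv i (pderiv j g) = C ((m : ℝ) * (m - 1)) * g := by
    simp only [h1]
    have := hg.sum_X_mul_pderiv
    rw [nsmul_eq_mul] at this
    rw [show (∑ j, X j * (C ((m : ℝ) - 1) * pderiv j g)) =
      C ((m : ℝ) - 1) * ∑ j, X j * pderiv j g by
        rw [Finset.mul_sum]; exact Finset.sum_congr rfl fun j _ => by ring]
    rw [this, map_mul]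
    simp only [map_natCast]
    ring
  have h3 := congrArg (eval x) h2
  simp only [map_sum, map_mul, eval_X, eval_C] at h3
  rw [← h3, ← Finset.sum_add_distrib]
  have h4 : ∀ i : Fin N, x i ^ 2 * eval x (pderiv i (pderiv i g)) +
      ∑ j ∈ Finset.univ.erase i, x i * x j * eval x (pderiv i (pderiv j g)) =
      ∑ j, x i * x j * eval x (pderiv i (pderiv j g)) := by
    intro i
    rw [← Finset.add_sum_erase Finset.univ _ (Finset.mem_univ i)]
    ring
  simp only [h4, Finset.mul_sum]
  rw [Finset.sum_comm]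
  refine Finset.sum_congr rfl fun j _ => Finset.sum_congr rfl fun i _ => ?_
  ring

/-- mixed derivatives commute -/
theorem pderiv_comm' (i j : Fin N) (g : MvPolynomial (Fin N) ℝ) :
    pderiv i (pderiv j g) = pderiv j (pderiv i g) := by
  induction g using MvPolynomial.induction_on with
  | C a => simp
  | add p q hp hq => simp [hp, hq]
  | mul_X p k hp =>
    simp only [Derivation.leibniz, smul_eq_mul, map_add, pderiv_X]
    have h1 : ∀ a b : Fin N, pderiv a (Pi.single (M := fun _ => MvPolynomial (Fin N) ℝ) b 1 k) = 0 := by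
      intro a b
      by_cases h : k = b
      · subst h; simp
      · simp [h]
    rw [h1, h1, hp]
    ring

theorem euler1 (x : Fin N → ℝ) (g : MvPolynomial (Fin N) ℝ) (m : ℕ) (hg : g.IsHomogeneous m) :
    ∑ i, x i * eval x (pderiv i g) = (m : ℝ) * eval x g := by
  have h1 := congrArg (eval x) hg.sum_X_mul_pderiv
  simp only [map_sum, map_mul, eval_X, nsmul_eq_mul, map_natCast] at h1
  exact h1

theorem Seq.epd {α : ℝ} {f : ℕ → MvPolynomial (Fin N) ℝ} (hf : Seq α f) (m : ℕ) (i j : Fin N)
    (hij : i ≠ j) :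
    C α * (pderiv i (f m) - pderiv j (f m)) = (X i - X j) * pderiv i (pderiv j (f m)) := by
  have h1 := congrArg (pderiv j) (hf.step i m)
  have h2 := congrArg (pderiv i) (hf.step j m)
  simp only [map_add, Derivation.leibniz, pderiv_C, smul_eq_mul, mul_zero, add_zero,
    pderiv_X_of_ne hij.symm, pderiv_X_of_ne hij] at h1 h2
  rw [pderiv_comm' j i (f (m + 1))] at h1
  rw [h2] at h1
  rw [pderiv_comm' j i (f m)] at h1
  linear_combination h1

theorem Dop_seq {α : ℝ} (hα : α ≠ 0) {f : ℕ → MvPolynomial (Fin N) ℝ} (hf : Seq α f) (m : ℕ)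
    (x : Fin N → ℝ) (hx : Function.Injective x) :
    Dop α x (f m) = ((m : ℝ) * (m - 1) + 2 * α * (N - 1) * m) * eval x (f m) := by
  have h1 := sing_eq (1 / α) x hx (f m) (by
    intro i j hij
    have := congrArg (eval x) (hf.epd m i j hij)
    simp only [map_mul, map_sub, eval_C, eval_X] at this
    field_simp
    linear_combination this)
  have h2 := euler2 x (f m) m (hf.hom m)
  have h3 := euler1 x (f m) m (hf.hom m)
  unfold Dop
  rw [h3] at h1
  have h4 : α * (1 / α) = 1 := by field_simp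
  linear_combination α * h1 + h2 + (∑ i, ∑ j ∈ Finset.univ.erase i, x i * x j *
    eval x (pderiv i (pderiv j (f m)))) * h4

theorem Dop_esymm (α : ℝ) (m : ℕ) (x : Fin N → ℝ) (hx : Function.Injective x) :
    Dop α x (esymm (Fin N) ℝ m) =
      (2 * α * (N - 1) * m - α * (m * (m - 1))) * eval x (esymm (Fin N) ℝ m) := by
  rcases m with _ | m
  · simp [Dop]
  have hz : ∀ i : Fin N, pderiv i (pderiv i (esymm (Fin N) ℝ (m + 1))) = 0 := by
    intro i; rw [pderiv_esymm, pderiv_ehat]
  have hs : ∀ (i : Fin N) (k : ℕ), pderiv i (esymm (Fin N) ℝ (k + 1)) =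
      esymm (Fin N) ℝ k - X i * pderiv i (esymm (Fin N) ℝ k) := by
    intro i k
    rcases k with _ | k
    · rw [pderiv_esymm, ehat_zero, esymm_zero]; simp
    · rw [pderiv_esymm, pderiv_esymm, esymm_succ_eq i k]; ring
  have hepd : ∀ i j : Fin N, i ≠ j → (pderiv i (esymm (Fin N) ℝ (m + 1)) -
      pderiv j (esymm (Fin N) ℝ (m + 1))) =
      -((X i - X j) * pderiv i (pderiv j (esymm (Fin N) ℝ (m + 1)))) := by
    intro i j hij
    have h1 := congrArg (pderiv j) (hs i (m + 1))
    have h2 := congrArg (pderiv i) (hs j (m + 1))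
    simp only [map_sub, Derivation.leibniz, smul_eq_mul, mul_zero, add_zero,
      pderiv_X_of_ne hij.symm, pderiv_X_of_ne hij] at h1 h2
    rw [pderiv_comm' j i (esymm (Fin N) ℝ (m + 1 + 1))] at h1
    rw [h2] at h1
    rw [pderiv_comm' j i (esymm (Fin N) ℝ (m + 1))] at h1
    linear_combination h1
  have h1 := sing_eq (-1) x hx (esymm (Fin N) ℝ (m + 1)) (by
    intro i j hij
    have := congrArg (eval x) (hepd i j hij)
    simp only [map_mul, map_sub, map_neg, eval_X] at this
    linear_combination this)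
  have h2 := euler2 x _ (m + 1) (esymm_homogeneous (m + 1))
  have h3 := euler1 x _ (m + 1) (esymm_homogeneous (m + 1))
  unfold Dop
  have h5 : ∑ i, x i ^ 2 * eval x (pderiv i (pderiv i (esymm (Fin N) ℝ (m + 1)))) = 0 := by
    refine Finset.sum_eq_zero fun i _ => ?_
    rw [hz]; simp
  rw [h3] at h1
  rw [h5] at h2 ⊢
  linear_combination α * h1 - α * h2

/-- **The eigenvalue equation for `V_{r,s}`.** -/
theorem Dop_V {α : ℝ} (hα : α ≠ 0) {f : ℕ → MvPolynomial (Fin N) ℝ} (hf : Seq α f)
    (x : Fin N → ℝ) (hx : Function.Injective x) : ∀ s r : ℕ,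
    Dop α x (V f r s) = ((r : ℝ) * (r - 1) - α * (s * (s + 1)) + 2 * α * (N - 1) * (r + s)) *
      eval x (V f r s) := by
  intro s
  induction s with
  | zero =>
    intro r
    rw [V_zero_right α f hf, Dop_C_mul, Dop_seq hα hf r x hx, map_mul, eval_C]
    push_cast
    ring
  | succ s ih =>
    intro r
    have h1 := pieri α f hf r s
    have h2 := congrArg (Dop α x) h1
    rw [Dop_C_mul, Dop_mul, Dop_add, ih (r + 1), Dop_seq hα hf r x hx, Dop_esymm α _ x hx,
      cross α f hf] at h2
    have h3 := congrArg (eval x) h1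
    simp only [map_mul, map_add, map_sub, eval_C] at h2 h3
    push_cast at h2 h3 ⊢
    linear_combination (-1 : ℝ) * h2 + (r * (r + 1) - α * (s * (s + 1)) +
      2 * α * (N - 1) * (r + 1 + s)) * h3 
    

end Pool.Agent.JH
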