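import Mathlib

/-!
# Words with prescribed ascents and descents, and standardisation
-/

set_option autoImplicit false

open MvPolynomial

namespace Pool.Agent.JH

/-- Condition on the adjacent letters of a word: `t j = 1` requires a weak ascent, `t j = 2` a
strict descent at the place `j` (between the letters `j` and `j + 1`, counted from `0`). -/
def Cond {β : Type*} [LT β] [LE β] (n : ℕ) (t : ℕ → ℕ) (w : Fin n → β) : Prop :=
  ∀ (j : ℕ) (h : j + 1 < n), (t j = 1 → w ⟨j, by omega⟩ ≤ w ⟨j + 1, h⟩) ∧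
    (t j = 2 → w ⟨j + 1, h⟩ < w ⟨j, by omega⟩)

/-- Condition for the fundamental quasisymmetric polynomial. -/
def QCond {β : Type*} [Preorder β] (n : ℕ) (S : Finset ℕ) (i : Fin n → β) : Prop :=
  Monotone i ∧ ∀ (j : ℕ) (h : j + 1 < n), j + 1 ∈ S → i ⟨j, by omega⟩ < i ⟨j + 1, h⟩

open Classical in
/-- Generating function of the words of length `n` in `N` letters with the condition `t`. -/
noncomputable def G (N n : ℕ) (t : ℕ → ℕ) : MvPolynomial (Fin N) ℝ :=
  ∑ w : Fin n → Fin N, if Cond n t w then ∏ j, X (w j) else 0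

open Classical in
/-- The fundamental quasisymmetric polynomial. -/
noncomputable def fund (N n : ℕ) (S : Finset ℕ) : MvPolynomial (Fin N) ℝ :=
  ∑ i : Fin n → Fin N, if QCond n S i then ∏ j, X (i j) else 0

open Classical in
/-- The descent set `{j + 1 : σ (j + 1) < σ j}`, a subset of `{1, ..., n - 1}`. -/
noncomputable def Des {n : ℕ} (σ : Equiv.Perm (Fin n)) : Finset ℕ :=
  (Finset.Icc 1 (n - 1)).filter fun j => ∃ h : j < n, ∃ _ : 1 ≤ j, σ ⟨j, h⟩ < σ ⟨j - 1, by omega⟩

theorem succ_mem_Des {n : ℕ} (σ : Equiv.Perm (Fin n)) (j : ℕ) (h : j + 1 < n) :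
    j + 1 ∈ Des σ ↔ σ ⟨j + 1, h⟩ < σ ⟨j, by omega⟩ := by
  unfold Des
  rw [Finset.mem_filter, Finset.mem_Icc]
  constructor
  · rintro ⟨_, h1, h2, h3⟩
    simpa using h3
  · intro h1
    exact ⟨⟨by omega, by omega⟩, h, by omega, by simpa using h1⟩

theorem sort_iff {n N : ℕ} (σ : Equiv.Perm (Fin n)) (i : Fin n → Fin N) :
    σ = Tuple.sort (i ∘ σ.symm) ↔ QCond n (Des σ) i := by
  rw [Tuple.eq_sort_iff]
  have h0 : (i ∘ σ.symm) ∘ σ = i := by ext x; simp
  rw [h0]
  simp only [Function.comp_apply, Equiv.symm_apply_apply]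
  constructor
  · rintro ⟨h1, h2⟩
    refine ⟨h1, fun j h hj => ?_⟩
    rw [succ_mem_Des σ j h] at hj
    have h3 : i ⟨j, by omega⟩ ≤ i ⟨j + 1, h⟩ := h1 (by simp [Fin.le_def])
    refine lt_of_le_of_ne h3 fun h4 => ?_
    exact absurd (h2 ⟨j, by omega⟩ ⟨j + 1, h⟩ (by simp [Fin.lt_def]) h4) (not_lt.mpr hj.le)
  · rintro ⟨h1, h2⟩
    refine ⟨h1, fun a b hab he => ?_⟩
    have key : ∀ d : ℕ, ∀ h : a.1 + (d + 1) ≤ b.1,
        σ a < σ ⟨a.1 + (d + 1), by have := b.2; omega⟩ := by
      intro d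
      induction d with
      | zero =>
        intro h
        have hlt : a.1 + 1 < n := by have := b.2; omega
        have h5 : ¬ (a.1 + 1 ∈ Des σ) := by
          intro h6
          have h7 := h2 a.1 hlt h6
          have h8 : i ⟨a.1 + 1, hlt⟩ ≤ i b := h1 (by simp [Fin.le_def]; omega)
          have h9 : i ⟨a.1, by omega⟩ = i a := rfl
          rw [h9, he] at h7
          exact absurd h8 (not_le.mpr h7)
        rw [succ_mem_Des σ a.1 hlt] at h5
        refine lt_of_le_of_ne (not_lt.mp h5) fun h6 => ?_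
        have h7 := congrArg Fin.val (σ.injective h6)
        simp at h7
      | succ d ih =>
        intro h
        have h3 := ih (by omega)
        have hlt : a.1 + (d + 1) + 1 < n := by have := b.2; omega
        have h5 : ¬ (a.1 + (d + 1) + 1 ∈ Des σ) := by
          intro h6
          have h7 := h2 (a.1 + (d + 1)) hlt h6
          have h8 : i ⟨a.1 + (d + 1) + 1, hlt⟩ ≤ i b := h1 (by simp [Fin.le_def]; omega)
          have h9 : i a ≤ i ⟨a.1 + (d + 1), by omega⟩ := h1 (by simp [Fin.le_def])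
          rw [he] at h9
          exact absurd (h9.trans_lt (h7.trans_le h8)) (lt_irrefl _)
        rw [succ_mem_Des σ _ hlt] at h5
        exact h3.trans_le (not_lt.mp h5)
    have := key (b.1 - a.1 - 1) (by have : a.1 < b.1 := hab; omega)
    have h10 : (⟨a.1 + (b.1 - a.1 - 1 + 1), by have := b.2; omega⟩ : Fin n) = b := by
      apply Fin.ext
      have : a.1 < b.1 := hab
      simp only
      omega
    rwa [h10] at this

theorem cond_iff {n N : ℕ} (t : ℕ → ℕ) (σ : Equiv.Perm (Fin n)) (i : Fin n → Fin N)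
    (h : σ = Tuple.sort (i ∘ σ.symm)) : Cond n t (i ∘ σ.symm) ↔ Cond n t (σ.symm) := by
  rw [Tuple.eq_sort_iff] at h
  have h0 : (i ∘ σ.symm) ∘ σ = i := by ext x; simp
  rw [h0] at h
  obtain ⟨h1, h2⟩ := h
  simp only [Function.comp_apply, Equiv.symm_apply_apply] at h2
  have key : ∀ p q : Fin n, p < q → (i (σ.symm p) ≤ i (σ.symm q) ↔ σ.symm p ≤ σ.symm q) := by
    intro p q hpq
    constructor
    · intro h3
      by_contra h4
      push Not at h4
      have h5 : i (σ.symm q) ≤ i (σ.symm p) := h1 h4.le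
      have h6 := h2 (σ.symm q) (σ.symm p) h4 (le_antisymm h5 h3)
      simp only [Equiv.apply_symm_apply] at h6
      exact absurd h6 (not_lt.mpr hpq.le)
    · intro h3
      exact h1 h3
  unfold Cond
  constructor
  · intro h3 j h
    have hk := key ⟨j, by omega⟩ ⟨j + 1, h⟩ (by simp [Fin.lt_def])
    refine ⟨fun h4 => hk.mp ((h3 j h).1 h4), fun h4 => ?_⟩
    have h5 := (h3 j h).2 h4
    by_contra h6
    exact absurd (hk.mpr (not_lt.mp h6)) (not_le.mpr h5)
  · intro h3 j h
    have hk := key ⟨j, by omega⟩ ⟨j + 1, h⟩ (by simp [Fin.lt_def])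
    refine ⟨fun h4 => hk.mpr ((h3 j h).1 h4), fun h4 => ?_⟩
    have h5 := (h3 j h).2 h4
    by_contra h6
    exact absurd (hk.mp (not_lt.mp h6)) (not_le.mpr h5)

open Classical in
/-- **Standardisation.** -/
theorem G_eq_sum_fund (N n : ℕ) (t : ℕ → ℕ) :
    G N n t = ∑ σ : Equiv.Perm (Fin n), if Cond n t σ.symm then fund N n (Des σ) else 0 := by
  unfold G
  rw [← Finset.sum_fiberwise (Finset.univ : Finset (Fin n → Fin N)) (fun w => Tuple.sort w)]
  refine Finset.sum_congr rfl fun σ _ => ?_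
  rw [Finset.sum_filter]
  rw [← Equiv.sum_comp (Equiv.arrowCongr σ (Equiv.refl (Fin N)))]
  have h1 : ∀ i : Fin n → Fin N, (Equiv.arrowCongr σ (Equiv.refl (Fin N))) i = i ∘ σ.symm := by
    intro i; ext x; simp [Equiv.arrowCongr]
  simp only [h1]
  unfold fund
  by_cases hc : Cond n t σ.symm
  · rw [if_pos hc]
    refine Finset.sum_congr rfl fun i _ => ?_
    by_cases hs : Tuple.sort (i ∘ σ.symm) = σ
    · rw [if_pos hs, if_pos ((cond_iff t σ i hs.symm).mpr hc), if_pos ((sort_iff σ i).mp hs.symm)]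
      exact Equiv.prod_comp σ.symm (fun j => (X (i j) : MvPolynomial (Fin N) ℝ))
    · rw [if_neg hs, if_neg (fun h => hs ((sort_iff σ i).mpr h).symm)]
  · rw [if_neg hc]
    refine Finset.sum_eq_zero fun i _ => ?_
    by_cases hs : Tuple.sort (i ∘ σ.symm) = σ
    · rw [if_pos hs, if_neg (fun h => hc ((cond_iff t σ i hs.symm).mp h))]
    · rw [if_neg hs]

end Pool.Agent.JH
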