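import Mathlib
import Pool.Agent.JH.Words
import Pool.Agent.JH.Eig

/-!
# Words: concatenation, splitting of a free place, hooks
-/

set_option autoImplicit false

open MvPolynomial

namespace Pool.Agent.JH

/-- The condition for the concatenation of two words (free place at the joint). -/
def cat (n : ℕ) (t t' : ℕ → ℕ) : ℕ → ℕ :=
  fun j => if j + 1 < n then t j else if j + 1 = n then 0 else t' (j - n)

theorem cond_append {β : Type*} [LT β] [LE β] (n m : ℕ) (t t' : ℕ → ℕ) (u : Fin n → β)
    (v : Fin m → β) : Cond (n + m) (cat n t t') (Fin.append u v) ↔ Cond n t u ∧ Cond m t' v := by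
  have hl : ∀ (j : ℕ) (h : j < n), Fin.append u v ⟨j, by omega⟩ = u ⟨j, h⟩ := by
    intro j h
    exact Fin.append_left u v ⟨j, h⟩
  have hr : ∀ (j : ℕ) (h : j < m), Fin.append u v ⟨n + j, by omega⟩ = v ⟨j, h⟩ := by
    intro j h
    exact Fin.append_right u v ⟨j, h⟩
  constructor
  · intro h
    refine ⟨fun j hj => ?_, fun j hj => ?_⟩
    · have h1 := h j (by omega)
      rw [hl j (by omega), hl (j + 1) hj] at h1
      have h2 : cat n t t' j = t j := by unfold cat; rw [if_pos hj]
      rwa [h2] at h1
    · have h1 := h (n + j) (by omega)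
      have h3 : (⟨n + j + 1, by omega⟩ : Fin (n + m)) = ⟨n + (j + 1), by omega⟩ := by
        apply Fin.ext; simp only; omega
      rw [h3, hr j (by omega), hr (j + 1) hj] at h1
      have h2 : cat n t t' (n + j) = t' j := by
        unfold cat
        rw [if_neg (by omega), if_neg (by omega)]
        congr 1
        omega
      rwa [h2] at h1
  · rintro ⟨h1, h2⟩ j hj
    rcases lt_trichotomy (j + 1) n with h | h | h
    · have h3 := h1 j h
      rw [hl j (by omega), hl (j + 1) h]
      have h2 : cat n t t' j = t j := by unfold cat; rw [if_pos h]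
      rwa [h2]
    · have h2 : cat n t t' j = 0 := by
        unfold cat
        rw [if_neg (by omega), if_pos h]
      rw [h2]
      exact ⟨fun h => by omega, fun h => by omega⟩
    · obtain ⟨i, rfl⟩ : ∃ i, j = n + i := ⟨j - n, by omega⟩
      have h3 := h2 i (by omega)
      have h4 : (⟨n + i + 1, by omega⟩ : Fin (n + m)) = ⟨n + (i + 1), by omega⟩ := by
        apply Fin.ext; simp only; omega
      rw [h4, hr i (by omega), hr (i + 1) (by omega)]
      have h2 : cat n t t' (n + i) = t' i := by
        unfold cat
        rw [if_neg (by omega), if_neg (by omega)]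
        congr 1
        omega
      rwa [h2]

theorem G_mul (N n m : ℕ) (t t' : ℕ → ℕ) :
    G N n t * G N m t' = G N (n + m) (cat n t t') := by
  classical
  unfold G
  rw [Finset.sum_mul_sum, ← Finset.sum_product']
  rw [← Equiv.sum_comp (Fin.appendEquiv n m)]
  refine Finset.sum_congr (by ext; simp) fun p _ => ?_
  obtain ⟨u, v⟩ := p
  have h0 : (Fin.appendEquiv n m) (u, v) = Fin.append u v := rfl
  rw [h0]
  have h1 := cond_append n m t t' u v
  by_cases hu : Cond n t u
  · by_cases hv : Cond m t' v
    · rw [if_pos hu, if_pos hv, if_pos (h1.mpr ⟨hu, hv⟩), Fin.prod_univ_add]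
      simp
    · rw [if_neg hv, if_neg (fun h => hv (h1.mp h).2), mul_zero]
  · rw [if_neg hu, if_neg (fun h => hu (h1.mp h).1), zero_mul]

theorem G_congr (N n : ℕ) (t t' : ℕ → ℕ) (h : ∀ j, j + 1 < n → t j = t' j) :
    G N n t = G N n t' := by
  classical
  unfold G
  refine Finset.sum_congr rfl fun w _ => ?_
  have : Cond n t w ↔ Cond n t' w := by
    unfold Cond
    refine forall_congr' fun j => forall_congr' fun hj => ?_
    rw [h j hj]
  by_cases hc : Cond n t w
  · rw [if_pos hc, if_pos (this.mp hc)]
  · rw [if_neg hc, if_neg (fun h' => hc (this.mpr h'))]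

theorem G_split (N n : ℕ) (t : ℕ → ℕ) (k : ℕ) (hk : k + 1 < n) (h0 : t k = 0) :
    G N n t = G N n (Function.update t k 1) + G N n (Function.update t k 2) := by
  classical
  unfold G
  rw [← Finset.sum_add_distrib]
  refine Finset.sum_congr rfl fun w _ => ?_
  have h1 : Cond n (Function.update t k 1) w ↔ Cond n t w ∧ w ⟨k, by omega⟩ ≤ w ⟨k + 1, hk⟩ := by
    constructor
    · intro h
      refine ⟨fun j hj => ?_, ?_⟩
      · by_cases hjk : j = k
        · subst hjk
          rw [h0]
          exact ⟨fun h => by omega, fun h => by omega⟩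
        · have := h j hj
          rwa [Function.update_of_ne hjk] at this
      · have := h k hk
        rw [Function.update_self] at this
        exact this.1 rfl
    · rintro ⟨h, h'⟩ j hj
      by_cases hjk : j = k
      · subst hjk
        rw [Function.update_self]
        exact ⟨fun _ => h', fun h => by omega⟩
      · rw [Function.update_of_ne hjk]
        exact h j hj
  have h2 : Cond n (Function.update t k 2) w ↔ Cond n t w ∧ w ⟨k + 1, hk⟩ < w ⟨k, by omega⟩ := by
    constructor
    · intro h
      refine ⟨fun j hj => ?_, ?_⟩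
      · by_cases hjk : j = k
        · subst hjk
          rw [h0]
          exact ⟨fun h => by omega, fun h => by omega⟩
        · have := h j hj
          rwa [Function.update_of_ne hjk] at this
      · have := h k hk
        rw [Function.update_self] at this
        exact this.2 rfl
    · rintro ⟨h, h'⟩ j hj
      by_cases hjk : j = k
      · subst hjk
        rw [Function.update_self]
        exact ⟨fun h => by omega, fun _ => h'⟩
      · rw [Function.update_of_ne hjk]
        exact h j hj
  by_cases hc : Cond n t w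
  · by_cases hl : w ⟨k, by omega⟩ ≤ w ⟨k + 1, hk⟩
    · rw [if_pos hc, if_pos (h1.mpr ⟨hc, hl⟩), if_neg (fun h => absurd (h2.mp h).2 (not_lt.mpr hl)),
        add_zero]
    · rw [if_pos hc, if_neg (fun h => hl (h1.mp h).2), if_pos (h2.mpr ⟨hc, not_le.mp hl⟩), zero_add]
  · rw [if_neg hc, if_neg (fun h => hc (h1.mp h).1), if_neg (fun h => hc (h2.mp h).1), add_zero]

/-- Weakly increasing words. -/
noncomputable def Sh (N n : ℕ) : MvPolynomial (Fin N) ℝ := G N n fun _ => 1

/-- Strictly decreasing words. -/
noncomputable def Ee (N n : ℕ) : MvPolynomial (Fin N) ℝ := G N n fun _ => 2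

/-- Hook words: `w_0 > w_1 > ⋯ > w_s ≤ w_(s+1) ≤ ⋯ ≤ w_(n-1)`. -/
noncomputable def Hk (N n s : ℕ) : MvPolynomial (Fin N) ℝ := G N n fun j => if j < s then 2 else 1

theorem Hk_zero (N n : ℕ) : Hk N n 0 = Sh N n := by
  unfold Hk Sh
  exact G_congr N n _ _ fun j _ => by simp

theorem Ee_mul_Sh (N s r : ℕ) (hr : 1 ≤ r) :
    Ee N (s + 1) * Sh N r = Hk N (s + 1 + r) s + Hk N (s + 1 + r) (s + 1) := by
  unfold Ee Sh
  rw [G_mul, G_split N (s + 1 + r) _ s (by omega) (by unfold cat; simp)]
  unfold Hk
  congr 1
  · refine G_congr N _ _ _ fun j hj => ?_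
    by_cases h : j = s
    · subst h; simp
    · rw [Function.update_of_ne h]
      unfold cat
      by_cases h' : j < s
      · rw [if_pos (by omega), if_pos h']
      · rw [if_neg (by omega), if_neg (by omega), if_neg h']
  · refine G_congr N _ _ _ fun j hj => ?_
    by_cases h : j = s
    · subst h; simp
    · rw [Function.update_of_ne h]
      unfold cat
      by_cases h' : j < s
      · rw [if_pos (by omega), if_pos (by omega)]
      · rw [if_neg (by omega), if_neg (by omega), if_neg (by omega)]

theorem prod_X_eq {N n : ℕ} (w : Fin n → Fin N) :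
    (∏ j, X (w j) : MvPolynomial (Fin N) ℝ) = monomial (∑ j, Finsupp.single (w j) 1) 1 := by
  rw [monomial_sum_one]
  rfl

theorem coeff_G (N n : ℕ) (t : ℕ → ℕ) (d : Fin N →₀ ℕ) [DecidablePred fun w : Fin n → Fin N =>
    Cond n t w ∧ ∑ j, Finsupp.single (w j) 1 = d] :
    coeff d (G N n t) = (((Finset.univ : Finset (Fin n → Fin N)).filter
      fun w => Cond n t w ∧ ∑ j, Finsupp.single (w j) 1 = d).card : ℝ) := by
  classical
  unfold G
  rw [coeff_sum, Finset.card_filter, Nat.cast_sum]
  refine Finset.sum_congr rfl fun w _ => ?_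
  by_cases hc : Cond n t w
  · rw [if_pos hc, prod_X_eq, coeff_monomial]
    by_cases hd : ∑ j, Finsupp.single (w j) 1 = d
    · rw [if_pos hd, if_pos ⟨hc, hd⟩]; simp
    · rw [if_neg hd, if_neg (fun h => hd h.2)]; simp
  · rw [if_neg hc, if_neg (fun h => hc h.1)]; simp

theorem degree_word {N n : ℕ} (w : Fin n → Fin N) :
    (∑ j, Finsupp.single (w j) 1 : Fin N →₀ ℕ).degree = n := by
  rw [map_sum]
  simp

theorem G_homogeneous (N n : ℕ) (t : ℕ → ℕ) : (G N n t).IsHomogeneous n := by
  classical
  unfold G
  refine IsHomogeneous.sum _ _ _ fun w _ => ?_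
  by_cases hc : Cond n t w
  · rw [if_pos hc, prod_X_eq]
    refine isHomogeneous_monomial _ ?_
    exact degree_word w
  · rw [if_neg hc]; exact isHomogeneous_zero _ _ _

end Pool.Agent.JH
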