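import Mathlib
import Pool.Agent.JH.Words2

/-!
# The sequence of the weakly increasing words
-/

set_option autoImplicit false

open MvPolynomial

namespace Pool.Agent.JH

theorem cond_one_iff {β : Type*} [Preorder β] (n : ℕ) (w : Fin n → β) :
    Cond n (fun _ => 1) w ↔ Monotone w := by
  cases n with
  | zero => exact ⟨fun _ => fun a => a.elim0, fun _ j h => absurd h (by omega)⟩
  | succ n =>
    rw [Fin.monotone_iff_le_succ]
    constructor
    · intro h i
      have := (h i.1 (by have := i.2; omega)).1 rfl
      exact this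
    · intro h j hj
      exact ⟨fun _ => h ⟨j, by omega⟩, fun h => absurd h (by norm_num)⟩

theorem cond_two_iff {β : Type*} [Preorder β] (n : ℕ) (w : Fin n → β) :
    Cond n (fun _ => 2) w ↔ StrictAnti w := by
  cases n with
  | zero => exact ⟨fun _ => fun a => a.elim0, fun _ j h => absurd h (by omega)⟩
  | succ n =>
    rw [Fin.strictAnti_iff_succ_lt]
    constructor
    · intro h i
      have := (h i.1 (by have := i.2; omega)).2 rfl
      exact this
    · intro h j hj
      exact ⟨fun h => absurd h (by norm_num), fun _ => h ⟨j, by omega⟩⟩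

theorem exists_word {N : ℕ} (n : ℕ) : ∀ d : Fin N →₀ ℕ, d.degree = n →
    ∃ w : Fin n → Fin N, ∑ j, Finsupp.single (w j) 1 = d := by
  induction n with
  | zero =>
    intro d hd
    rw [Finsupp.degree_eq_zero_iff] at hd
    exact ⟨fun a => a.elim0, by simp [hd]⟩
  | succ n ih =>
    intro d hd
    have hne : d ≠ 0 := by
      rintro rfl
      simp at hd
    obtain ⟨i, hi⟩ := Finsupp.support_nonempty_iff.mpr hne
    rw [Finsupp.mem_support_iff] at hi
    have hle : Finsupp.single i 1 ≤ d := by
      rw [Finsupp.single_le_iff]; omega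
    obtain ⟨w, hw⟩ := ih (d - Finsupp.single i 1) (by
      have : (d - Finsupp.single i 1 + Finsupp.single i 1).degree = n + 1 := by
        rw [tsub_add_cancel_of_le hle, hd]
      rw [map_add, Finsupp.degree_single] at this
      omega)
    refine ⟨Fin.cons i w, ?_⟩
    rw [Fin.sum_univ_succ]
    simp only [Fin.cons_zero, Fin.cons_succ]
    rw [hw, add_comm, tsub_add_cancel_of_le hle]

theorem word_unique {N n : ℕ} (w w' : Fin n → Fin N) (hw : Monotone w) (hw' : Monotone w')
    (h : ∑ j, Finsupp.single (w j) 1 = ∑ j, (Finsupp.single (w' j) 1 : Fin N →₀ ℕ)) : w = w' := by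
  have h1 : ∀ v : Fin n → Fin N, Finsupp.toMultiset (∑ j, Finsupp.single (v j) 1) =
      (↑(List.ofFn v) : Multiset (Fin N)) := by
    intro v
    rw [map_sum]
    simp only [Finsupp.toMultiset_single, one_smul]
    rw [← Fin.univ_val_map]
    rw [Finset.sum]
    have h3 : (fun x => ({v x} : Multiset (Fin N))) = (fun a => ({a} : Multiset (Fin N))) ∘ v := rfl
    rw [h3, ← Multiset.map_map (fun a => ({a} : Multiset (Fin N))) v, Multiset.sum_map_singleton]
  have h2 := congrArg Finsupp.toMultiset h
  rw [h1, h1, Multiset.coe_eq_coe] at h2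
  apply List.ofFn_injective
  refine h2.eq_of_pairwise' (r := (· ≤ ·)) ?_ ?_
  · rw [List.pairwise_ofFn]
    exact fun i j hij => hw hij.le
  · rw [List.pairwise_ofFn]
    exact fun i j hij => hw' hij.le

theorem coeff_Sh (N n : ℕ) (d : Fin N →₀ ℕ) :
    coeff d (Sh N n) = if d.degree = n then 1 else 0 := by
  classical
  unfold Sh
  rw [coeff_G]
  by_cases hd : d.degree = n
  · rw [if_pos hd]
    obtain ⟨u, hu⟩ := exists_word n d hd
    have : ((Finset.univ : Finset (Fin n → Fin N)).filter
      fun w => Cond n (fun _ => 1) w ∧ ∑ j, Finsupp.single (w j) 1 = d) = {u ∘ Tuple.sort u} := by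
      have hs : ∑ j, Finsupp.single ((u ∘ Tuple.sort u) j) 1 = d := by
        rw [← hu]
        exact Equiv.sum_comp (Tuple.sort u) (fun j => (Finsupp.single (u j) 1 : Fin N →₀ ℕ))
      ext w
      simp only [Finset.mem_filter, Finset.mem_univ, true_and, Finset.mem_singleton]
      constructor
      · rintro ⟨h1, h2⟩
        rw [cond_one_iff] at h1
        exact word_unique _ _ h1 (Tuple.monotone_sort u) (h2.trans hs.symm)
      · rintro rfl
        refine ⟨?_, hs⟩
        rw [cond_one_iff]
        exact Tuple.monotone_sort u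
    rw [this]
    simp
  · rw [if_neg hd]
    have : ((Finset.univ : Finset (Fin n → Fin N)).filter
      fun w => Cond n (fun _ => 1) w ∧ ∑ j, Finsupp.single (w j) 1 = d) = ∅ := by
      rw [Finset.filter_eq_empty_iff]
      rintro w _ ⟨_, h2⟩
      apply hd
      rw [← h2, degree_word]
    rw [this]
    simp

theorem coeff_X_mul_pderiv {N : ℕ} (i : Fin N) (p : MvPolynomial (Fin N) ℝ) (d : Fin N →₀ ℕ) :
    coeff d (X i * pderiv i p) = d i * coeff d p := by
  classical
  rw [coeff_X_mul']
  by_cases h : i ∈ d.support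
  · rw [if_pos h, coeff_pderiv]
    rw [Finsupp.mem_support_iff] at h
    have hle : Finsupp.single i 1 ≤ d := by
      rw [Finsupp.single_le_iff]; omega
    rw [tsub_add_cancel_of_le hle]
    have h2 : (d - Finsupp.single i 1 : Fin N →₀ ℕ) i + 1 = d i := by
      rw [Finsupp.tsub_apply, Finsupp.single_eq_same]; omega
    have h3 : (((d - Finsupp.single i 1 : Fin N →₀ ℕ) i : ℕ) : ℝ) + 1 = d i := by
      exact_mod_cast h2
    rw [h3, mul_comm]
  · rw [if_neg h]
    rw [Finsupp.notMem_support_iff] at h
    rw [h]; simp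

theorem seq_Sh (N : ℕ) : Seq 1 (fun n => Sh N n) where
  zero := by
    ext d
    rw [coeff_Sh, coeff_one]
    by_cases h : d = 0
    · subst h; simp
    · rw [if_neg, if_neg (Ne.symm h)]
      rwa [Finsupp.degree_eq_zero_iff]
  hom := fun n => G_homogeneous N n _
  step := by
    intro i m
    ext d
    rw [coeff_add, coeff_C_mul, coeff_X_mul_pderiv, coeff_pderiv, coeff_Sh, coeff_Sh]
    have : (d + Finsupp.single i 1).degree = m + 1 ↔ d.degree = m := by
      rw [map_add, Finsupp.degree_single]; omega
    by_cases h : d.degree = m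
    · rw [if_pos h, if_pos (this.mpr h)]; ring
    · rw [if_neg h, if_neg (fun h' => h (this.mp h'))]; ring

/-- The recursion for the coefficients of a sequence. -/
theorem Seq.coeff_step {N : ℕ} {α : ℝ} {f : ℕ → MvPolynomial (Fin N) ℝ} (hf : Seq α f) (m : ℕ)
    (i : Fin N) (d : Fin N →₀ ℕ) :
    (d i + 1 : ℝ) * coeff (d + Finsupp.single i 1) (f (m + 1)) = (α + d i) * coeff d (f m) := by
  have h := congrArg (coeff d) (hf.step i m)
  rw [coeff_add, coeff_C_mul, coeff_X_mul_pderiv, coeff_pderiv] at h
  linarith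

theorem Ee_eq_esymm (N s : ℕ) : Ee N s = esymm (Fin N) ℝ s := by
  classical
  unfold Ee G esymm
  rw [← Finset.sum_filter]
  symm
  refine Finset.sum_bij'
    (i := fun (A : Finset (Fin N)) hA => fun j : Fin s =>
      (A.orderEmbOfFin (Finset.mem_powersetCard.mp hA).2) (Fin.rev j))
    (j := fun (w : Fin s → Fin N) _ => Finset.univ.image w) ?_ ?_ ?_ ?_ ?_
  · intro A hA
    rw [Finset.mem_filter]
    refine ⟨Finset.mem_univ _, ?_⟩
    rw [cond_two_iff]
    intro a b hab
    exact (A.orderEmbOfFin _).strictMono (Fin.rev_lt_rev.mpr hab)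
  · intro w hw
    rw [Finset.mem_filter, cond_two_iff] at hw
    rw [Finset.mem_powersetCard]
    refine ⟨Finset.subset_univ _, ?_⟩
    rw [Finset.card_image_of_injective _ hw.2.injective]
    simp
  · intro A hA
    have hc := (Finset.mem_powersetCard.mp hA).2
    ext x
    simp only [Finset.mem_image, Finset.mem_univ, true_and]
    constructor
    · rintro ⟨j, rfl⟩
      exact Finset.orderEmbOfFin_mem A hc _
    · intro hx
      have : x ∈ Set.range (A.orderEmbOfFin hc) := by
        rw [Finset.range_orderEmbOfFin]; exact hx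
      obtain ⟨j, hj⟩ := this
      exact ⟨Fin.rev j, by rw [Fin.rev_rev]; exact hj⟩
  · intro w hw
    rw [Finset.mem_filter, cond_two_iff] at hw
    have hc : (Finset.univ.image w).card = s := by
      rw [Finset.card_image_of_injective _ hw.2.injective]
      simp
    have h1 : (fun j : Fin s => w (Fin.rev j)) = (Finset.univ.image w).orderEmbOfFin hc := by
      refine Finset.orderEmbOfFin_unique hc (fun j => Finset.mem_image_of_mem _ (Finset.mem_univ _)) ?_
      intro a b hab
      exact hw.2 (Fin.rev_lt_rev.mpr hab)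
    funext j
    have h2 := congrFun h1 (Fin.rev j)
    simp only [Fin.rev_rev] at h2
    exact h2.symm
  · intro A hA
    have hc := (Finset.mem_powersetCard.mp hA).2
    have h1 : A = Finset.univ.map (A.orderEmbOfFin hc).toEmbedding := by
      ext x
      simp only [Finset.mem_map, Finset.mem_univ, true_and]
      constructor
      · intro hx
        have : x ∈ Set.range (A.orderEmbOfFin hc) := by
          rw [Finset.range_orderEmbOfFin]; exact hx
        exact this
      · rintro ⟨j, rfl⟩
        exact Finset.orderEmbOfFin_mem A hc _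
    conv_lhs => rw [h1]
    rw [Finset.prod_map]
    exact (Equiv.prod_comp Fin.revPerm
      (fun j => (X (A.orderEmbOfFin hc j) : MvPolynomial (Fin N) ℝ))).symm

theorem V_Sh (N : ℕ) (s : ℕ) : ∀ r : ℕ, 1 ≤ r →
    V (fun n => Sh N n) r s = C ((r + s : ℕ) : ℝ) * Hk N (r + s) s := by
  induction s with
  | zero =>
    intro r hr
    rw [V_zero_right 1 _ (seq_Sh N), add_zero, Hk_zero]
  | succ s ih =>
    intro r hr
    have h1 := pieri 1 _ (seq_Sh N) r s
    rw [ih (r + 1) (by omega)] at h1
    rw [← Ee_eq_esymm, mul_comm (Sh N r), Ee_mul_Sh N s r hr] at h1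
    have e1 : r + 1 + s = s + 1 + r := by omega
    have e2 : r + (s + 1) = s + 1 + r := by omega
    rw [e1] at h1
    rw [e2]
    have e3 : ((r : ℝ) + (s + 1) * 1) = ((s + 1 + r : ℕ) : ℝ) := by push_cast; ring
    rw [e3] at h1
    have h2 : V (fun n => Sh N n) r (s + 1) = C ((s + 1 + r : ℕ) : ℝ) *
        (Hk N (s + 1 + r) s + Hk N (s + 1 + r) (s + 1)) - C ((s + 1 + r : ℕ) : ℝ) *
        Hk N (s + 1 + r) s := by
      rw [h1]; ring
    rw [h2]; ring

end Pool.Agent.JH
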