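import Mathlib
import Pool.Agent.JH.Words3

/-!
# The sequence `h^(α)`: coefficients of `(1 + U)^α`
-/

set_option autoImplicit false

open MvPolynomial

namespace Pool.Agent.JH

/-- `u_0 = 0`, `u_m = h_m` for `m ≥ 1`. -/
noncomputable def Uc (N m : ℕ) : MvPolynomial (Fin N) ℝ := if m = 0 then 0 else Sh N m

/-- The power series `U = ∑_{m ≥ 1} h_m z^m`. -/
noncomputable def U (N : ℕ) : PowerSeries (MvPolynomial (Fin N) ℝ) := PowerSeries.mk (Uc N)

/-- The coefficients of the powers of `U`. -/
noncomputable def W (N k m : ℕ) : MvPolynomial (Fin N) ℝ := PowerSeries.coeff m (U N ^ k)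

theorem W_zero (N m : ℕ) : W N 0 m = if m = 0 then 1 else 0 := by
  unfold W
  rw [pow_zero, PowerSeries.coeff_one]

theorem W_succ (N k m : ℕ) :
    W N (k + 1) m = ∑ p ∈ Finset.HasAntidiagonal.antidiagonal m, W N k p.1 * Uc N p.2 := by
  unfold W
  rw [pow_succ, PowerSeries.coeff_mul]
  refine Finset.sum_congr rfl fun p _ => ?_
  congr 1
  unfold U
  rw [PowerSeries.coeff_mk]

theorem W_eq_zero (N k m : ℕ) (h : m < k) : W N k m = 0 := by
  have h1 : PowerSeries.X ∣ U N := by
    rw [PowerSeries.X_dvd_iff]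
    unfold U
    rw [← PowerSeries.coeff_zero_eq_constantCoeff_apply, PowerSeries.coeff_mk]
    simp [Uc]
  exact PowerSeries.X_pow_dvd_iff.mp (pow_dvd_pow_of_dvd h1 k) m h

/-- Coefficientwise partial derivative. -/
noncomputable def dl {N : ℕ} (i : Fin N) (F : PowerSeries (MvPolynomial (Fin N) ℝ)) :
    PowerSeries (MvPolynomial (Fin N) ℝ) := PowerSeries.mk fun m => pderiv i (PowerSeries.coeff m F)

theorem coeff_dl {N : ℕ} (i : Fin N) (F : PowerSeries (MvPolynomial (Fin N) ℝ)) (m : ℕ) :
    PowerSeries.coeff m (dl i F) = pderiv i (PowerSeries.coeff m F) := by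
  unfold dl
  rw [PowerSeries.coeff_mk]

theorem dl_mul {N : ℕ} (i : Fin N) (F F' : PowerSeries (MvPolynomial (Fin N) ℝ)) :
    dl i (F * F') = dl i F * F' + F * dl i F' := by
  ext1 m
  rw [coeff_dl, PowerSeries.coeff_mul, map_add, PowerSeries.coeff_mul, PowerSeries.coeff_mul,
    map_sum, ← Finset.sum_add_distrib]
  refine Finset.sum_congr rfl fun p _ => ?_
  rw [pderiv_mul, coeff_dl, coeff_dl]

theorem dl_pow {N : ℕ} (i : Fin N) (F : PowerSeries (MvPolynomial (Fin N) ℝ)) (k : ℕ) :
    dl i (F ^ (k + 1)) = ((k + 1 : ℕ) : PowerSeries (MvPolynomial (Fin N) ℝ)) * F ^ k * dl i F := by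
  induction k with
  | zero => simp
  | succ k ih =>
    rw [pow_succ, dl_mul, ih]
    push_cast
    ring

theorem pderiv_W_succ (N k m : ℕ) (i : Fin N) :
    pderiv i (W N (k + 1) m) = C ((k + 1 : ℕ) : ℝ) *
      ∑ p ∈ Finset.HasAntidiagonal.antidiagonal m, W N k p.1 * pderiv i (Uc N p.2) := by
  unfold W
  rw [← coeff_dl, dl_pow, mul_assoc]
  have h1 : ((k + 1 : ℕ) : PowerSeries (MvPolynomial (Fin N) ℝ)) =
      PowerSeries.C (C ((k + 1 : ℕ) : ℝ)) := by
    rw [map_natCast, map_natCast]
  rw [h1, PowerSeries.coeff_C_mul, PowerSeries.coeff_mul]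
  congr 1
  refine Finset.sum_congr rfl fun p _ => ?_
  rw [coeff_dl]
  unfold U
  rw [PowerSeries.coeff_mk]

theorem dl_U (N : ℕ) (i : Fin N) :
    dl i (U N) = PowerSeries.X * (1 + U N) + PowerSeries.C (X i) * (PowerSeries.X * dl i (U N)) := by
  ext1 m
  cases m with
  | zero =>
    rw [coeff_dl, map_add, PowerSeries.coeff_C_mul, PowerSeries.coeff_zero_X_mul,
      PowerSeries.coeff_zero_X_mul]
    unfold U
    rw [PowerSeries.coeff_mk]
    simp [Uc]
  | succ m =>
    rw [coeff_dl, map_add, PowerSeries.coeff_C_mul, PowerSeries.coeff_succ_X_mul,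
      PowerSeries.coeff_succ_X_mul, coeff_dl, map_add, PowerSeries.coeff_one]
    unfold U
    rw [PowerSeries.coeff_mk, PowerSeries.coeff_mk]
    have h := (seq_Sh N).step i m
    have h1 : Uc N (m + 1) = Sh N (m + 1) := by unfold Uc; rw [if_neg (by omega)]
    rw [h1, h, map_one, one_mul]
    by_cases hm : m = 0
    · subst hm
      have h0 : Sh N 0 = 1 := (seq_Sh N).zero
      rw [h0]
      simp [Uc]
    · have h2 : Uc N m = Sh N m := by unfold Uc; rw [if_neg hm]
      rw [h2, if_neg hm]
      ring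

theorem W_step (N k m : ℕ) (i : Fin N) :
    pderiv i (W N k (m + 1)) = C (k : ℝ) * (W N (k - 1) m + W N k m) +
      X i * pderiv i (W N k m) := by
  cases k with
  | zero =>
    rw [W_zero, W_zero, if_neg (by omega)]
    split_ifs <;> simp
  | succ k =>
    have h : dl i (U N ^ (k + 1)) = PowerSeries.C (C ((k + 1 : ℕ) : ℝ)) *
        (PowerSeries.X * (U N ^ k + U N ^ (k + 1))) +
        PowerSeries.C (X i) * (PowerSeries.X * dl i (U N ^ (k + 1))) := by
      have h1 : ((k + 1 : ℕ) : PowerSeries (MvPolynomial (Fin N) ℝ)) =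
          PowerSeries.C (C ((k + 1 : ℕ) : ℝ)) := by
        rw [map_natCast, map_natCast]
      rw [dl_pow, ← h1]
      conv_lhs => rw [dl_U]
      ring
    have h2 := congrArg (PowerSeries.coeff (m + 1)) h
    rw [map_add, PowerSeries.coeff_C_mul, PowerSeries.coeff_C_mul, PowerSeries.coeff_succ_X_mul,
      PowerSeries.coeff_succ_X_mul, coeff_dl, coeff_dl, map_add] at h2
    exact h2

/-- The binomial coefficient `α (α - 1) ⋯ (α - k + 1) / k!`. -/
noncomputable def cc (α : ℝ) (k : ℕ) : ℝ := (descPochhammer ℝ k).eval α / k.factorial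

theorem cc_succ (α : ℝ) (k : ℕ) : ((k + 1 : ℕ) : ℝ) * cc α (k + 1) = (α - k) * cc α k := by
  unfold cc
  rw [descPochhammer_succ_eval, Nat.factorial_succ]
  have h1 : (k.factorial : ℝ) ≠ 0 := by exact_mod_cast k.factorial_ne_zero
  have h2 : ((k + 1 : ℕ) : ℝ) ≠ 0 := by exact_mod_cast (Nat.succ_ne_zero k)
  push_cast at h2 ⊢
  field_simp

/-- The polynomials `h^(α)_m`, the coefficients of `(1 + U)^α`. -/
noncomputable def hA (N : ℕ) (α : ℝ) (m : ℕ) : MvPolynomial (Fin N) ℝ :=
  ∑ k ∈ Finset.range (m + 1), C (cc α k) * W N k m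

theorem W_homogeneous (N k : ℕ) : ∀ m, (W N k m).IsHomogeneous m := by
  induction k with
  | zero =>
    intro m
    rw [W_zero]
    split_ifs with h
    · rw [h]; exact isHomogeneous_one _ _
    · exact isHomogeneous_zero _ _ _
  | succ k ih =>
    intro m
    rw [W_succ]
    refine IsHomogeneous.sum _ _ _ fun p hp => ?_
    rw [Finset.HasAntidiagonal.mem_antidiagonal] at hp
    rw [← hp]
    refine (ih p.1).mul ?_
    unfold Uc
    split_ifs with h
    · exact isHomogeneous_zero _ _ _
    · exact G_homogeneous N _ _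

theorem seq_hA (N : ℕ) (α : ℝ) : Seq α (hA N α) where
  zero := by
    unfold hA
    rw [zero_add, Finset.sum_range_one, W_zero, if_pos rfl]
    simp [cc]
  hom := by
    intro m
    unfold hA
    refine IsHomogeneous.sum _ _ _ fun k _ => ?_
    have := (isHomogeneous_C (Fin N) (cc α k)).mul (W_homogeneous N k m)
    rwa [zero_add] at this
  step := by
    intro i m
    have h1 : hA N α m = ∑ k ∈ Finset.range (m + 2), C (cc α k) * W N k m := by
      rw [Finset.sum_range_succ, W_eq_zero N (m + 1) m (by omega), mul_zero, add_zero]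
      rfl
    have h2 : pderiv i (hA N α (m + 1)) - X i * pderiv i (hA N α m) =
        ∑ k ∈ Finset.range (m + 2), C (cc α k * k) * (W N (k - 1) m + W N k m) := by
      rw [h1]
      unfold hA
      rw [map_sum, map_sum, Finset.mul_sum, ← Finset.sum_sub_distrib]
      refine Finset.sum_congr rfl fun k _ => ?_
      rw [pderiv_C_mul, pderiv_C_mul, W_step, map_mul]
      ring
    have h3 : ∑ k ∈ Finset.range (m + 2), C (cc α k * k) * (W N (k - 1) m + W N k m) =
        C α * hA N α m := by
      have e1 : ∑ k ∈ Finset.range (m + 2), C (cc α k * k) * W N (k - 1) m =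
          ∑ k ∈ Finset.range (m + 1), C (cc α (k + 1) * ((k + 1 : ℕ) : ℝ)) * W N k m := by
        rw [Finset.sum_range_succ']
        simp
      have e2 : ∑ k ∈ Finset.range (m + 2), C (cc α k * k) * W N k m =
          ∑ k ∈ Finset.range (m + 1), C (cc α k * k) * W N k m := by
        rw [Finset.sum_range_succ, W_eq_zero N (m + 1) m (by omega), mul_zero, add_zero]
      have e3 : ∑ k ∈ Finset.range (m + 2), C (cc α k * k) * (W N (k - 1) m + W N k m) =
          ∑ k ∈ Finset.range (m + 2), C (cc α k * k) * W N (k - 1) m +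
          ∑ k ∈ Finset.range (m + 2), C (cc α k * k) * W N k m := by
        rw [← Finset.sum_add_distrib]
        exact Finset.sum_congr rfl fun k _ => by ring
      rw [e3, e1, e2, ← Finset.sum_add_distrib]
      unfold hA
      rw [Finset.mul_sum]
      refine Finset.sum_congr rfl fun k _ => ?_
      rw [← add_mul, ← map_add, ← mul_assoc, ← map_mul]
      congr 2
      have := cc_succ α k
      linarith
    rw [← h3, ← h2]
    ring

/-- The coefficient polynomials of the binomials in `V`. -/
noncomputable def Z (N r s k : ℕ) : MvPolynomial (Fin N) ℝ :=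
  ∑ p ∈ Finset.HasAntidiagonal.antidiagonal r, W N (k - 1) p.1 *
    (if p.2 = 0 then 0 else C ((p.2 + s : ℕ) : ℝ) * Hk N (p.2 + s) s)

theorem V_hA (N r s : ℕ) (α : ℝ) :
    V (hA N α) r s = ∑ k ∈ Finset.range (r + 1), C (cc α k * k) * Z N r s k := by
  have h1 : V (hA N α) r s = ∑ k ∈ Finset.range (r + 1), C (cc α k) *
      ∑ i, X i * pderiv i (W N k r) * ehat i s := by
    unfold V hA
    simp_rw [map_sum, pderiv_C_mul, Finset.mul_sum, Finset.sum_mul]
    rw [Finset.sum_comm]
    refine Finset.sum_congr rfl fun k _ => Finset.sum_congr rfl fun i _ => ?_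
    ring
  rw [h1]
  refine Finset.sum_congr rfl fun k _ => ?_
  rw [map_mul, mul_assoc]
  congr 1
  cases k with
  | zero =>
    rw [Nat.cast_zero, map_zero, zero_mul]
    refine Finset.sum_eq_zero fun i _ => ?_
    rw [W_zero]
    split_ifs <;> simp
  | succ k =>
    simp_rw [pderiv_W_succ, Finset.mul_sum, Finset.sum_mul]
    rw [Finset.sum_comm]
    unfold Z
    rw [Finset.mul_sum]
    refine Finset.sum_congr rfl fun p _ => ?_
    have h2 : (if p.2 = 0 then 0 else C ((p.2 + s : ℕ) : ℝ) * Hk N (p.2 + s) s :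
        MvPolynomial (Fin N) ℝ) = ∑ i, X i * pderiv i (Uc N p.2) * ehat i s := by
      unfold Uc
      split_ifs with h
      · simp
      · exact (V_Sh N s p.2 (by omega)).symm
    rw [h2, Nat.add_sub_cancel, Finset.mul_sum, Finset.mul_sum]
    refine Finset.sum_congr rfl fun i _ => ?_
    ring

end Pool.Agent.JH
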