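import Mathlib
import Pool.Agent.JH.Words3

/-!
# Coefficients of `V`
-/

set_option autoImplicit false

open MvPolynomial

namespace Pool.Agent.JH

/-- The indicator of a finite set of variables. -/
noncomputable def ind {N : ℕ} (A : Finset (Fin N)) : Fin N →₀ ℕ := ∑ j ∈ A, Finsupp.single j 1

theorem ind_apply {N : ℕ} (A : Finset (Fin N)) (i : Fin N) : ind A i = if i ∈ A then 1 else 0 := by
  classical
  unfold ind
  rw [Finsupp.finsetSum_apply]
  simp [Finsupp.single_apply]

theorem ind_degree {N : ℕ} (A : Finset (Fin N)) : (ind A).degree = A.card := by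
  unfold ind
  rw [map_sum]
  simp

theorem prod_X_ind {N : ℕ} (A : Finset (Fin N)) :
    (∏ j ∈ A, X j : MvPolynomial (Fin N) ℝ) = monomial (ind A) 1 := by
  unfold ind
  rw [monomial_sum_one]
  rfl

theorem coeff_V {N : ℕ} (f : ℕ → MvPolynomial (Fin N) ℝ) (r s : ℕ) (d : Fin N →₀ ℕ) :
    coeff d (V f r s) = ∑ i, ∑ A ∈ (Finset.univ.erase i).powersetCard s,
      if ind A ≤ d then (d i : ℝ) * coeff (d - ind A) (f r) else 0 := by
  classical
  unfold V ehat
  rw [coeff_sum]
  refine Finset.sum_congr rfl fun i _ => ?_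
  rw [Finset.mul_sum, coeff_sum]
  refine Finset.sum_congr rfl fun A hA => ?_
  rw [prod_X_ind, coeff_mul_monomial']
  have hi : i ∉ A := fun h => by
    have := (Finset.mem_powersetCard.mp hA).1 h
    simp at this
  split_ifs with h
  · rw [coeff_X_mul_pderiv, mul_one]
    congr 2
    rw [Finsupp.tsub_apply, ind_apply, if_neg hi, Nat.sub_zero]
  · rfl

section seq

variable {N : ℕ} {α : ℝ} {f : ℕ → MvPolynomial (Fin N) ℝ} (hf : Seq α f)

include hf

theorem coeff_sq (B : Finset (Fin N)) : coeff (ind B) (f B.card) = α ^ B.card := by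
  classical
  induction B using Finset.induction_on with
  | empty =>
    rw [Finset.card_empty, hf.zero]
    simp [ind]
  | insert a B ha ih =>
    rw [Finset.card_insert_of_notMem ha]
    have h := hf.coeff_step B.card a (ind B)
    have h1 : ind B + Finsupp.single a 1 = ind (insert a B) := by
      unfold ind
      rw [Finset.sum_insert ha, add_comm]
    rw [h1, ind_apply, if_neg ha, ih] at h
    rw [pow_succ]
    push_cast at h
    linarith

theorem coeff_single_pow (i : Fin N) (m : ℕ) :
    (m.factorial : ℝ) * coeff (Finsupp.single i m) (f m) = (ascPochhammer ℝ m).eval α := by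
  induction m with
  | zero => rw [hf.zero]; simp
  | succ m ih =>
    have h := hf.coeff_step m i (Finsupp.single i m)
    rw [← Finsupp.single_add, Finsupp.single_eq_same] at h
    rw [ascPochhammer_succ_eval, ← ih, Nat.factorial_succ]
    push_cast
    linear_combination (m.factorial : ℝ) * h

theorem coeff_single_pow_add (i j : Fin N) (hij : i ≠ j) (m : ℕ) :
    (m.factorial : ℝ) * coeff (Finsupp.single i m + Finsupp.single j 1) (f (m + 1)) =
      α * (ascPochhammer ℝ m).eval α := by
  have h := hf.coeff_step m j (Finsupp.single i m)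
  rw [Finsupp.single_eq_of_ne (Ne.symm hij)] at h
  rw [← coeff_single_pow hf i m]
  push_cast at h
  linear_combination (m.factorial : ℝ) * h

/-- The coefficient of the product of all the variables in `V`. -/
theorem coeff_V_sq (r s : ℕ) (hr : 1 ≤ r) (hN : N = r + s) :
    ((r - 1).factorial * s.factorial : ℝ) * coeff (ind (Finset.univ : Finset (Fin N))) (V f r s) =
      (N.factorial : ℝ) * α ^ r := by
  classical
  rw [coeff_V]
  have h1 : ∀ i : Fin N, ∀ A ∈ (Finset.univ.erase i).powersetCard s,
      (if ind A ≤ ind (Finset.univ : Finset (Fin N)) then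
        ((ind (Finset.univ : Finset (Fin N)) i : ℕ) : ℝ) *
        coeff (ind (Finset.univ : Finset (Fin N)) - ind A) (f r) else 0) = α ^ r := by
    intro i A hA
    have hle : ind A ≤ ind (Finset.univ : Finset (Fin N)) := by
      intro j
      rw [ind_apply, ind_apply]
      split_ifs with h1 h2 h2 <;> simp_all
    rw [if_pos hle, ind_apply, if_pos (Finset.mem_univ i), Nat.cast_one, one_mul]
    have h2 : ind (Finset.univ : Finset (Fin N)) - ind A = ind Aᶜ := by
      ext j
      rw [Finsupp.tsub_apply, ind_apply, ind_apply, ind_apply]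
      by_cases h : j ∈ A
      · simp [h]
      · simp [h]
    have h3 : Aᶜ.card = r := by
      rw [Finset.card_compl, Fintype.card_fin, (Finset.mem_powersetCard.mp hA).2]
      omega
    rw [h2]
    have := coeff_sq hf Aᶜ
    rwa [h3] at this
  rw [Finset.sum_congr rfl fun i _ => Finset.sum_congr rfl (h1 i)]
  simp only [Finset.sum_const, Finset.card_powersetCard, Finset.card_erase_of_mem (Finset.mem_univ _),
    Finset.card_univ, Fintype.card_fin, nsmul_eq_mul]
  have h4 := Nat.choose_mul_factorial_mul_factorial (n := N - 1) (k := s) (by omega)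
  have h5 : N - 1 - s = r - 1 := by omega
  rw [h5] at h4
  have h6 : N * (N - 1).factorial = N.factorial := Nat.mul_factorial_pred (by omega)
  rw [← h6, ← h4]
  push_cast
  ring

/-- The coefficient of `x^μ` in `V`, for the hook `μ`. -/
theorem coeff_V_lead (r s : ℕ) (hr : 1 ≤ r) (hN : s + 1 ≤ N) (d : Fin N →₀ ℕ)
    (hd : ∀ i : Fin N, d i = if i.1 = 0 then r else if i.1 ≤ s then 1 else 0) :
    ((r - 1).factorial : ℝ) * coeff d (V f r s) =
      (α + (r - 1) + s * α) * (ascPochhammer ℝ (r - 1)).eval α := by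
  classical
  rw [coeff_V]
  set z : Fin N := ⟨0, by omega⟩ with hz
  set B : Finset (Fin N) := Finset.univ.filter fun i => i.1 ≤ s with hB
  have hBc : B.card = s + 1 := by
    have : B = Finset.univ.map (Fin.castLEEmb hN) := by
      ext i
      rw [hB]
      simp only [Finset.mem_filter, Finset.mem_univ, true_and, Finset.mem_map]
      constructor
      · intro h
        exact ⟨⟨i.1, by omega⟩, Fin.ext rfl⟩
      · rintro ⟨j, rfl⟩
        have := j.2
        simp only [Fin.castLEEmb_apply, Fin.val_castLE]
        omega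
    rw [this, Finset.card_map, Finset.card_univ, Fintype.card_fin]
  have hmB : ∀ i : Fin N, i ∈ B ↔ i.1 ≤ s := by intro i; rw [hB]; simp
  have hzB : z ∈ B := by rw [hmB, hz]; simp
  -- the inner sum
  have key : ∀ i ∈ B, ∑ A ∈ (Finset.univ.erase i).powersetCard s,
      (if ind A ≤ d then (d i : ℝ) * coeff (d - ind A) (f r) else 0) =
      (d i : ℝ) * coeff (d - ind (B.erase i)) (f r) := by
    intro i hi
    have hmem : B.erase i ∈ (Finset.univ.erase i : Finset (Fin N)).powersetCard s := by
      rw [Finset.mem_powersetCard]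
      refine ⟨Finset.erase_subset_erase i (Finset.subset_univ _), ?_⟩
      rw [Finset.card_erase_of_mem hi, hBc]
      rfl
    rw [Finset.sum_eq_single_of_mem _ hmem]
    · rw [if_pos]
      intro j
      rw [ind_apply, hd]
      by_cases hj : j ∈ B.erase i
      · rw [if_pos hj]
        have := (hmB j).mp (Finset.mem_of_mem_erase hj)
        split_ifs <;> omega
      · rw [if_neg hj]; exact Nat.zero_le _
    · intro A hA hne
      rw [if_neg]
      intro hle
      apply hne
      have hsub : A ⊆ B.erase i := by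
        intro j hj
        rw [Finset.mem_erase]
        refine ⟨?_, ?_⟩
        · rintro rfl
          have := (Finset.mem_powersetCard.mp hA).1 hj
          simp at this
        · rw [hmB]
          have h1 := hle j
          rw [ind_apply, if_pos hj, hd] at h1
          by_contra h2
          rw [if_neg (by omega), if_neg h2] at h1
          omega
      refine Finset.eq_of_subset_of_card_le hsub ?_
      rw [(Finset.mem_powersetCard.mp hA).2, (Finset.mem_powersetCard.mp hmem).2]
  have hout : ∀ i ∉ B, ∑ A ∈ (Finset.univ.erase i).powersetCard s,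
      (if ind A ≤ d then (d i : ℝ) * coeff (d - ind A) (f r) else 0) = 0 := by
    intro i hi
    refine Finset.sum_eq_zero fun A _ => ?_
    rw [hmB] at hi
    have h0 : d i = 0 := by rw [hd i, if_neg (show ¬ i.1 = 0 by omega), if_neg hi]
    rw [h0]
    simp
  rw [← Finset.sum_subset (Finset.subset_univ B) (fun i _ hi => hout i hi), Finset.sum_congr rfl key,
    ← Finset.add_sum_erase B _ hzB]
  have hr' : ((r - 1 : ℕ) : ℝ) = (r : ℝ) - 1 := by push_cast [Nat.cast_sub hr]; ring
  have hz1 : coeff (d - ind (B.erase z)) (f r) = coeff (Finsupp.single z r) (f r) := by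
    congr 1
    ext j
    have hm : j ∈ B.erase z ↔ j ≠ z ∧ j.1 ≤ s := by rw [Finset.mem_erase, hmB]
    rw [Finsupp.tsub_apply, ind_apply, hd, Finsupp.single_apply]
    by_cases hj : j = z
    · subst hj; simp [hz]
    · have hj0 : j.1 ≠ 0 := fun h => hj (Fin.ext h)
      rw [if_neg hj0, if_neg (Ne.symm hj)]
      by_cases hs : j.1 ≤ s
      · simp [hs, hm.mpr ⟨hj, hs⟩]
      · simp [hs]
  have hfirst : ((r - 1).factorial : ℝ) * ((d z : ℝ) * coeff (d - ind (B.erase z)) (f r)) =
      (α + (r - 1)) * (ascPochhammer ℝ (r - 1)).eval α := by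
    rw [hz1, hd z]
    have h1 := coeff_single_pow hf z r
    obtain ⟨q, rfl⟩ : ∃ q, r = q + 1 := ⟨r - 1, by omega⟩
    rw [ascPochhammer_succ_eval, Nat.factorial_succ] at h1
    simp only [hz, if_true, Nat.add_sub_cancel]
    push_cast at h1 ⊢
    linear_combination h1
  have hothers : ∀ i ∈ B.erase z,
      ((r - 1).factorial : ℝ) * ((d i : ℝ) * coeff (d - ind (B.erase i)) (f r)) =
      α * (ascPochhammer ℝ (r - 1)).eval α := by
    intro i hi
    rw [Finset.mem_erase, hmB] at hi
    have hi0 : i.1 ≠ 0 := fun h => hi.1 (Fin.ext h)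
    have h2 : d - ind (B.erase i) = Finsupp.single z (r - 1) + Finsupp.single i 1 := by
      ext j
      have hm : j ∈ B.erase i ↔ j ≠ i ∧ j.1 ≤ s := by rw [Finset.mem_erase, hmB]
      rw [Finsupp.tsub_apply, ind_apply, hd, Finsupp.add_apply, Finsupp.single_apply,
        Finsupp.single_apply]
      by_cases hj : j = z
      · have hne : i ≠ z := hi.1
        have hj0 : j.1 = 0 := by rw [hj]
        have hij : i ≠ j := fun h => hne (h.trans hj)
        rw [if_pos (hm.mpr ⟨Ne.symm hij, by omega⟩), if_pos hj0, if_pos hj.symm, if_neg hij]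
        omega
      · have hj0 : j.1 ≠ 0 := fun h => hj (Fin.ext h)
        rw [if_neg hj0, if_neg (Ne.symm hj)]
        by_cases hji : j = i
        · subst hji
          rw [if_pos hi.2, if_neg (fun h => (hm.mp h).1 rfl), if_pos rfl]
        · rw [if_neg (Ne.symm hji)]
          by_cases hs : j.1 ≤ s
          · rw [if_pos hs, if_pos (hm.mpr ⟨hji, hs⟩)]; rfl
          · rw [if_neg hs, if_neg (fun h => hs (hm.mp h).2)]; rfl
    rw [h2, hd i, if_neg hi0, if_pos hi.2]
    have h3 := coeff_single_pow_add hf z i (Ne.symm hi.1) (r - 1)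
    have h4 : r - 1 + 1 = r := by omega
    rw [h4] at h3
    rw [Nat.cast_one, one_mul, h3]
  rw [mul_add, hfirst, Finset.mul_sum, Finset.sum_congr rfl hothers, Finset.sum_const,
    Finset.card_erase_of_mem hzB, hBc]
  simp only [Nat.add_sub_cancel, nsmul_eq_mul]
  ring

omit hf in
/-- Triangularity: the support of `V`. -/
theorem support_V (hh : ∀ m, (f m).IsHomogeneous m) (r s : ℕ) (d : Fin N →₀ ℕ)
    (hd : d ∈ (V f r s).support) :
    d.degree = r + s ∧ ∃ B : Finset (Fin N), B.card = s + 1 ∧ ∀ i ∈ B, 1 ≤ d i := by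
  classical
  rw [mem_support_iff, coeff_V] at hd
  obtain ⟨i, _, hi⟩ := Finset.exists_ne_zero_of_sum_ne_zero hd
  obtain ⟨A, hA, hA'⟩ := Finset.exists_ne_zero_of_sum_ne_zero hi
  have hle : ind A ≤ d := by
    by_contra h
    rw [if_neg h] at hA'
    exact hA' rfl
  rw [if_pos hle] at hA'
  have h1 : d i ≠ 0 := by
    intro h
    rw [h] at hA'
    simp at hA'
  have h2 : coeff (d - ind A) (f r) ≠ 0 := right_ne_zero_of_mul hA'
  have h3 := (hh r) h2
  rw [Finset.mem_powersetCard] at hA
  have hiA : i ∉ A := fun h => by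
    have := hA.1 h
    simp at this
  refine ⟨?_, insert i A, ?_, ?_⟩
  · have h4 : (d - ind A + ind A).degree = d.degree := by rw [tsub_add_cancel_of_le hle]
    rw [map_add, ind_degree, hA.2] at h4
    have h5 : (d - ind A).degree = r := by
      rw [← h3, Finsupp.degree_eq_weight_one]; rfl
    omega
  · rw [Finset.card_insert_of_notMem hiA, hA.2]
  · intro j hj
    rw [Finset.mem_insert] at hj
    rcases hj with rfl | hj
    · omega
    · have := hle j
      rwa [ind_apply, if_pos hj] at this

omit hf in
theorem support_V_sum (hh : ∀ m, (f m).IsHomogeneous m) (r s : ℕ) (d : Fin N →₀ ℕ)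
    (hd : d ∈ (V f r s).support) (T : Finset (Fin N)) (hT : T.Nonempty) :
    ∑ i ∈ T, d i ≤ r + min (T.card - 1) s := by
  classical
  obtain ⟨h1, B, hB, hB'⟩ := support_V hh r s d hd
  have h2 : d.degree = ∑ i ∈ T, d i + ∑ i ∈ Tᶜ, d i := by
    rw [Finsupp.degree_eq_sum, Finset.sum_add_sum_compl]
  have h3 : (B \ T).card ≤ ∑ i ∈ Tᶜ, d i := by
    calc (B \ T).card = ∑ i ∈ B \ T, 1 := by simp
      _ ≤ ∑ i ∈ B \ T, d i := Finset.sum_le_sum fun i hi => hB' i (Finset.mem_sdiff.mp hi).1
      _ ≤ ∑ i ∈ Tᶜ, d i := Finset.sum_le_sum_of_subset (by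
          intro i hi
          rw [Finset.mem_compl]
          exact (Finset.mem_sdiff.mp hi).2)
  have h4 : s + 1 ≤ (B \ T).card + T.card := by
    rw [← hB]
    have := Finset.le_card_sdiff T B
    omega
  have h5 : 1 ≤ T.card := Finset.card_pos.mpr hT
  omega

end seq

end Pool.Agent.JH
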