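import Mathlib
import Pool.Agent.JH.Alpha
import Pool.Agent.JH.Coef

/-!
# The cone of words and the falling factorial basis
-/

set_option autoImplicit false

open MvPolynomial

namespace Pool.Agent.JH

/-- A polynomial in `N` variables for every `N`. -/
abbrev Fam : Type := ∀ N : ℕ, MvPolynomial (Fin N) ℝ

/-- The cone of the generating functions of words of length `n`. -/
noncomputable def WP (n : ℕ) : AddSubmonoid Fam :=
  AddSubmonoid.closure {F | ∃ t : ℕ → ℕ, F = fun N => G N n t}

theorem G_mem_WP (n : ℕ) (t : ℕ → ℕ) : (fun N => G N n t : Fam) ∈ WP n :=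
  AddSubmonoid.subset_closure ⟨t, rfl⟩

theorem WP_mul {n m : ℕ} {F F' : Fam} (hF : F ∈ WP n) (hF' : F' ∈ WP m) : F * F' ∈ WP (n + m) := by
  unfold WP at hF
  induction hF using AddSubmonoid.closure_induction with
  | mem x hx =>
    obtain ⟨t, rfl⟩ := hx
    unfold WP at hF'
    induction hF' using AddSubmonoid.closure_induction with
    | mem y hy =>
      obtain ⟨t', rfl⟩ := hy
      have : ((fun N => G N n t : Fam) * fun N => G N m t') = fun N => G N (n + m) (cat n t t') := by
        funext N
        exact G_mul N n m t t'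
      rw [this]
      exact G_mem_WP _ _
    | zero => rw [mul_zero]; exact zero_mem _
    | add y z _ _ hy hz => rw [mul_add]; exact add_mem hy hz
  | zero => rw [zero_mul]; exact zero_mem _
  | add y z _ _ hy hz => rw [add_mul]; exact add_mem hy hz

theorem G_nil (N : ℕ) (t : ℕ → ℕ) : G N 0 t = 1 := by
  classical
  unfold G
  rw [Fintype.sum_unique, if_pos]
  · simp
  · intro j hj
    omega

theorem Uc_mem_WP (m : ℕ) : (fun N => Uc N m : Fam) ∈ WP m := by
  unfold Uc
  by_cases h : m = 0
  · simp only [h, if_true]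
    exact zero_mem _
  · simp only [h, if_false]
    exact G_mem_WP m _

theorem W_mem_WP (k : ℕ) : ∀ m, (fun N => W N k m : Fam) ∈ WP m := by
  induction k with
  | zero =>
    intro m
    by_cases h : m = 0
    · subst h
      have : (fun N => W N 0 0 : Fam) = fun N => G N 0 (fun _ => 0) := by
        funext N
        rw [W_zero, if_pos rfl, G_nil]
      rw [this]
      exact G_mem_WP 0 _
    · have : (fun N => W N 0 m : Fam) = 0 := by
        funext N
        rw [W_zero, if_neg h]
        rfl
      rw [this]
      exact zero_mem _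
  | succ k ih =>
    intro m
    have : (fun N => W N (k + 1) m : Fam) = ∑ p ∈ Finset.HasAntidiagonal.antidiagonal m,
        (fun N => W N k p.1 : Fam) * (fun N => Uc N p.2 : Fam) := by
      funext N
      rw [W_succ, Finset.sum_apply]
      rfl
    rw [this]
    refine sum_mem fun p hp => ?_
    rw [Finset.HasAntidiagonal.mem_antidiagonal] at hp
    rw [← hp]
    exact WP_mul (ih p.1) (Uc_mem_WP p.2)

theorem Z_mem_WP (r s k : ℕ) : (fun N => Z N r s k : Fam) ∈ WP (r + s) := by
  have : (fun N => Z N r s k : Fam) = ∑ p ∈ Finset.HasAntidiagonal.antidiagonal r,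
      (fun N => W N (k - 1) p.1 : Fam) *
        (if p.2 = 0 then 0 else (p.2 + s) • (fun N => Hk N (p.2 + s) s : Fam)) := by
    funext N
    unfold Z
    rw [Finset.sum_apply]
    refine Finset.sum_congr rfl fun p _ => ?_
    rw [Pi.mul_apply]
    congr 1
    split_ifs with h
    · rfl
    · rw [Pi.smul_apply, nsmul_eq_mul]
      congr 1
  rw [this]
  refine sum_mem fun p hp => ?_
  rw [Finset.HasAntidiagonal.mem_antidiagonal] at hp
  rw [← hp, add_assoc]
  refine WP_mul (W_mem_WP (k - 1) p.1) ?_
  split_ifs with h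
  · exact zero_mem _
  · exact AddSubmonoid.nsmul_mem _ (G_mem_WP _ _) _

/-- **Expansion in fundamental quasisymmetric polynomials.** -/
theorem WP_expand {n : ℕ} {F : Fam} (hF : F ∈ WP n) : ∃ c : Finset ℕ → ℕ, ∀ N,
    F N = ∑ S ∈ (Finset.Icc 1 (n - 1)).powerset, C (c S : ℝ) * fund N n S := by
  classical
  unfold WP at hF
  induction hF using AddSubmonoid.closure_induction with
  | mem x hx =>
    obtain ⟨t, rfl⟩ := hx
    refine ⟨fun S => ((Finset.univ : Finset (Equiv.Perm (Fin n))).filter
      fun σ => Cond n t σ.symm ∧ Des σ = S).card, fun N => ?_⟩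
    change G N n t = _
    rw [G_eq_sum_fund]
    have hmaps : ∀ σ ∈ (Finset.univ : Finset (Equiv.Perm (Fin n))),
        Des σ ∈ (Finset.Icc 1 (n - 1)).powerset := by
      intro σ _
      rw [Finset.mem_powerset]
      exact Finset.filter_subset _ _
    rw [← Finset.sum_fiberwise_of_maps_to hmaps]
    refine Finset.sum_congr rfl fun S _ => ?_
    have h1 : ∀ σ ∈ (Finset.univ : Finset (Equiv.Perm (Fin n))).filter (fun σ => Des σ = S),
        (if Cond n t σ.symm then fund N n (Des σ) else 0) =
        if Cond n t σ.symm then fund N n S else 0 := by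
      intro σ hσ
      rw [(Finset.mem_filter.mp hσ).2]
    rw [Finset.sum_congr rfl h1, ← Finset.sum_filter, Finset.sum_const, Finset.filter_filter,
      nsmul_eq_mul, map_natCast]
    congr 3
    ext σ
    simp only [Finset.mem_filter, Finset.mem_univ, true_and]
    exact and_comm
  | zero => exact ⟨fun _ => 0, fun N => by simp⟩
  | add y z _ _ hy hz =>
    obtain ⟨c, hc⟩ := hy
    obtain ⟨c', hc'⟩ := hz
    refine ⟨fun S => c S + c' S, fun N => ?_⟩
    rw [Pi.add_apply, hc, hc', ← Finset.sum_add_distrib]
    refine Finset.sum_congr rfl fun S _ => ?_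
    rw [Nat.cast_add, map_add, add_mul]

/-- Positivity in the falling factorial basis. -/
def FP (n K : ℕ) (Φ : ∀ N : ℕ, ℝ → MvPolynomial (Fin N) ℝ) : Prop :=
  ∃ T : ℕ → Fam, (∀ k, T k ∈ WP n) ∧ (∀ k, K < k → T k = 0) ∧
    ∀ N α, Φ N α = ∑ k ∈ Finset.range (K + 1), C ((descPochhammer ℝ k).eval α) * T k N

theorem FP.mul_alpha {n K : ℕ} {Φ : ∀ N : ℕ, ℝ → MvPolynomial (Fin N) ℝ} (h : FP n K Φ) :
    FP n (K + 1) (fun N α => C α * Φ N α) := by
  obtain ⟨T, h1, h2, h3⟩ := h
  refine ⟨fun k => (if k = 0 then 0 else T (k - 1)) + k • T k, fun k => ?_, fun k hk => ?_,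
    fun N α => ?_⟩
  · refine add_mem ?_ (AddSubmonoid.nsmul_mem _ (h1 k) _)
    split_ifs
    · exact zero_mem _
    · exact h1 _
  · simp only
    rw [if_neg (by omega), h2 (k - 1) (by omega), h2 k (by omega)]
    simp
  · simp only
    rw [h3, Finset.mul_sum]
    have e1 : ∀ k ∈ Finset.range (K + 1 + 1), C ((descPochhammer ℝ k).eval α) *
        (((if k = 0 then 0 else T (k - 1)) + k • T k : Fam) N) =
        C ((descPochhammer ℝ k).eval α) * ((if k = 0 then 0 else T (k - 1) : Fam) N) +
        C ((descPochhammer ℝ k).eval α * k) * T k N := by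
      intro k _
      rw [Pi.add_apply, Pi.smul_apply, mul_add, nsmul_eq_mul, map_mul, map_natCast]
      ring
    rw [Finset.sum_congr rfl e1, Finset.sum_add_distrib]
    have e2 : ∑ k ∈ Finset.range (K + 1 + 1), C ((descPochhammer ℝ k).eval α) *
        ((if k = 0 then 0 else T (k - 1) : Fam) N) =
        ∑ k ∈ Finset.range (K + 1), C ((descPochhammer ℝ (k + 1)).eval α) * T k N := by
      rw [Finset.sum_range_succ']
      simp
    have e3 : ∑ k ∈ Finset.range (K + 1 + 1), C ((descPochhammer ℝ k).eval α * k) * T k N =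
        ∑ k ∈ Finset.range (K + 1), C ((descPochhammer ℝ k).eval α * k) * T k N := by
      rw [Finset.sum_range_succ, h2 (K + 1) (by omega)]
      simp
    rw [e2, e3, ← Finset.sum_add_distrib]
    refine Finset.sum_congr rfl fun k _ => ?_
    rw [descPochhammer_succ_eval, ← mul_assoc, ← map_mul, ← add_mul, ← map_add]
    congr 2
    ring

theorem FP_V (r s : ℕ) (hr : 1 ≤ r) :
    FP (r + s) r (fun N α => C (((r - 1).factorial * s.factorial : ℕ) : ℝ) * V (hA N α) r s) := by
  refine ⟨fun k => if k = 0 ∨ r < k then 0 else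
    (s.factorial * ((r - 1).factorial / (k - 1).factorial)) • (fun N => Z N r s k : Fam),
    fun k => ?_, fun k hk => ?_, fun N α => ?_⟩
  · simp only
    split_ifs
    · exact zero_mem _
    · exact AddSubmonoid.nsmul_mem _ (Z_mem_WP r s k) _
  · simp only
    rw [if_pos (Or.inr hk)]
  · simp only
    rw [V_hA, Finset.mul_sum]
    refine Finset.sum_congr rfl fun k hk => ?_
    rw [Finset.mem_range] at hk
    by_cases h : k = 0
    · subst h
      simp
    · rw [if_neg (by omega), Pi.smul_apply, nsmul_eq_mul]
      have h1 : ((s.factorial * ((r - 1).factorial / (k - 1).factorial) : ℕ) :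
          MvPolynomial (Fin N) ℝ) =
          C (((s.factorial * ((r - 1).factorial / (k - 1).factorial) : ℕ) : ℝ)) :=
        (map_natCast (C : ℝ →+* MvPolynomial (Fin N) ℝ) _).symm
      rw [h1, ← mul_assoc, ← mul_assoc, ← map_mul, ← map_mul]
      congr 2
      have h2 : ((k - 1).factorial : ℝ) ≠ 0 := by exact_mod_cast (k - 1).factorial_ne_zero
      have h3 : (k : ℝ) ≠ 0 := by exact_mod_cast h
      have h4 : (k.factorial : ℝ) = k * (k - 1).factorial := by
        exact_mod_cast (Nat.mul_factorial_pred h).symm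
      unfold cc
      rw [h4]
      push_cast [Nat.cast_div (Nat.factorial_dvd_factorial (show k - 1 ≤ r - 1 by omega)) h2]
      field_simp

theorem FP_Jack (r s : ℕ) (hr : 1 ≤ r) : FP (r + s) (r + s) (fun N α =>
    C (α ^ s) * (C (((r - 1).factorial * s.factorial : ℕ) : ℝ) * V (hA N α) r s)) := by
  have key : ∀ j : ℕ, FP (r + s) (r + j) (fun N α =>
      C (α ^ j) * (C (((r - 1).factorial * s.factorial : ℕ) : ℝ) * V (hA N α) r s)) := by
    intro j
    induction j with
    | zero =>
      have := FP_V r s hr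
      simpa using this
    | succ j ih =>
      have := ih.mul_alpha
      have h2 : (fun N α => C α * (C (α ^ j) *
          (C (((r - 1).factorial * s.factorial : ℕ) : ℝ) * V (hA N α) r s))) =
          (fun (N : ℕ) (α : ℝ) => C (α ^ (j + 1)) *
          (C (((r - 1).factorial * s.factorial : ℕ) : ℝ) * V (hA N α) r s)) := by
        funext N α
        rw [pow_succ, map_mul]
        ring
      rw [h2] at this
      exact this
  exact key s

/-! ### The sum rule -/

theorem pow_eq_sum_stirling (α : ℝ) (n : ℕ) : α ^ n = ∑ k ∈ Finset.range (n + 1),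
    (Nat.stirlingSecond n k : ℝ) * (descPochhammer ℝ k).eval α := by
  induction n with
  | zero => simp
  | succ n ih =>
    rw [Finset.sum_range_succ']
    have e0 : (Nat.stirlingSecond (n + 1) 0 : ℝ) = 0 := by simp
    rw [e0, zero_mul, add_zero]
    have e1 : ∀ k ∈ Finset.range (n + 1), (Nat.stirlingSecond (n + 1) (k + 1) : ℝ) *
        (descPochhammer ℝ (k + 1)).eval α =
        ((k + 1 : ℕ) : ℝ) * (Nat.stirlingSecond n (k + 1) : ℝ) * (descPochhammer ℝ (k + 1)).eval α +
        (Nat.stirlingSecond n k : ℝ) * (descPochhammer ℝ (k + 1)).eval α := by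
      intro k _
      rw [Nat.stirlingSecond_succ_succ]
      push_cast
      ring
    rw [Finset.sum_congr rfl e1, Finset.sum_add_distrib]
    have e2 : ∑ k ∈ Finset.range (n + 1), ((k + 1 : ℕ) : ℝ) * (Nat.stirlingSecond n (k + 1) : ℝ) *
        (descPochhammer ℝ (k + 1)).eval α =
        ∑ k ∈ Finset.range (n + 1), (k : ℝ) * (Nat.stirlingSecond n k : ℝ) *
        (descPochhammer ℝ k).eval α := by
      have h1 := Finset.sum_range_succ' (fun k : ℕ => (k : ℝ) * (Nat.stirlingSecond n k : ℝ) *
        (descPochhammer ℝ k).eval α) (n + 1)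
      rw [Finset.sum_range_succ, Nat.stirlingSecond_eq_zero_of_lt (Nat.lt_succ_self n)] at h1
      simp only [Nat.cast_zero, mul_zero, zero_mul, add_zero] at h1
      exact h1.symm
    rw [e2, ← Finset.sum_add_distrib, pow_succ, ih, Finset.sum_mul]
    refine Finset.sum_congr rfl fun k _ => ?_
    rw [descPochhammer_succ_eval]
    ring

theorem descPochhammer_unique (n : ℕ) (d : ℕ → ℝ)
    (h : ∀ m : ℕ, ∑ k ∈ Finset.range (n + 1), d k * (descPochhammer ℝ k).eval (m : ℝ) = 0) :
    ∀ k, k ≤ n → d k = 0 := by
  intro k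
  induction k using Nat.strong_induction_on with
  | _ k ih =>
    intro hk
    have h1 := h k
    rw [Finset.sum_eq_single k] at h1
    · rw [descPochhammer_eval_eq_descFactorial, Nat.descFactorial_self] at h1
      have : ((k.factorial : ℕ) : ℝ) ≠ 0 := by exact_mod_cast k.factorial_ne_zero
      exact (mul_eq_zero.mp h1).resolve_right this
    · intro j _ hj
      rcases lt_or_gt_of_ne hj with h2 | h2
      · rw [ih j h2 (by omega), zero_mul]
      · rw [descPochhammer_eval_eq_descFactorial, Nat.descFactorial_of_lt h2, Nat.cast_zero,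
          mul_zero]
    · intro h2
      exact absurd (Finset.mem_range.mpr (by omega)) h2

theorem coeff_fund_sq (n : ℕ) (S : Finset ℕ) :
    coeff (ind (Finset.univ : Finset (Fin n))) (fund n n S) = 1 := by
  classical
  unfold fund
  rw [coeff_sum, Finset.sum_eq_single (id : Fin n → Fin n)]
  · rw [if_pos]
    · rw [prod_X_eq, coeff_monomial, if_pos]
      unfold ind
      simp
    · refine ⟨monotone_id, fun j h _ => ?_⟩
      simp [Fin.lt_def]
  · intro i _ hi
    split_ifs with hc
    · rw [prod_X_eq, coeff_monomial, if_neg]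
      intro h
      apply hi
      refine word_unique i id hc.1 monotone_id ?_
      rw [h]
      unfold ind
      simp
    · simp
  · intro h
    exact absurd (Finset.mem_univ _) h

end Pool.Agent.JH
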