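import Mathlib
import Pool.Agent.JH.Cone

/-!
# The Jack polynomials: definition, hook shapes
-/

set_option autoImplicit false

open MvPolynomial

namespace Pool.Agent.JH

/-- `J` is the Jack polynomial `J_μ^(a)(x_0, …, x_(N-1))` (integral form, parameter `a`): symmetric,
homogeneous of degree `|μ|` with all exponents dominated by `μ`, with coefficient
`∏ (a · arm + leg + 1)` at `x^μ`, and an eigenvector of the Laplace-Beltrami operator
`(a/2) ∑ x_i² ∂_i² + ∑_{i ≠ j} x_i²/(x_i - x_j) ∂_i`. -/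
structure IsJack (a : ℝ) (μ : YoungDiagram) (N : ℕ) (J : MvPolynomial (Fin N) ℝ) : Prop where
  symm : J.IsSymmetric
  dominated : ∀ m ∈ J.support, ∑ i, m i = μ.card ∧
    ∀ T : Finset (Fin N), ∑ i ∈ T, m i ≤ ∑ i ∈ Finset.range T.card, μ.rowLen i
  leading : ∀ m : Fin N →₀ ℕ, μ.colLen 0 ≤ N → (∀ i : Fin N, m i = μ.rowLen i) →
    coeff m J = ∏ c ∈ μ.cells,
      (a * ((μ.rowLen c.1 : ℝ) - c.2 - 1) + ((μ.colLen c.2 : ℝ) - c.1 - 1) + 1)
  eigen : ∀ x : Fin N → ℝ, Function.Injective x →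
    a / 2 * ∑ i, x i ^ 2 * eval x (pderiv i (pderiv i J)) +
      ∑ i, ∑ j ∈ Finset.univ.erase i, x i ^ 2 / (x i - x j) * eval x (pderiv i J) =
    (∑ c ∈ μ.cells, (a * c.2 - c.1 + (N - 1))) * eval x J

/-! ### Symmetry -/

theorem Sh_symm (N n : ℕ) : (Sh N n).IsSymmetric := by
  intro e
  ext d
  have h1 : d = (d.mapDomain e.symm).mapDomain e := by
    rw [← Finsupp.mapDomain_comp]
    simp
  rw [h1, coeff_rename_mapDomain _ e.injective, coeff_Sh, coeff_Sh]
  have h2 : ((d.mapDomain e.symm).mapDomain e).degree = (d.mapDomain e.symm).degree := by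
    rw [Finsupp.degree_eq_sum, Finsupp.degree_eq_sum, ← Equiv.sum_comp e]
    refine Finset.sum_congr rfl fun i _ => ?_
    exact Finsupp.mapDomain_apply e.injective _ i
  rw [h2]

theorem Uc_symm (N m : ℕ) : (Uc N m).IsSymmetric := by
  unfold Uc
  split_ifs
  · exact (symmetricSubalgebra (Fin N) ℝ).zero_mem
  · exact Sh_symm N m

theorem W_symm (N k : ℕ) : ∀ m, (W N k m).IsSymmetric := by
  induction k with
  | zero =>
    intro m
    rw [W_zero]
    split_ifs
    · exact (symmetricSubalgebra (Fin N) ℝ).one_mem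
    · exact (symmetricSubalgebra (Fin N) ℝ).zero_mem
  | succ k ih =>
    intro m
    rw [W_succ]
    exact (symmetricSubalgebra (Fin N) ℝ).sum_mem fun p _ => (ih p.1).mul (Uc_symm N p.2)

theorem C_mul_symm {N : ℕ} (c : ℝ) {p : MvPolynomial (Fin N) ℝ} (hp : p.IsSymmetric) :
    (C c * p).IsSymmetric := (IsSymmetric.C c).mul hp

theorem hA_symm (N : ℕ) (α : ℝ) (m : ℕ) : (hA N α m).IsSymmetric := by
  unfold hA
  exact (symmetricSubalgebra (Fin N) ℝ).sum_mem fun k _ => C_mul_symm _ (W_symm N k m)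

theorem V_symm (N : ℕ) (α : ℝ) (s : ℕ) : ∀ r, (V (hA N α) r s).IsSymmetric := by
  induction s with
  | zero =>
    intro r
    rw [V_zero_right α _ (seq_hA N α)]
    exact C_mul_symm _ (hA_symm N α r)
  | succ s ih =>
    intro r
    have h := pieri α _ (seq_hA N α) r s
    have h1 : V (hA N α) r (s + 1) = C ((r : ℝ) + (s + 1) * α) *
        (hA N α r * esymm (Fin N) ℝ (s + 1)) - V (hA N α) (r + 1) s := by
      rw [h]; ring
    rw [h1]
    exact (symmetricSubalgebra (Fin N) ℝ).sub_mem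
      (C_mul_symm _ ((hA_symm N α r).mul (esymm_isSymmetric (Fin N) ℝ (s + 1)))) (ih (r + 1))

/-! ### The cells of a hook -/

section hook

variable {μ : YoungDiagram} (h0 : (0, 0) ∈ μ) (h1 : (1, 1) ∉ μ)

include h0 h1

theorem hook_rowLen (i : ℕ) : μ.rowLen i = if i = 0 then μ.rowLen 0 else
    if i ≤ μ.colLen 0 - 1 then 1 else 0 := by
  have hc : 0 < μ.colLen 0 := YoungDiagram.mem_iff_lt_colLen.mp h0
  by_cases hi : i = 0
  · rw [hi, if_pos rfl]
  · rw [if_neg hi]
    have hle : μ.rowLen i ≤ 1 := by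
      by_contra hcon
      push Not at hcon
      exact h1 (μ.up_left_mem (show 1 ≤ i by omega) le_rfl (YoungDiagram.mem_iff_lt_rowLen.mpr hcon))
    by_cases hi2 : i ≤ μ.colLen 0 - 1
    · rw [if_pos hi2]
      have : (i, 0) ∈ μ := YoungDiagram.mem_iff_lt_colLen.mpr (by omega)
      have := YoungDiagram.mem_iff_lt_rowLen.mp this
      omega
    · rw [if_neg hi2]
      by_contra hcon
      have : (i, 0) ∈ μ := YoungDiagram.mem_iff_lt_rowLen.mpr (by omega)
      have := YoungDiagram.mem_iff_lt_colLen.mp this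
      omega

theorem hook_colLen (j : ℕ) : μ.colLen j = if j = 0 then μ.colLen 0 else
    if j ≤ μ.rowLen 0 - 1 then 1 else 0 := by
  have hr : 0 < μ.rowLen 0 := YoungDiagram.mem_iff_lt_rowLen.mp h0
  by_cases hj : j = 0
  · rw [hj, if_pos rfl]
  · rw [if_neg hj]
    have hle : μ.colLen j ≤ 1 := by
      by_contra hcon
      push Not at hcon
      exact h1 (μ.up_left_mem le_rfl (show 1 ≤ j by omega) (YoungDiagram.mem_iff_lt_colLen.mpr hcon))
    by_cases hj2 : j ≤ μ.rowLen 0 - 1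
    · rw [if_pos hj2]
      have : (0, j) ∈ μ := YoungDiagram.mem_iff_lt_rowLen.mpr (by omega)
      have := YoungDiagram.mem_iff_lt_colLen.mp this
      omega
    · rw [if_neg hj2]
      by_contra hcon
      have : (0, j) ∈ μ := YoungDiagram.mem_iff_lt_colLen.mpr (by omega)
      have := YoungDiagram.mem_iff_lt_rowLen.mp this
      omega

theorem hook_prod {M : Type*} [CommMonoid M] (F : ℕ × ℕ → M) : ∏ c ∈ μ.cells, F c =
    (F (0, 0) * ∏ j ∈ Finset.range (μ.rowLen 0 - 1), F (0, j + 1)) *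
      ∏ i ∈ Finset.range (μ.colLen 0 - 1), F (i + 1, 0) := by
  classical
  have hr : 0 < μ.rowLen 0 := YoungDiagram.mem_iff_lt_rowLen.mp h0
  have hc : 0 < μ.colLen 0 := YoungDiagram.mem_iff_lt_colLen.mp h0
  have e : μ.cells = (Finset.range (μ.rowLen 0 - 1 + 1)).image (fun j => ((0, j) : ℕ × ℕ)) ∪
      (Finset.range (μ.colLen 0 - 1)).image (fun i => ((i + 1, 0) : ℕ × ℕ)) := by
    ext ⟨i, j⟩
    rw [YoungDiagram.mem_cells, YoungDiagram.mem_iff_lt_rowLen, hook_rowLen h0 h1]
    simp only [Finset.mem_union, Finset.mem_image, Finset.mem_range, Prod.mk.injEq]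
    constructor
    · intro h
      by_cases hi : i = 0
      · left
        rw [if_pos hi] at h
        exact ⟨j, by omega, hi.symm, rfl⟩
      · right
        rw [if_neg hi] at h
        split_ifs at h with h2
        · exact ⟨i - 1, by omega, by omega, by omega⟩
        · omega
    · rintro (⟨k, hk, hk1, hk2⟩ | ⟨k, hk, hk1, hk2⟩)
      · rw [if_pos hk1.symm]; omega
      · rw [if_neg (by omega), if_pos (by omega)]; omega
  rw [e, Finset.prod_union, Finset.prod_image, Finset.prod_image, Finset.prod_range_succ', mul_comm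
    (∏ k ∈ Finset.range (μ.rowLen 0 - 1), F (0, k + 1))]
  · intro a _ b _ hab
    simpa using hab
  · intro a _ b _ hab
    simpa using hab
  · rw [Finset.disjoint_left]
    intro c hc hc'
    obtain ⟨j, _, rfl⟩ := Finset.mem_image.mp hc
    obtain ⟨i, _, hi⟩ := Finset.mem_image.mp hc'
    simp at hi

theorem hook_card : μ.card = μ.rowLen 0 + (μ.colLen 0 - 1) := by
  have hr : 0 < μ.rowLen 0 := YoungDiagram.mem_iff_lt_rowLen.mp h0
  have h := hook_prod h0 h1 (fun _ => Multiplicative.ofAdd 1)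
  simp only [Finset.prod_const, Finset.card_range, ← ofAdd_nsmul, ← ofAdd_add, smul_eq_mul,
    mul_one] at h
  have h2 := Multiplicative.ofAdd.injective h
  have h3 : μ.card = μ.cells.card := rfl
  omega

theorem hook_sum_rowLen (t : ℕ) (ht : 1 ≤ t) : ∑ i ∈ Finset.range t, μ.rowLen i =
    μ.rowLen 0 + min (t - 1) (μ.colLen 0 - 1) := by
  induction t, ht using Nat.le_induction with
  | base => simp
  | succ t ht ih =>
    rw [Finset.sum_range_succ, ih, hook_rowLen h0 h1 t, if_neg (by omega)]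
    split_ifs <;> omega

end hook

theorem asc_eq_prod (α : ℝ) (hα : α ≠ 0) (q : ℕ) :
    α ^ q * ∏ t ∈ Finset.range q, (α⁻¹ * t + 1) = (ascPochhammer ℝ q).eval α := by
  induction q with
  | zero => simp
  | succ q ih =>
    rw [Finset.prod_range_succ, ascPochhammer_succ_eval, ← ih, pow_succ]
    field_simp
    ring

theorem fact_eq_prod (s : ℕ) : ∏ i ∈ Finset.range s, ((s : ℝ) - i) = s.factorial := by
  rw [← Finset.prod_range_reflect, ← Finset.prod_range_add_one_eq_factorial, Nat.cast_prod]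
  refine Finset.prod_congr rfl fun i hi => ?_
  rw [Finset.mem_range] at hi
  rw [Nat.cast_sub (by omega), Nat.cast_sub (by omega)]
  push_cast
  ring

theorem gauss1 (q : ℕ) : ∑ j ∈ Finset.range q, ((j : ℝ) + 1) = q * (q + 1) / 2 := by
  induction q with
  | zero => simp
  | succ q ih => rw [Finset.sum_range_succ, ih]; push_cast; ring

/-- **The Jack polynomial of hook shape.** -/
theorem isJack_hook {μ : YoungDiagram} (h0 : (0, 0) ∈ μ) (h1 : (1, 1) ∉ μ) (N : ℕ) (α : ℝ)
    (hα : α ≠ 0) : IsJack α⁻¹ μ N (C (((α ^ μ.card)⁻¹) * (α ^ (μ.colLen 0 - 1) *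
      (((μ.rowLen 0 - 1).factorial * (μ.colLen 0 - 1).factorial : ℕ) : ℝ))) *
        V (hA N α) (μ.rowLen 0) (μ.colLen 0 - 1)) := by
  have hr : 0 < μ.rowLen 0 := YoungDiagram.mem_iff_lt_rowLen.mp h0
  have hc : 0 < μ.colLen 0 := YoungDiagram.mem_iff_lt_colLen.mp h0
  set r := μ.rowLen 0 with hrdef
  set s := μ.colLen 0 - 1 with hsdef
  have hcard : μ.card = r + s := hook_card h0 h1
  refine ⟨C_mul_symm _ (V_symm N α s r), fun m hm => ?_, fun m hN hm => ?_, fun x hx => ?_⟩
  · have hm' : m ∈ (V (hA N α) r s).support := by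
      rw [mem_support_iff] at hm ⊢
      intro h
      rw [coeff_C_mul, h, mul_zero] at hm
      exact hm rfl
    obtain ⟨h2, _⟩ := support_V (seq_hA N α).hom r s m hm'
    refine ⟨?_, fun T => ?_⟩
    · rw [hcard, ← h2, Finsupp.degree_eq_sum]
    · by_cases hT : T.Nonempty
      · rw [hook_sum_rowLen h0 h1 _ (Finset.card_pos.mpr hT)]
        exact support_V_sum (seq_hA N α).hom r s m hm' T hT
      · rw [Finset.not_nonempty_iff_eq_empty] at hT
        subst hT
        simp
  · rw [coeff_C_mul]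
    have h3 := coeff_V_lead (seq_hA N α) r s hr (by omega) m (by
      intro i
      rw [hm i, hook_rowLen h0 h1 i.1])
    have h4 := hook_prod h0 h1 (fun c : ℕ × ℕ =>
      (α⁻¹ * ((μ.rowLen c.1 : ℝ) - c.2 - 1) + ((μ.colLen c.2 : ℝ) - c.1 - 1) + 1))
    rw [h4]
    simp only
    have hsc : (μ.colLen 0 : ℝ) = s + 1 := by
      rw [hsdef, Nat.cast_sub (by omega)]; push_cast; ring
    have e1 : ∏ j ∈ Finset.range (r - 1), (α⁻¹ * ((μ.rowLen 0 : ℝ) - ((j + 1 : ℕ) : ℝ) - 1) +
        ((μ.colLen (j + 1) : ℝ) - ((0 : ℕ) : ℝ) - 1) + 1) =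
        ∏ t ∈ Finset.range (r - 1), (α⁻¹ * t + 1) := by
      rw [← Finset.prod_range_reflect]
      refine Finset.prod_congr rfl fun j hj => ?_
      rw [Finset.mem_range] at hj
      rw [hook_colLen h0 h1, if_neg (by omega), if_pos (by omega), ← hrdef]
      have : ((r - 1 - 1 - j : ℕ) : ℝ) = (r : ℝ) - 1 - 1 - j := by
        rw [Nat.cast_sub (by omega), Nat.cast_sub (by omega), Nat.cast_sub (by omega)]
        push_cast; ring
      have h5 : (((r - 1 - 1 - j + 1 : ℕ)) : ℝ) = (r : ℝ) - 1 - j := by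
        push_cast [this]; ring
      rw [h5]
      push_cast
      ring
    have e2 : ∏ i ∈ Finset.range s, (α⁻¹ * ((μ.rowLen (i + 1) : ℝ) - ((0 : ℕ) : ℝ) - 1) +
        ((μ.colLen 0 : ℝ) - ((i + 1 : ℕ) : ℝ) - 1) + 1) = s.factorial := by
      rw [← fact_eq_prod]
      refine Finset.prod_congr rfl fun i hi => ?_
      rw [Finset.mem_range] at hi
      rw [hook_rowLen h0 h1, if_neg (by omega), if_pos (by omega), hsc]
      push_cast
      ring
    rw [e1, e2, hsc, ← hrdef]
    have h6 := asc_eq_prod α hα (r - 1)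
    rw [← h6] at h3
    rw [hcard]
    push_cast
    have h7 : α ^ (r + s) = α ^ (r - 1) * α * α ^ s := by
      rw [← pow_succ, ← pow_add]; congr 1; omega
    rw [h7]
    have hp1 : α ^ (r - 1) ≠ 0 := pow_ne_zero _ hα
    have hp2 : α ^ s ≠ 0 := pow_ne_zero _ hα
    have h8 : (α ^ (r - 1) * α * α ^ s)⁻¹ * (α ^ s * (((r - 1).factorial : ℝ) * s.factorial)) *
        coeff m (V (hA N α) r s) = (α ^ (r - 1) * α)⁻¹ * s.factorial *
        (((r - 1).factorial : ℝ) * coeff m (V (hA N α) r s)) := by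
      field_simp
    rw [h8, h3]
    field_simp
    ring
  · have h5 := Dop_V hα (seq_hA N α) x hx s r
    set κ : ℝ := (α ^ μ.card)⁻¹ * (α ^ s * (((r - 1).factorial * s.factorial : ℕ) : ℝ)) with hκ
    have h6 := Dop_C_mul α x κ (V (hA N α) r s)
    rw [h5] at h6
    unfold Dop at h6
    have h7 := hook_prod (M := Multiplicative ℝ) h0 h1 (fun c : ℕ × ℕ =>
      Multiplicative.ofAdd ((α⁻¹ * c.2 - c.1 + (N - 1) : ℝ)))
    have h8 : ∑ c ∈ μ.cells, (α⁻¹ * (c.2 : ℝ) - c.1 + (N - 1)) =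
        (N - 1 + ∑ j ∈ Finset.range (r - 1), (α⁻¹ * ((j : ℝ) + 1) + (N - 1))) +
        ∑ i ∈ Finset.range s, (-((i : ℝ) + 1) + (N - 1)) := by
      have := congrArg Multiplicative.toAdd h7
      simp only [toAdd_prod, toAdd_mul, toAdd_ofAdd] at this
      rw [this]
      push_cast
      simp only [mul_zero, sub_zero, zero_add, zero_sub]
      rfl
    have h9 : ∑ c ∈ μ.cells, (α⁻¹ * (c.2 : ℝ) - c.1 + (N - 1)) =
        α⁻¹ / 2 * ((r : ℝ) * (r - 1) - α * (s * (s + 1)) + 2 * α * (N - 1) * (r + s)) := by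
      rw [h8, Finset.sum_add_distrib, Finset.sum_add_distrib, ← Finset.mul_sum, gauss1,
        Finset.sum_neg_distrib, gauss1]
      simp only [Finset.sum_const, Finset.card_range, nsmul_eq_mul]
      rw [Nat.cast_sub (show 1 ≤ r by omega)]
      push_cast
      field_simp
      ring
    rw [h9]
    have h10 : α⁻¹ / 2 * ((∑ i, x i ^ 2 * eval x (pderiv i (pderiv i (C κ * V (hA N α) r s)))) +
        2 * α * ∑ i, ∑ j ∈ Finset.univ.erase i, x i ^ 2 / (x i - x j) *
          eval x (pderiv i (C κ * V (hA N α) r s))) =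
        α⁻¹ / 2 * ∑ i, x i ^ 2 * eval x (pderiv i (pderiv i (C κ * V (hA N α) r s))) +
        ∑ i, ∑ j ∈ Finset.univ.erase i, x i ^ 2 / (x i - x j) *
          eval x (pderiv i (C κ * V (hA N α) r s)) := by
      field_simp
    rw [← h10, h6, map_mul, eval_C]
    ring

end Pool.Agent.JH
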