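import Mathlib
import Pool.Agent.JH.Jack

/-!
# The expansion of the hook Jack polynomials
-/

set_option autoImplicit false

open MvPolynomial

namespace Pool.Agent.JH

theorem hook_expand {μ : YoungDiagram} (h0 : (0, 0) ∈ μ) (h1 : (1, 1) ∉ μ) :
    ∃ c : ℕ → Finset ℕ → ℕ,
      (∀ k, ∑ S ∈ (Finset.Icc 1 (μ.card - 1)).powerset, c k S =
        μ.card.factorial * Nat.stirlingSecond μ.card k) ∧
      ∀ (N : ℕ) (α : ℝ), α ≠ 0 →
        C (α ^ μ.card) * (C (((α ^ μ.card)⁻¹) * (α ^ (μ.colLen 0 - 1) *
          (((μ.rowLen 0 - 1).factorial * (μ.colLen 0 - 1).factorial : ℕ) : ℝ))) *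
          V (hA N α) (μ.rowLen 0) (μ.colLen 0 - 1)) =
        ∑ k ∈ Finset.range (μ.card + 1), ∑ S ∈ (Finset.Icc 1 (μ.card - 1)).powerset,
          C ((c k S : ℝ) * (descPochhammer ℝ k).eval α) * fund N μ.card S := by
  classical
  have hr : 0 < μ.rowLen 0 := YoungDiagram.mem_iff_lt_rowLen.mp h0
  have hcard : μ.card = μ.rowLen 0 + (μ.colLen 0 - 1) := hook_card h0 h1
  set r := μ.rowLen 0 with hrdef
  set s := μ.colLen 0 - 1 with hsdef
  rw [hcard]
  obtain ⟨T, hT1, _, hT3⟩ := FP_Jack r s hr
  choose c' hc' using fun k => WP_expand (hT1 k)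
  -- the expansion with the coefficients `c'`
  have hexp : ∀ (N : ℕ) (α : ℝ),
      C (α ^ s) * (C (((r - 1).factorial * s.factorial : ℕ) : ℝ) * V (hA N α) r s) =
      ∑ k ∈ Finset.range (r + s + 1), ∑ S ∈ (Finset.Icc 1 (r + s - 1)).powerset,
        C ((c' k S : ℝ) * (descPochhammer ℝ k).eval α) * fund N (r + s) S := by
    intro N α
    refine (hT3 N α).trans ?_
    refine Finset.sum_congr rfl fun k _ => ?_
    rw [hc' k N, Finset.mul_sum]
    refine Finset.sum_congr rfl fun S _ => ?_
    rw [map_mul]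
    ring
  -- the sum rule
  have hsum : ∀ k, k ≤ r + s → ∑ S ∈ (Finset.Icc 1 (r + s - 1)).powerset, c' k S =
      (r + s).factorial * Nat.stirlingSecond (r + s) k := by
    have h2 : ∀ m : ℕ, ∑ k ∈ Finset.range (r + s + 1),
        ((∑ S ∈ (Finset.Icc 1 (r + s - 1)).powerset, (c' k S : ℝ)) -
          (r + s).factorial * Nat.stirlingSecond (r + s) k) *
          (descPochhammer ℝ k).eval (m : ℝ) = 0 := by
      intro m
      have h3 := congrArg (coeff (ind (Finset.univ : Finset (Fin (r + s))))) (hexp (r + s) m)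
      rw [coeff_C_mul, coeff_C_mul] at h3
      have h4 := coeff_V_sq (seq_hA (r + s) (m : ℝ)) r s hr rfl
      push_cast at h3
      rw [h4, coeff_sum] at h3
      have h5 : ∀ k ∈ Finset.range (r + s + 1),
          coeff (ind (Finset.univ : Finset (Fin (r + s))))
          (∑ S ∈ (Finset.Icc 1 (r + s - 1)).powerset,
            C ((c' k S : ℝ) * (descPochhammer ℝ k).eval (m : ℝ)) * fund (r + s) (r + s) S) =
          (∑ S ∈ (Finset.Icc 1 (r + s - 1)).powerset, (c' k S : ℝ)) *
            (descPochhammer ℝ k).eval (m : ℝ) := by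
        intro k _
        rw [coeff_sum, Finset.sum_mul]
        refine Finset.sum_congr rfl fun S _ => ?_
        rw [coeff_C_mul, coeff_fund_sq, mul_one]
      rw [Finset.sum_congr rfl h5] at h3
      have h6 := pow_eq_sum_stirling (m : ℝ) (r + s)
      have h7 : ∑ k ∈ Finset.range (r + s + 1),
          ((∑ S ∈ (Finset.Icc 1 (r + s - 1)).powerset, (c' k S : ℝ)) -
            (r + s).factorial * Nat.stirlingSecond (r + s) k) *
            (descPochhammer ℝ k).eval (m : ℝ) =
          ∑ k ∈ Finset.range (r + s + 1),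
            (∑ S ∈ (Finset.Icc 1 (r + s - 1)).powerset, (c' k S : ℝ)) *
            (descPochhammer ℝ k).eval (m : ℝ) - (r + s).factorial *
          ∑ k ∈ Finset.range (r + s + 1),
            (Nat.stirlingSecond (r + s) k : ℝ) * (descPochhammer ℝ k).eval (m : ℝ) := by
        rw [Finset.mul_sum, ← Finset.sum_sub_distrib]
        refine Finset.sum_congr rfl fun k _ => ?_
        ring
      rw [h7, ← h3, ← h6, pow_add]
      ring
    intro k hk
    have h8 := descPochhammer_unique (r + s) _ h2 k hk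
    have h9 : (∑ S ∈ (Finset.Icc 1 (r + s - 1)).powerset, (c' k S : ℝ)) =
        (r + s).factorial * Nat.stirlingSecond (r + s) k := by linarith
    exact_mod_cast h9
  refine ⟨fun k S => if k ≤ r + s then c' k S else 0, fun k => ?_, fun N α hα => ?_⟩
  · simp only
    by_cases hk : k ≤ r + s
    · simp only [hk, if_true]
      exact hsum k hk
    · simp only [hk, if_false, Finset.sum_const_zero]
      rw [Nat.stirlingSecond_eq_zero_of_lt (by omega), mul_zero]
  · have hp : α ^ (r + s) ≠ 0 := pow_ne_zero _ hα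
    rw [← mul_assoc, ← map_mul, ← mul_assoc, mul_inv_cancel₀ hp, one_mul, map_mul, mul_assoc, hexp]
    refine Finset.sum_congr rfl fun k hk => Finset.sum_congr rfl fun S _ => ?_
    rw [Finset.mem_range] at hk
    simp only
    rw [if_pos (show k ≤ r + s by omega)]

end Pool.Agent.JH
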