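import Mathlib
import Pool.Agent.JH.Jack

/-!
# Two-column shapes: the differential equation
-/

set_option autoImplicit false

open MvPolynomial

namespace Pool.Agent.JH

variable {N : ℕ}

/-- `∑ x_i² ∂_i e_p ∂_i e_q` at a point. -/
noncomputable def TT (x : Fin N → ℝ) (p q : ℕ) : ℝ :=
  eval x (∑ i, X i ^ 2 * (pderiv i (esymm (Fin N) ℝ p) * pderiv i (esymm (Fin N) ℝ q)))

theorem TT_zero (x : Fin N → ℝ) (p : ℕ) : TT x p 0 = 0 := by
  unfold TT
  simp

theorem TT_succ (x : Fin N → ℝ) (a b : ℕ) : TT x (a + 1) (b + 1) =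
    ∑ i, x i ^ 2 * (eval x (ehat i a) * eval x (ehat i b)) := by
  unfold TT
  simp only [map_sum, map_mul, map_pow, eval_X, pderiv_esymm]

theorem eh_rec (x : Fin N → ℝ) (i : Fin N) (m : ℕ) : x i * eval x (ehat i m) =
    eval x (esymm (Fin N) ℝ (m + 1)) - eval x (ehat i (m + 1)) := by
  have := congrArg (eval x) (esymm_succ_eq i m)
  simp only [map_add, map_mul, eval_X] at this
  linarith

theorem sum_x_eh (x : Fin N → ℝ) (m : ℕ) : ∑ i, x i * eval x (ehat i m) =
    ((m : ℝ) + 1) * eval x (esymm (Fin N) ℝ (m + 1)) := by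
  have := euler1 x _ (m + 1) (esymm_homogeneous (m + 1))
  simp only [pderiv_esymm] at this
  rw [this]
  push_cast
  ring

theorem sum_eh (x : Fin N → ℝ) (m : ℕ) : ∑ i, eval x (ehat i m) =
    ((N : ℝ) - m) * eval x (esymm (Fin N) ℝ m) := by
  cases m with
  | zero =>
    simp [ehat_zero]
  | succ m =>
    have h1 : ∀ i, eval x (ehat i (m + 1)) =
        eval x (esymm (Fin N) ℝ (m + 1)) - x i * eval x (ehat i m) := by
      intro i
      rw [eh_rec]
      ring
    simp only [h1, Finset.sum_sub_distrib]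
    rw [sum_x_eh]
    simp only [Finset.sum_const, Finset.card_univ, Fintype.card_fin, nsmul_eq_mul]
    push_cast
    ring

theorem TT_step (x : Fin N → ℝ) (a b : ℕ) : TT x (a + 1) (b + 1) - TT x (a + 2) b =
    ((b : ℝ) + 1) * (eval x (esymm (Fin N) ℝ (a + 1)) * eval x (esymm (Fin N) ℝ (b + 1))) -
      ((a : ℝ) + 2) * (eval x (esymm (Fin N) ℝ (a + 2)) * eval x (esymm (Fin N) ℝ b)) := by
  set e : ℕ → ℝ := fun m => eval x (esymm (Fin N) ℝ m) with he
  have h1 : TT x (a + 1) (b + 1) = ((a : ℝ) + 1) * e (a + 1) * e (b + 1) -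
      ∑ i, x i * eval x (ehat i a) * eval x (ehat i (b + 1)) := by
    rw [TT_succ]
    have : ∀ i, x i ^ 2 * (eval x (ehat i a) * eval x (ehat i b)) =
        (x i * eval x (ehat i a)) * e (b + 1) - x i * eval x (ehat i a) * eval x (ehat i (b + 1)) := by
      intro i
      have := eh_rec x i b
      simp only [he]
      linear_combination (x i * eval x (ehat i a)) * this
    rw [Finset.sum_congr rfl fun i _ => this i, Finset.sum_sub_distrib, ← Finset.sum_mul, sum_x_eh]
  have h2 : TT x (a + 2) b = ((a : ℝ) + 2) * e (a + 2) * e b -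
      ∑ i, x i * eval x (ehat i (a + 1)) * eval x (ehat i b) := by
    cases b with
    | zero =>
      rw [TT_zero]
      have h3 : ∀ i : Fin N, eval x (ehat i 0) = 1 := by intro i; rw [ehat_zero]; simp
      have h4 := sum_x_eh x (a + 1)
      simp only [h3, mul_one]
      rw [h4]
      simp only [he]
      push_cast
      simp
      ring
    | succ b =>
      rw [TT_succ]
      have : ∀ i, x i ^ 2 * (eval x (ehat i (a + 1)) * eval x (ehat i b)) =
          (x i * eval x (ehat i (a + 1))) * e (b + 1) -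
            x i * eval x (ehat i (a + 1)) * eval x (ehat i (b + 1)) := by
        intro i
        have := eh_rec x i b
        simp only [he]
        linear_combination (x i * eval x (ehat i (a + 1))) * this
      rw [Finset.sum_congr rfl fun i _ => this i, Finset.sum_sub_distrib, ← Finset.sum_mul,
        sum_x_eh]
      push_cast
      ring
  have h3 : ∑ i, x i * eval x (ehat i (a + 1)) * eval x (ehat i b) -
      ∑ i, x i * eval x (ehat i a) * eval x (ehat i (b + 1)) =
      ((b : ℝ) - a) * (e (a + 1) * e (b + 1)) := by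
    rw [← Finset.sum_sub_distrib]
    have : ∀ i, x i * eval x (ehat i (a + 1)) * eval x (ehat i b) -
        x i * eval x (ehat i a) * eval x (ehat i (b + 1)) =
        eval x (ehat i (a + 1)) * e (b + 1) - eval x (ehat i (b + 1)) * e (a + 1) := by
      intro i
      have h4 := eh_rec x i b
      have h5 := eh_rec x i a
      simp only [he]
      linear_combination (eval x (ehat i (a + 1))) * h4 - (eval x (ehat i (b + 1))) * h5
    rw [Finset.sum_congr rfl fun i _ => this i, Finset.sum_sub_distrib, ← Finset.sum_mul,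
      ← Finset.sum_mul, sum_eh, sum_eh]
    push_cast
    ring
  rw [h1, h2]
  linear_combination h3

/-- The eigenvalue of `e_m`. -/
noncomputable def lmb (α : ℝ) (N m : ℕ) : ℝ := 2 * α * (N - 1) * m - α * (m * (m - 1))

theorem Dop_ee (α : ℝ) (p q : ℕ) (x : Fin N → ℝ) (hx : Function.Injective x) :
    Dop α x (esymm (Fin N) ℝ p * esymm (Fin N) ℝ q) = (lmb α N p + lmb α N q) *
      (eval x (esymm (Fin N) ℝ p) * eval x (esymm (Fin N) ℝ q)) + 2 * TT x p q := by
  rw [Dop_mul, Dop_esymm α p x hx, Dop_esymm α q x hx]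
  unfold TT lmb
  ring

/-- `e_p e_q - e_{p+1} e_{q-1}`: the Schur polynomial of the two-column shape `(p, q)'`. -/
noncomputable def S2 (N p q : ℕ) : MvPolynomial (Fin N) ℝ :=
  esymm (Fin N) ℝ p * esymm (Fin N) ℝ q -
    if q = 0 then 0 else esymm (Fin N) ℝ (p + 1) * esymm (Fin N) ℝ (q - 1)

/-- The coefficients of the two-column Jack polynomial (columns `d + h` and `h`). -/
noncomputable def cj (α : ℝ) (d h j : ℕ) : ℝ :=
  h.factorial * ((d + j).factorial / j.factorial : ℕ) * α ^ (d + h) *
    (∏ v ∈ Finset.Ico (d + j + 1) (d + h + 1), (1 + α * v)) *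
      ∏ i ∈ Finset.range j, ((i + 1) * α - 1)

theorem cj_rec (α : ℝ) (d h j : ℕ) (hj : j < h) :
    cj α d h (j + 1) * ((j + 1) * (1 + α * (d + j + 1))) =
      cj α d h j * ((d + j + 1) * ((j + 1) * α - 1)) := by
  unfold cj
  have h1 : ∏ v ∈ Finset.Ico (d + j + 1) (d + h + 1), (1 + α * (v : ℝ)) =
      (1 + α * (d + j + 1)) * ∏ v ∈ Finset.Ico (d + (j + 1) + 1) (d + h + 1), (1 + α * (v : ℝ)) := by
    rw [Finset.prod_eq_prod_Ico_succ_bot (show d + j + 1 < d + h + 1 by omega)]
    push_cast
    rfl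
  rw [h1, Finset.prod_range_succ]
  have h2 : (((d + (j + 1)).factorial / (j + 1).factorial : ℕ) : ℝ) * (j + 1) =
      ((d + j).factorial / j.factorial : ℕ) * (d + j + 1) := by
    rw [Nat.cast_div (Nat.factorial_dvd_factorial (by omega)) (by
      exact_mod_cast (j + 1).factorial_ne_zero), Nat.cast_div
      (Nat.factorial_dvd_factorial (by omega)) (by exact_mod_cast j.factorial_ne_zero)]
    have e1 : (d + (j + 1)).factorial = (d + j + 1) * (d + j).factorial := Nat.factorial_succ _
    have e2 : (j + 1).factorial = (j + 1) * j.factorial := Nat.factorial_succ _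
    rw [e1, e2]
    have h3 : (j.factorial : ℝ) ≠ 0 := by exact_mod_cast j.factorial_ne_zero
    have h4 : (j : ℝ) + 1 ≠ 0 := by positivity
    push_cast
    field_simp
  linear_combination (h.factorial * α ^ (d + h) * (1 + α * (d + j + 1)) *
    (∏ v ∈ Finset.Ico (d + (j + 1) + 1) (d + h + 1), (1 + α * (v : ℝ))) *
    (∏ i ∈ Finset.range j, (((i : ℝ) + 1) * α - 1)) * ((j + 1) * α - 1)) * h2

/-- `J~` of the two-column shape with columns `d + h`, `h`. -/
noncomputable def F2 (N : ℕ) (α : ℝ) (d h : ℕ) : MvPolynomial (Fin N) ℝ :=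
  ∑ j ∈ Finset.range (h + 1), C (cj α d h j) * S2 N (d + h + j) (h - j)

theorem Dop_sub (α : ℝ) (x : Fin N → ℝ) (g g' : MvPolynomial (Fin N) ℝ) :
    Dop α x (g - g') = Dop α x g - Dop α x g' := by
  have h1 : g - g' = g + C (-1) * g' := by
    rw [map_neg, map_one]; ring
  rw [h1, Dop_add, Dop_C_mul]
  ring

theorem Dop_zero (α : ℝ) (x : Fin N → ℝ) : Dop α x (0 : MvPolynomial (Fin N) ℝ) = 0 := by
  unfold Dop
  simp

theorem Dop_sum {ι : Type*} (s : Finset ι) (α : ℝ) (x : Fin N → ℝ)
    (g : ι → MvPolynomial (Fin N) ℝ) : Dop α x (∑ i ∈ s, g i) = ∑ i ∈ s, Dop α x (g i) := by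
  classical
  induction s using Finset.induction_on with
  | empty => simp [Dop_zero]
  | insert a s ha ih => rw [Finset.sum_insert ha, Finset.sum_insert ha, Dop_add, ih]

/-- **The eigenvalue equation for the two-column shapes.** -/
theorem Dop_F2 (α : ℝ) (d h : ℕ) (hdh : 1 ≤ d + h) (x : Fin N → ℝ) (hx : Function.Injective x) :
    Dop α x (F2 N α d h) = (lmb α N (d + h) + lmb α N h + 2 * h) * eval x (F2 N α d h) := by
  set Λ : ℝ := lmb α N (d + h) + lmb α N h + 2 * h with hΛ
  set e : ℕ → ℝ := fun m => eval x (esymm (Fin N) ℝ m) with he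
  -- the products
  set E : ℕ → ℝ := fun j => if j ≤ h then e (d + h + j) * e (h - j) else 0 with hE
  set B : ℕ → ℝ := fun j => lmb α N (d + h + j) + (2 * α * (N - 1) * ((h : ℝ) - j) -
    α * (((h : ℝ) - j) * ((h : ℝ) - j - 1))) + 2 * (d + h + j) with hB
  have hlm : ∀ j, j ≤ h → lmb α N (h - j) = 2 * α * (N - 1) * ((h : ℝ) - j) -
      α * (((h : ℝ) - j) * ((h : ℝ) - j - 1)) := by
    intro j hj
    unfold lmb
    rw [Nat.cast_sub hj]
  have hS : ∀ j, j ≤ h → eval x (S2 N (d + h + j) (h - j)) = E j - E (j + 1) := by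
    intro j hj
    unfold S2
    simp only [hE, if_pos hj]
    by_cases h0 : j = h
    · subst h0
      simp [he]
    · rw [if_neg (by omega), if_pos (by omega)]
      simp only [map_sub, map_mul, he]
      have : h - j - 1 = h - (j + 1) := by omega
      rw [this]
      rfl
  have hD : ∀ j, j ≤ h → Dop α x (S2 N (d + h + j) (h - j)) =
      (B j - 2 * (d + 2 * j)) * E j - B (j + 1) * E (j + 1) := by
    intro j hj
    unfold S2
    by_cases h0 : j = h
    · subst h0
      simp only [Nat.sub_self, if_true, sub_zero, hE, le_refl]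
      rw [Dop_ee α _ _ x hx, TT_zero, if_neg (by omega)]
      have := hlm j le_rfl
      rw [Nat.sub_self] at this
      rw [this]
      simp only [hB, he]
      ring
    · rw [if_neg (by omega), Dop_sub, Dop_ee α _ _ x hx, Dop_ee α _ _ x hx]
      simp only [hE, if_pos hj, if_pos (show j + 1 ≤ h by omega)]
      obtain ⟨a, ha⟩ : ∃ a, d + h + j = a + 1 := ⟨d + h + j - 1, by omega⟩
      obtain ⟨b, hb⟩ : ∃ b, h - j = b + 1 := ⟨h - j - 1, by omega⟩
      have hT := TT_step x a b
      have e1 : d + h + (j + 1) = a + 2 := by omega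
      have e2 : h - (j + 1) = b := by omega
      have l1 := hlm j hj
      have l2 := hlm (j + 1) (by omega)
      have ha' : (a : ℝ) + 1 = d + h + j := by exact_mod_cast ha.symm
      have hb' : (b : ℝ) + 1 = (h : ℝ) - j := by
        have : ((h - j : ℕ) : ℝ) = ((b + 1 : ℕ) : ℝ) := by rw [hb]
        rw [Nat.cast_sub hj] at this
        push_cast at this
        linarith
      rw [hb] at l1
      rw [e2] at l2
      simp only [hB, e1, e2, ha, hb, he, Nat.add_sub_cancel]
      rw [show a + 1 + 1 = a + 2 from rfl]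
      have ha2 : (a : ℝ) = d + h + j - 1 := by linarith
      have hb2 : (b : ℝ) = (h : ℝ) - j - 1 := by linarith
      rw [l1, l2]
      rw [ha2, hb2] at hT
      push_cast
      linear_combination 2 * hT
  -- the recursion of the coefficients
  have hrec : ∀ j, j < h → cj α d h (j + 1) * (B (j + 1) - 2 * (d + 2 * (j + 1)) - Λ) =
      cj α d h j * (B (j + 1) - Λ) := by
    intro j hj
    have h1 := cj_rec α d h j hj
    simp only [hB, hΛ]
    unfold lmb
    push_cast
    linear_combination (-2 : ℝ) * h1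
  have key : ∀ J, J ≤ h → ∑ j ∈ Finset.range (J + 1), cj α d h j *
      (Dop α x (S2 N (d + h + j) (h - j)) - Λ * eval x (S2 N (d + h + j) (h - j))) =
      -(cj α d h J * (B (J + 1) - Λ) * E (J + 1)) := by
    intro J
    induction J with
    | zero =>
      intro _
      rw [zero_add, Finset.sum_range_one, hD 0 (Nat.zero_le _), hS 0 (Nat.zero_le _)]
      have : B 0 - 2 * (d + 2 * ((0 : ℕ) : ℝ)) = Λ := by
        simp only [hB, hΛ]
        unfold lmb
        push_cast
        ring
      rw [this]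
      ring
    | succ J ih =>
      intro hJ
      rw [Finset.sum_range_succ, ih (by omega), hD (J + 1) hJ, hS (J + 1) hJ]
      have := hrec J (by omega)
      push_cast at this ⊢
      linear_combination (E (J + 1)) * this
  have hfin := key h le_rfl
  have hEh : E (h + 1) = 0 := by
    simp only [hE]
    rw [if_neg (by omega)]
  rw [hEh, mul_zero, neg_zero] at hfin
  unfold F2
  rw [Dop_sum]
  simp only [Dop_C_mul, map_sum, map_mul, eval_C]
  rw [Finset.mul_sum]
  have h9 : ∀ j, cj α d h j * (Dop α x (S2 N (d + h + j) (h - j)) -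
      Λ * eval x (S2 N (d + h + j) (h - j))) = cj α d h j * Dop α x (S2 N (d + h + j) (h - j)) -
      Λ * (cj α d h j * eval x (S2 N (d + h + j) (h - j))) := by
    intro j; ring
  rw [Finset.sum_congr rfl fun j _ => h9 j, Finset.sum_sub_distrib] at hfin
  linarith

end Pool.Agent.JH
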