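import Mathlib
import Pool.Agent.JH.Two1

/-!
# Two-column shapes: the Jack polynomial
-/

set_option autoImplicit false

open MvPolynomial

namespace Pool.Agent.JH

/-! ### Products of elementary symmetric polynomials -/

theorem ee_eq (N p q : ℕ) : esymm (Fin N) ℝ p * esymm (Fin N) ℝ q =
    ∑ A ∈ (Finset.univ : Finset (Fin N)).powersetCard p,
      ∑ B ∈ (Finset.univ : Finset (Fin N)).powersetCard q, monomial (ind A + ind B) (1 : ℝ) := by
  unfold esymm
  rw [Finset.sum_mul_sum]
  refine Finset.sum_congr rfl fun A _ => Finset.sum_congr rfl fun B _ => ?_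
  rw [prod_X_ind, prod_X_ind, monomial_mul, mul_one]

theorem coeff_ee (N p q : ℕ) (m : Fin N →₀ ℕ) :
    coeff m (esymm (Fin N) ℝ p * esymm (Fin N) ℝ q) =
    ∑ A ∈ (Finset.univ : Finset (Fin N)).powersetCard p,
      ∑ B ∈ (Finset.univ : Finset (Fin N)).powersetCard q,
        if ind A + ind B = m then (1 : ℝ) else 0 := by
  classical
  rw [ee_eq, coeff_sum]
  refine Finset.sum_congr rfl fun A _ => ?_
  rw [coeff_sum]
  exact Finset.sum_congr rfl fun B _ => coeff_monomial _ _ _

theorem exists_of_coeff_ee {N p q : ℕ} {m : Fin N →₀ ℕ}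
    (h : coeff m (esymm (Fin N) ℝ p * esymm (Fin N) ℝ q) ≠ 0) :
    ∃ A B : Finset (Fin N), A.card = p ∧ B.card = q ∧ m = ind A + ind B := by
  classical
  rw [coeff_ee] at h
  obtain ⟨A, hA, h1⟩ := Finset.exists_ne_zero_of_sum_ne_zero h
  obtain ⟨B, hB, h2⟩ := Finset.exists_ne_zero_of_sum_ne_zero h1
  refine ⟨A, B, (Finset.mem_powersetCard.mp hA).2, (Finset.mem_powersetCard.mp hB).2, ?_⟩
  by_contra h3
  rw [if_neg (fun h4 => h3 h4.symm)] at h2
  exact h2 rfl

theorem exists_of_coeff_S2 {N p q : ℕ} {m : Fin N →₀ ℕ} (h : coeff m (S2 N p q) ≠ 0) :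
    ∃ (j : ℕ) (A B : Finset (Fin N)), j ≤ q ∧ A.card = p + j ∧ B.card = q - j ∧
      m = ind A + ind B := by
  unfold S2 at h
  rw [coeff_sub] at h
  by_cases h1 : coeff m (esymm (Fin N) ℝ p * esymm (Fin N) ℝ q) = 0
  · rw [h1, zero_sub] at h
    split_ifs at h with h2
    · simp at h
    · obtain ⟨A, B, hA, hB, hm⟩ := exists_of_coeff_ee (neg_ne_zero.mp h)
      exact ⟨1, A, B, by omega, hA, hB, hm⟩
  · obtain ⟨A, B, hA, hB, hm⟩ := exists_of_coeff_ee h1
    exact ⟨0, A, B, by omega, hA, hB, hm⟩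

theorem exists_of_coeff_F2 {N : ℕ} {α : ℝ} {d h : ℕ} {m : Fin N →₀ ℕ}
    (hm : coeff m (F2 N α d h) ≠ 0) :
    ∃ (j : ℕ) (A B : Finset (Fin N)), j ≤ h ∧ A.card = d + h + j ∧ B.card = h - j ∧
      m = ind A + ind B := by
  unfold F2 at hm
  rw [coeff_sum] at hm
  obtain ⟨j, hj, h1⟩ := Finset.exists_ne_zero_of_sum_ne_zero hm
  rw [coeff_C_mul] at h1
  rw [Finset.mem_range] at hj
  obtain ⟨i, A, B, hi, hA, hB, hm⟩ := exists_of_coeff_S2 (right_ne_zero_of_mul h1)
  exact ⟨j + i, A, B, by omega, by omega, by omega, hm⟩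

theorem sum_ind {N : ℕ} (A T : Finset (Fin N)) : ∑ i ∈ T, ind A i = (A ∩ T).card := by
  classical
  simp only [ind_apply]
  rw [← Finset.sum_filter]
  simp only [Finset.sum_const, smul_eq_mul, mul_one]
  congr 1
  ext i
  simp only [Finset.mem_filter, Finset.mem_inter]
  tauto

theorem sum_ind_le {N : ℕ} (A T : Finset (Fin N)) : ∑ i ∈ T, ind A i ≤ min T.card A.card := by
  classical
  rw [sum_ind]
  exact le_min (Finset.card_le_card Finset.inter_subset_right)
    (Finset.card_le_card Finset.inter_subset_left)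

/-! ### The shape -/

section two

variable {μ : YoungDiagram} (h2 : (0, 2) ∉ μ)

include h2

theorem two_rowLen (i : ℕ) : μ.rowLen i =
    (if i < μ.colLen 0 then 1 else 0) + (if i < μ.colLen 1 then 1 else 0) := by
  have h3 : μ.rowLen i ≤ 2 := by
    by_contra hcon
    push Not at hcon
    exact h2 (μ.up_left_mem (Nat.zero_le i) le_rfl (YoungDiagram.mem_iff_lt_rowLen.mpr hcon))
  have h4 : i < μ.colLen 0 ↔ 0 < μ.rowLen i := by
    rw [← YoungDiagram.mem_iff_lt_colLen, ← YoungDiagram.mem_iff_lt_rowLen]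
  have h5 : i < μ.colLen 1 ↔ 1 < μ.rowLen i := by
    rw [← YoungDiagram.mem_iff_lt_colLen, ← YoungDiagram.mem_iff_lt_rowLen]
  split_ifs <;> omega

theorem two_sum_rowLen (t : ℕ) : ∑ i ∈ Finset.range t, μ.rowLen i =
    min t (μ.colLen 0) + min t (μ.colLen 1) := by
  have h1 : ∀ c : ℕ, ∑ i ∈ Finset.range t, (if i < c then 1 else 0) = min t c := by
    intro c
    induction t with
    | zero => simp
    | succ t ih =>
      rw [Finset.sum_range_succ, ih]
      split_ifs <;> omega
  rw [Finset.sum_congr rfl fun i _ => two_rowLen h2 i, Finset.sum_add_distrib, h1, h1]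

omit h2 in
theorem col_le : μ.colLen 1 ≤ μ.colLen 0 := μ.colLen_anti 0 1 (by omega)

theorem two_card : μ.card = μ.colLen 0 + μ.colLen 1 := by
  have h3 := YoungDiagram.rowLen_eq_card μ (i := 0)
  have h4 : μ.card = ∑ i ∈ Finset.range (μ.colLen 0), μ.rowLen i := by
    have hmaps : ∀ c ∈ μ.cells, c.1 ∈ Finset.range (μ.colLen 0) := by
      intro c hc
      rw [Finset.mem_range]
      have h1 : (c.1, 0) ∈ μ :=
        μ.up_left_mem le_rfl (Nat.zero_le c.2) (YoungDiagram.mem_cells c |>.mp hc)
      exact YoungDiagram.mem_iff_lt_colLen.mp h1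
    have h5 : μ.card = μ.cells.card := rfl
    rw [h5, Finset.card_eq_sum_card_fiberwise hmaps]
    refine Finset.sum_congr rfl fun i _ => ?_
    rw [YoungDiagram.rowLen_eq_card]
    rfl
  rw [h4, two_sum_rowLen h2]
  have := col_le (μ := μ)
  omega

theorem two_prod {M : Type*} [CommMonoid M] (F : ℕ × ℕ → M) : ∏ c ∈ μ.cells, F c =
    (∏ i ∈ Finset.range (μ.colLen 0), F (i, 0)) * ∏ i ∈ Finset.range (μ.colLen 1), F (i, 1) := by
  classical
  have e : μ.cells = (Finset.range (μ.colLen 0)).image (fun i => ((i, 0) : ℕ × ℕ)) ∪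
      (Finset.range (μ.colLen 1)).image (fun i => ((i, 1) : ℕ × ℕ)) := by
    ext ⟨i, j⟩
    rw [YoungDiagram.mem_cells, YoungDiagram.mem_iff_lt_rowLen, two_rowLen h2]
    simp only [Finset.mem_union, Finset.mem_image, Finset.mem_range, Prod.mk.injEq]
    have := col_le (μ := μ)
    constructor
    · intro h
      rcases Nat.lt_or_ge j 1 with hj | hj
      · left
        refine ⟨i, ?_, rfl, by omega⟩
        by_contra hcon
        rw [if_neg hcon, if_neg (by omega)] at h
        omega
      · right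
        by_cases hi : i < μ.colLen 1
        · rw [if_pos (by omega), if_pos hi] at h
          exact ⟨i, hi, rfl, by omega⟩
        · rw [if_neg hi] at h
          split_ifs at h <;> omega
    · rintro (⟨k, hk, rfl, rfl⟩ | ⟨k, hk, rfl, rfl⟩)
      · rw [if_pos hk]; omega
      · rw [if_pos (show k < μ.colLen 0 by omega), if_pos hk]; omega
  rw [e, Finset.prod_union, Finset.prod_image, Finset.prod_image]
  · intro a _ b _ hab
    simpa using hab
  · intro a _ b _ hab
    simpa using hab
  · rw [Finset.disjoint_left]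
    intro c hc hc'
    obtain ⟨j, _, rfl⟩ := Finset.mem_image.mp hc
    obtain ⟨i, _, hi⟩ := Finset.mem_image.mp hc'
    simp at hi

end two

/-- The leading coefficient of `e_r e_h`. -/
theorem coeff_ee_lead {N r h : ℕ} (hr : r ≤ N) (hh : h ≤ r) (m : Fin N →₀ ℕ)
    (hm : ∀ i : Fin N, m i = (if i.1 < r then 1 else 0) + (if i.1 < h then 1 else 0)) :
    coeff m (esymm (Fin N) ℝ r * esymm (Fin N) ℝ h) = 1 := by
  classical
  have hcard : ∀ k, k ≤ N →
      ((Finset.univ : Finset (Fin N)).filter fun i => i.1 < k).card = k := by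
    intro k hk
    have : ((Finset.univ : Finset (Fin N)).filter fun i => i.1 < k) =
        Finset.univ.map (Fin.castLEEmb hk) := by
      ext i
      simp only [Finset.mem_filter, Finset.mem_univ, true_and, Finset.mem_map]
      constructor
      · intro h
        exact ⟨⟨i.1, h⟩, Fin.ext rfl⟩
      · rintro ⟨j, rfl⟩
        have := j.2
        simp only [Fin.castLEEmb_apply, Fin.val_castLE]
        omega
    rw [this, Finset.card_map, Finset.card_univ, Fintype.card_fin]
  set A0 := (Finset.univ : Finset (Fin N)).filter fun i => i.1 < r with hA0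
  set B0 := (Finset.univ : Finset (Fin N)).filter fun i => i.1 < h with hB0
  have hA0m : A0 ∈ (Finset.univ : Finset (Fin N)).powersetCard r :=
    Finset.mem_powersetCard.mpr ⟨Finset.subset_univ _, hcard r hr⟩
  have hB0m : B0 ∈ (Finset.univ : Finset (Fin N)).powersetCard h :=
    Finset.mem_powersetCard.mpr ⟨Finset.subset_univ _, hcard h (hh.trans hr)⟩
  have hmA : ∀ i : Fin N, i ∈ A0 ↔ i.1 < r := by intro i; rw [hA0]; simp
  have hmB : ∀ i : Fin N, i ∈ B0 ↔ i.1 < h := by intro i; rw [hB0]; simp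
  have huniq : ∀ A B : Finset (Fin N), A.card = r → B.card = h → ind A + ind B = m →
      A = A0 ∧ B = B0 := by
    intro A B hA hB hAB
    have hpt : ∀ i, (if i ∈ A then 1 else 0) + (if i ∈ B then 1 else 0) =
        (if i.1 < r then 1 else 0) + (if i.1 < h then 1 else 0) := by
      intro i
      have := DFunLike.congr_fun hAB i
      rw [Finsupp.add_apply, ind_apply, ind_apply, hm i] at this
      exact this
    have hAsub : A ⊆ A0 := by
      intro i hi
      rw [hmA]
      by_contra hcon
      have := hpt i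
      rw [if_pos hi, if_neg hcon, if_neg (show ¬ i.1 < h from fun h9 => hcon (by omega))] at this
      omega
    have hAeq : A = A0 := Finset.eq_of_subset_of_card_le hAsub (by rw [hcard r hr, hA])
    refine ⟨hAeq, ?_⟩
    ext i
    rw [hmB]
    have := hpt i
    have h3 : i ∈ A ↔ i.1 < r := by rw [hAeq]; exact hmA i
    by_cases h4 : i.1 < r
    · rw [if_pos (h3.mpr h4), if_pos h4] at this
      constructor
      · intro h5
        rw [if_pos h5] at this
        by_contra h6
        rw [if_neg h6] at this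
        omega
      · intro h5
        rw [if_pos h5] at this
        by_contra h6
        rw [if_neg h6] at this
        omega
    · rw [if_neg (fun h5 => h4 (h3.mp h5)), if_neg h4] at this
      constructor
      · intro h5
        rw [if_pos h5] at this
        by_contra h6
        rw [if_neg h6] at this
        omega
      · intro h5
        omega
  rw [coeff_ee, Finset.sum_eq_single_of_mem A0 hA0m, Finset.sum_eq_single_of_mem B0 hB0m]
  · rw [if_pos]
    ext i
    rw [Finsupp.add_apply, ind_apply, ind_apply, hm i]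
    have a := hmA i
    have b := hmB i
    by_cases h3 : i.1 < r <;> by_cases h4 : i.1 < h <;> simp [a, b, h3, h4]
  · intro B hB hne
    rw [if_neg]
    intro h3
    exact hne (huniq A0 B (Finset.mem_powersetCard.mp hA0m).2 (Finset.mem_powersetCard.mp hB).2
      h3).2
  · intro A hA hne
    refine Finset.sum_eq_zero fun B hB => ?_
    rw [if_neg]
    intro h3
    exact hne (huniq A B (Finset.mem_powersetCard.mp hA).2 (Finset.mem_powersetCard.mp hB).2 h3).1

/-- No contribution of the longer products. -/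
theorem coeff_ee_zero {N r h p q : ℕ} (hp : r < p) (hh : h ≤ r) (m : Fin N →₀ ℕ)
    (hm : ∀ i : Fin N, m i = (if i.1 < r then 1 else 0) + (if i.1 < h then 1 else 0)) :
    coeff m (esymm (Fin N) ℝ p * esymm (Fin N) ℝ q) = 0 := by
  classical
  by_contra hcon
  obtain ⟨A, B, hA, hB, hAB⟩ := exists_of_coeff_ee hcon
  have hsub : A ⊆ (Finset.univ : Finset (Fin N)).filter fun i => i.1 < r := by
    intro i hi
    rw [Finset.mem_filter]
    refine ⟨Finset.mem_univ _, ?_⟩
    by_contra h1
    have h2 := hm i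
    rw [hAB, Finsupp.add_apply, ind_apply, if_pos hi, if_neg h1, if_neg (by omega)] at h2
    omega
  have hc := Finset.card_le_card hsub
  have h3 : ((Finset.univ : Finset (Fin N)).filter fun i => i.1 < r).card ≤ r := by
    have h4 : ((Finset.univ : Finset (Fin N)).filter fun i => i.1 < r).card ≤
        (Finset.range r).card :=
      Finset.card_le_card_of_injOn (fun i => i.1)
        (by
          intro i hi
          simp only [Finset.coe_filter, Finset.mem_univ, true_and] at hi
          simpa using hi)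
        (fun i _ j _ hij => Fin.ext hij)
    simpa using h4
  omega

theorem coeff_F2_lead {N d h : ℕ} (α : ℝ) (hr : d + h ≤ N) (m : Fin N →₀ ℕ)
    (hm : ∀ i : Fin N, m i = (if i.1 < d + h then 1 else 0) + (if i.1 < h then 1 else 0)) :
    coeff m (F2 N α d h) = cj α d h 0 := by
  unfold F2
  rw [coeff_sum, Finset.sum_eq_single 0]
  · rw [coeff_C_mul]
    unfold S2
    rw [coeff_sub, Nat.sub_zero, add_zero, coeff_ee_lead hr (by omega) m hm]
    split_ifs with h0
    · simp
    · rw [coeff_ee_zero (r := d + h) (h := h) (by omega) (by omega) m hm]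
      ring
  · intro j _ hj
    rw [coeff_C_mul]
    unfold S2
    rw [coeff_sub, coeff_ee_zero (r := d + h) (h := h) (by omega) (by omega) m hm]
    split_ifs with h0
    · simp
    · rw [coeff_ee_zero (r := d + h) (h := h) (by omega) (by omega) m hm]
      ring
  · intro h0
    simp at h0

theorem S2_symm (N p q : ℕ) : (S2 N p q).IsSymmetric := by
  unfold S2
  refine (symmetricSubalgebra (Fin N) ℝ).sub_mem
    ((esymm_isSymmetric (Fin N) ℝ p).mul (esymm_isSymmetric (Fin N) ℝ q)) ?_
  split_ifs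
  · exact (symmetricSubalgebra (Fin N) ℝ).zero_mem
  · exact (esymm_isSymmetric (Fin N) ℝ _).mul (esymm_isSymmetric (Fin N) ℝ _)

theorem F2_symm (N : ℕ) (α : ℝ) (d h : ℕ) : (F2 N α d h).IsSymmetric := by
  unfold F2
  exact (symmetricSubalgebra (Fin N) ℝ).sum_mem fun j _ => C_mul_symm _ (S2_symm N _ _)

theorem gaussr (q : ℕ) : ∑ j ∈ Finset.range q, (j : ℝ) = (q : ℝ) * (q - 1) / 2 := by
  induction q with
  | zero => simp
  | succ q ih => rw [Finset.sum_range_succ, ih]; push_cast; ring

/-- **The Jack polynomial of a two-column shape.** -/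
theorem isJack_two {μ : YoungDiagram} (h0 : (0, 0) ∈ μ) (h2 : (0, 2) ∉ μ) (N : ℕ) (α : ℝ)
    (hα : α ≠ 0) : IsJack α⁻¹ μ N (C ((α ^ μ.card)⁻¹) *
      F2 N α (μ.colLen 0 - μ.colLen 1) (μ.colLen 1)) := by
  have hc : 0 < μ.colLen 0 := YoungDiagram.mem_iff_lt_colLen.mp h0
  have hle := col_le (μ := μ)
  have hcard := two_card h2
  set h := μ.colLen 1 with hh
  set d := μ.colLen 0 - h with hd
  have hdh : μ.colLen 0 = d + h := by omega
  rw [hdh] at hcard
  refine ⟨C_mul_symm _ (F2_symm N α d h), fun m hm => ?_, fun m hN hm => ?_, fun x hx => ?_⟩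
  · rw [mem_support_iff, coeff_C_mul] at hm
    obtain ⟨j, A, B, hj, hA, hB, hmAB⟩ := exists_of_coeff_F2 (right_ne_zero_of_mul hm)
    have hsumle : ∀ T : Finset (Fin N), ∑ i ∈ T, m i = ∑ i ∈ T, ind A i + ∑ i ∈ T, ind B i := by
      intro T
      rw [hmAB, ← Finset.sum_add_distrib]
      rfl
    refine ⟨?_, fun T => ?_⟩
    · rw [hsumle, sum_ind, sum_ind, Finset.inter_univ, Finset.inter_univ, hA, hB, hcard]
      omega
    · rw [hsumle, two_sum_rowLen h2, hdh]
      have h3 := sum_ind_le A T
      have h4 := sum_ind_le B T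
      rw [hA] at h3
      rw [hB] at h4
      omega
  · rw [coeff_C_mul, coeff_F2_lead α (by omega) m (by
      intro i
      rw [hm i, two_rowLen h2, hdh])]
    rw [two_prod h2]
    simp only
    rw [hdh, ← hh]
    have hr1 : ∀ i, ((μ.rowLen i : ℝ)) = (if i < d + h then 1 else 0) + (if i < h then 1 else 0) := by
      intro i
      rw [two_rowLen h2, hdh, ← hh]
      push_cast
      rfl
    have e2 : ∏ i ∈ Finset.range h, (α⁻¹ * ((μ.rowLen i : ℝ) - ((1 : ℕ) : ℝ) - 1) +
        ((h : ℝ) - i - 1) + 1) = h.factorial := by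
      rw [← fact_eq_prod]
      refine Finset.prod_congr rfl fun i hi => ?_
      rw [Finset.mem_range] at hi
      rw [hr1, if_pos (by omega), if_pos hi]
      push_cast
      ring
    have e1 : ∏ i ∈ Finset.range (d + h), (α⁻¹ * ((μ.rowLen i : ℝ) - ((0 : ℕ) : ℝ) - 1) +
        (((d + h : ℕ) : ℝ) - i - 1) + 1) =
        (∏ i ∈ Finset.range h, (α⁻¹ + ((d + h : ℝ) - i))) * d.factorial := by
      rw [add_comm d h, Finset.prod_range_add]
      congr 1
      · refine Finset.prod_congr rfl fun i hi => ?_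
        rw [Finset.mem_range] at hi
        rw [hr1, if_pos (by omega), if_pos hi]
        push_cast
        ring
      · rw [← fact_eq_prod]
        refine Finset.prod_congr rfl fun i hi => ?_
        rw [Finset.mem_range] at hi
        rw [hr1, if_pos (by omega), if_neg (by omega)]
        push_cast
        ring
    rw [e1, e2]
    unfold cj
    have e3 : ∏ v ∈ Finset.Ico (d + 0 + 1) (d + h + 1), (1 + α * (v : ℝ)) =
        α ^ h * ∏ i ∈ Finset.range h, (α⁻¹ + ((d + h : ℝ) - i)) := by
      rw [Finset.prod_Ico_eq_prod_range, show d + h + 1 - (d + 0 + 1) = h by omega,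
        ← Finset.prod_range_reflect]
      have e4 : α ^ h = ∏ _i ∈ Finset.range h, α := by rw [Finset.prod_const, Finset.card_range]
      rw [e4, ← Finset.prod_mul_distrib]
      refine Finset.prod_congr rfl fun i hi => ?_
      rw [Finset.mem_range] at hi
      have : ((d + 0 + 1 + (h - 1 - i) : ℕ) : ℝ) = (d : ℝ) + h - i := by
        have : d + 0 + 1 + (h - 1 - i) + i = d + h := by omega
        have h5 : ((d + 0 + 1 + (h - 1 - i) : ℕ) : ℝ) + i = (d : ℝ) + h := by exact_mod_cast this
        linarith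
      rw [this]
      field_simp
    rw [e3, hcard]
    simp only [Finset.range_zero, Finset.prod_empty, mul_one, add_zero, Nat.factorial_zero,
      Nat.div_one]
    have h7 : α ^ (d + h + h) = α ^ (d + h) * α ^ h := pow_add _ _ _
    rw [h7]
    have hp1 : α ^ (d + h) ≠ 0 := pow_ne_zero _ hα
    have hp2 : α ^ h ≠ 0 := pow_ne_zero _ hα
    field_simp
  · have h5 := Dop_F2 α d h (by omega) x hx
    set κ : ℝ := (α ^ μ.card)⁻¹ with hκ
    have h6 := Dop_C_mul α x κ (F2 N α d h)
    rw [h5] at h6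
    unfold Dop at h6
    have h7 := two_prod (M := Multiplicative ℝ) h2 (fun c : ℕ × ℕ =>
      Multiplicative.ofAdd ((α⁻¹ * c.2 - c.1 + (N - 1) : ℝ)))
    have h8 : ∑ c ∈ μ.cells, (α⁻¹ * (c.2 : ℝ) - c.1 + (N - 1)) =
        ∑ i ∈ Finset.range (d + h), (-(i : ℝ) + (N - 1)) +
        ∑ i ∈ Finset.range h, (α⁻¹ - (i : ℝ) + (N - 1)) := by
      have := congrArg Multiplicative.toAdd h7
      simp only [toAdd_prod, toAdd_mul, toAdd_ofAdd] at this
      rw [this, hdh, ← hh]
      simp only [Nat.cast_zero, Nat.cast_one, mul_zero, mul_one, zero_sub]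
    have h9 : ∑ c ∈ μ.cells, (α⁻¹ * (c.2 : ℝ) - c.1 + (N - 1)) =
        α⁻¹ / 2 * (lmb α N (d + h) + lmb α N h + 2 * h) := by
      have g1 : ∑ i ∈ Finset.range (d + h), (-(i : ℝ) + (N - 1)) =
          -(((d + h : ℕ) : ℝ) * (((d + h : ℕ) : ℝ) - 1) / 2) + ((d + h : ℕ) : ℝ) * (N - 1) := by
        rw [Finset.sum_add_distrib, Finset.sum_neg_distrib, gaussr, Finset.sum_const,
          Finset.card_range, nsmul_eq_mul]
      have g2 : ∑ i ∈ Finset.range h, (α⁻¹ - (i : ℝ) + (N - 1)) =
          (h : ℝ) * α⁻¹ - ((h : ℝ) * ((h : ℝ) - 1) / 2) + (h : ℝ) * (N - 1) := by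
        rw [Finset.sum_add_distrib, Finset.sum_sub_distrib, gaussr, Finset.sum_const,
          Finset.sum_const, Finset.card_range, nsmul_eq_mul, nsmul_eq_mul]
      rw [h8, g1, g2]
      unfold lmb
      push_cast
      field_simp
      ring
    rw [h9]
    have h10 : α⁻¹ / 2 * ((∑ i, x i ^ 2 * eval x (pderiv i (pderiv i (C κ * F2 N α d h)))) +
        2 * α * ∑ i, ∑ j ∈ Finset.univ.erase i, x i ^ 2 / (x i - x j) *
          eval x (pderiv i (C κ * F2 N α d h))) =
        α⁻¹ / 2 * ∑ i, x i ^ 2 * eval x (pderiv i (pderiv i (C κ * F2 N α d h))) +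
        ∑ i, ∑ j ∈ Finset.univ.erase i, x i ^ 2 / (x i - x j) *
          eval x (pderiv i (C κ * F2 N α d h)) := by
      field_simp
    rw [← h10, h6, map_mul, eval_C]
    ring

end Pool.Agent.JH
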