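import Mathlib
import Pool.Agent.JH.Two2
import Pool.Agent.JH.Cone

/-!
# Two-column shapes: the sum rule and the scalar coefficients
-/

set_option autoImplicit false

open MvPolynomial

namespace Pool.Agent.JH

/-! ### The sum rule -/

/-- The coefficient of `x_0 ⋯ x_(n-1)` in `e_p e_q`. -/
theorem coeff_ee_sq (n p q : ℕ) (h : p + q = n) :
    coeff (ind (Finset.univ : Finset (Fin n))) (esymm (Fin n) ℝ p * esymm (Fin n) ℝ q) =
      (n.choose p : ℝ) := by
  classical
  rw [coeff_ee]
  have h1 : ∀ A ∈ (Finset.univ : Finset (Fin n)).powersetCard p,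
      ∑ B ∈ (Finset.univ : Finset (Fin n)).powersetCard q,
        (if ind A + ind B = ind (Finset.univ : Finset (Fin n)) then (1 : ℝ) else 0) = 1 := by
    intro A hA
    have hcA := (Finset.mem_powersetCard.mp hA).2
    have hmem : Aᶜ ∈ (Finset.univ : Finset (Fin n)).powersetCard q := by
      rw [Finset.mem_powersetCard]
      refine ⟨Finset.subset_univ _, ?_⟩
      rw [Finset.card_compl, hcA, Fintype.card_fin]
      omega
    rw [Finset.sum_eq_single_of_mem _ hmem]
    · rw [if_pos]
      ext i
      rw [Finsupp.add_apply, ind_apply, ind_apply, ind_apply]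
      by_cases hi : i ∈ A <;> simp [hi]
    · intro B _ hB
      rw [if_neg]
      intro h2
      apply hB
      ext i
      have h3 := DFunLike.congr_fun h2 i
      rw [Finsupp.add_apply, ind_apply, ind_apply, ind_apply] at h3
      by_cases hi : i ∈ A <;> by_cases hi' : i ∈ B <;> simp [hi, hi'] at h3 ⊢
  rw [Finset.sum_congr rfl h1, Finset.sum_const, Finset.card_powersetCard, Finset.card_univ,
    Fintype.card_fin, nsmul_eq_mul, mul_one]

theorem coeff_S2_sq (n p q : ℕ) (h : p + q = n) (hqp : q ≤ p) :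
    coeff (ind (Finset.univ : Finset (Fin n))) (S2 n p q) =
      (n.factorial : ℝ) * ((p : ℝ) + 1 - q) / (q.factorial * (p + 1).factorial) := by
  unfold S2
  rw [coeff_sub, coeff_ee_sq n p q h]
  have h1 : (n.choose p : ℝ) = n.factorial / (p.factorial * q.factorial) := by
    rw [Nat.cast_choose ℝ (by omega : p ≤ n), show n - p = q by omega]
  have hp : (p.factorial : ℝ) ≠ 0 := by exact_mod_cast p.factorial_ne_zero
  have hq : (q.factorial : ℝ) ≠ 0 := by exact_mod_cast q.factorial_ne_zero
  have hp1 : (p : ℝ) + 1 ≠ 0 := by positivity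
  rw [h1]
  cases q with
  | zero =>
    rw [if_pos rfl, coeff_zero, Nat.factorial_succ]
    push_cast
    field_simp
    ring
  | succ q =>
    rw [if_neg (by omega), Nat.add_sub_cancel, coeff_ee_sq n (p + 1) q (by omega),
      Nat.cast_choose ℝ (by omega : p + 1 ≤ n), show n - (p + 1) = q by omega,
      Nat.factorial_succ q, Nat.factorial_succ p]
    have hq' : (q.factorial : ℝ) ≠ 0 := by exact_mod_cast q.factorial_ne_zero
    have hq1 : (q : ℝ) + 1 ≠ 0 := by positivity
    push_cast
    field_simp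

/-- A summand of the sum rule. -/
noncomputable def FA (α : ℝ) (d h j : ℕ) : ℝ :=
  h.factorial * ((d + j).factorial / j.factorial) *
    (∏ v ∈ Finset.Ico (d + j + 1) (d + h + 1), (1 + α * v)) *
      (∏ i ∈ Finset.range j, ((i + 1) * α - 1)) * (d + 2 * j + 1) /
        ((h - j).factorial * (d + h + j + 1).factorial)

/-- The certificate. -/
noncomputable def GA (α : ℝ) (d h j : ℕ) : ℝ :=
  -(h.factorial * (j * ((d + j).factorial / j.factorial)) *
    (∏ v ∈ Finset.Ico (d + j) (d + h + 1), (1 + α * v)) *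
      (∏ i ∈ Finset.range j, ((i + 1) * α - 1)) /
        ((h + 1 - j).factorial * (d + h + j + 1).factorial))

theorem FA_GA (α : ℝ) (d h j : ℕ) (hj : j ≤ h) :
    FA α d (h + 1) j - α * FA α d h j = GA α d h (j + 1) - GA α d h j := by
  unfold FA GA
  set P : ℝ := ∏ v ∈ Finset.Ico (d + j + 1) (d + h + 1), (1 + α * v) with hP
  set Q : ℝ := ∏ i ∈ Finset.range j, ((i + 1) * α - 1) with hQ
  have h1 : ∏ v ∈ Finset.Ico (d + j + 1) (d + (h + 1) + 1), (1 + α * (v : ℝ)) =
      P * (1 + α * (d + h + 1)) := by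
    rw [show d + (h + 1) + 1 = (d + h + 1) + 1 by ring, Finset.prod_Ico_succ_top (by omega)]
    push_cast
    rfl
  have h2 : ∏ v ∈ Finset.Ico (d + j) (d + h + 1), (1 + α * (v : ℝ)) =
      (1 + α * (d + j)) * P := by
    rw [Finset.prod_eq_prod_Ico_succ_bot (by omega)]
    push_cast
    rfl
  have h3 : ∏ v ∈ Finset.Ico (d + (j + 1)) (d + h + 1), (1 + α * (v : ℝ)) = P := rfl
  have h4 : ∏ i ∈ Finset.range (j + 1), (((i : ℝ) + 1) * α - 1) = Q * ((j + 1) * α - 1) := by
    rw [Finset.prod_range_succ]
  obtain ⟨k, rfl⟩ : ∃ k, h = j + k := ⟨h - j, by omega⟩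
  have e1 : j + k + 1 - j = k + 1 := by omega
  have e2 : j + k - j = k := by omega
  have e3 : j + k + 1 - (j + 1) = k := by omega
  have f1 : (j + k + 1).factorial = (j + k + 1) * (j + k).factorial := Nat.factorial_succ _
  have f2 : (k + 1).factorial = (k + 1) * k.factorial := Nat.factorial_succ _
  have f3 : (d + (j + k + 1) + j + 1).factorial =
      (d + (j + k) + j + 2) * (d + (j + k) + j + 1).factorial := by
    rw [show d + (j + k + 1) + j + 1 = (d + (j + k) + j + 1) + 1 by ring, Nat.factorial_succ]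
  have f3' : (d + (j + k) + (j + 1) + 1).factorial =
      (d + (j + k) + j + 2) * (d + (j + k) + j + 1).factorial := by
    rw [show d + (j + k) + (j + 1) + 1 = (d + (j + k) + j + 1) + 1 by ring, Nat.factorial_succ]
  have f4 : (d + (j + 1)).factorial = (d + j + 1) * (d + j).factorial := Nat.factorial_succ _
  have f5 : (j + 1).factorial = (j + 1) * j.factorial := Nat.factorial_succ _
  rw [h1, h2, h3, h4, e1, e2, e3, f1, f2, f3, f3', f4, f5]
  have n1 : (k.factorial : ℝ) ≠ 0 := by exact_mod_cast k.factorial_ne_zero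
  have n2 : (j.factorial : ℝ) ≠ 0 := by exact_mod_cast j.factorial_ne_zero
  have n3 : ((d + (j + k) + j + 1).factorial : ℝ) ≠ 0 := by
    exact_mod_cast (d + (j + k) + j + 1).factorial_ne_zero
  have n4 : (k : ℝ) + 1 ≠ 0 := by positivity
  have n5 : (j : ℝ) + 1 ≠ 0 := by positivity
  have n6 : (d : ℝ) + (j + k) + j + 2 ≠ 0 := by positivity
  push_cast
  field_simp
  ring

theorem sum_FA (α : ℝ) (d : ℕ) : ∀ h, ∑ j ∈ Finset.range (h + 1), FA α d h j = α ^ h := by
  intro h
  induction h with
  | zero =>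
    rw [zero_add, Finset.sum_range_one]
    unfold FA
    simp only [Nat.factorial_zero, Nat.cast_one, add_zero, one_mul, Finset.Ico_self,
      Finset.prod_empty, Finset.range_zero, mul_one, Nat.sub_zero, pow_zero, Nat.cast_zero,
      mul_zero, div_one]
    rw [Nat.factorial_succ]
    have n1 : (d.factorial : ℝ) ≠ 0 := by exact_mod_cast d.factorial_ne_zero
    have n2 : (d : ℝ) + 1 ≠ 0 := by positivity
    push_cast
    field_simp
  | succ h ih =>
    rw [Finset.sum_range_succ]
    have h1 : ∀ j ∈ Finset.range (h + 1), FA α d (h + 1) j =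
        α * FA α d h j + (GA α d h (j + 1) - GA α d h j) := by
      intro j hj
      rw [Finset.mem_range] at hj
      have := FA_GA α d h j (by omega)
      linarith
    rw [Finset.sum_congr rfl h1, Finset.sum_add_distrib, ← Finset.mul_sum, ih,
      Finset.sum_range_sub]
    have h2 : FA α d (h + 1) (h + 1) + GA α d h (h + 1) = 0 := by
      unfold FA GA
      have e1 : d + h + 1 = d + (h + 1) := by ring
      rw [Nat.sub_self, e1, Finset.Ico_self, Finset.prod_empty, Finset.Ico_self,
        Finset.prod_empty]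
      have f1 : (h + 1).factorial = (h + 1) * h.factorial := Nat.factorial_succ _
      have f3 : (d + (h + 1) + (h + 1) + 1).factorial =
          (d + 2 * h + 3) * (d + h + (h + 1) + 1).factorial := by
        rw [show d + (h + 1) + (h + 1) + 1 = (d + h + (h + 1) + 1) + 1 by ring,
          Nat.factorial_succ]
        congr 1
        ring
      rw [f3]
      have n1 : (((h + 1).factorial : ℕ) : ℝ) ≠ 0 := by exact_mod_cast (h + 1).factorial_ne_zero
      have n0 : ((h.factorial : ℕ) : ℝ) ≠ 0 := by exact_mod_cast h.factorial_ne_zero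
      have n2 : ((d + h + (h + 1) + 1).factorial : ℝ) ≠ 0 := by
        exact_mod_cast (d + h + (h + 1) + 1).factorial_ne_zero
      have n3 : (d : ℝ) + 2 * h + 3 ≠ 0 := by positivity
      have n5 : (h : ℝ) + 1 ≠ 0 := by positivity
      generalize (∏ i ∈ Finset.range (h + 1), (((i : ℝ) + 1) * α - 1)) = Q
      rw [f1]
      push_cast
      field_simp
      ring
    have h3 : GA α d h 0 = 0 := by
      unfold GA
      simp
    rw [h3, pow_succ]
    linarith

/-- **The sum rule**: the coefficient of `x_0 ⋯ x_(n-1)`. -/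
theorem coeff_F2_sq (α : ℝ) (d h : ℕ) :
    coeff (ind (Finset.univ : Finset (Fin (d + h + h)))) (F2 (d + h + h) α d h) =
      ((d + h + h).factorial : ℝ) * α ^ (d + h + h) := by
  unfold F2
  rw [coeff_sum]
  have h1 : ∀ j ∈ Finset.range (h + 1),
      coeff (ind (Finset.univ : Finset (Fin (d + h + h))))
        (C (cj α d h j) * S2 (d + h + h) (d + h + j) (h - j)) =
      ((d + h + h).factorial : ℝ) * α ^ (d + h) * FA α d h j := by
    intro j hj
    rw [Finset.mem_range] at hj
    have hj' : j ≤ h := by omega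
    rw [coeff_C_mul, coeff_S2_sq _ _ _ (by omega) (by omega)]
    unfold cj FA
    rw [Nat.cast_div (Nat.factorial_dvd_factorial (by omega)) (by
      exact_mod_cast j.factorial_ne_zero), Nat.cast_sub hj']
    have n1 : ((h - j).factorial : ℝ) ≠ 0 := by exact_mod_cast (h - j).factorial_ne_zero
    have n2 : (j.factorial : ℝ) ≠ 0 := by exact_mod_cast j.factorial_ne_zero
    have n3 : ((d + h + j + 1).factorial : ℝ) ≠ 0 := by
      exact_mod_cast (d + h + j + 1).factorial_ne_zero
    push_cast
    field_simp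
    ring
  rw [Finset.sum_congr rfl h1, ← Finset.mul_sum, sum_FA]
  ring

/-! ### The scalar coefficients -/

/-- Natural combinations of the falling factorials `(α)_k`, `1 ≤ k ≤ r`. -/
def MM (r : ℕ) : AddSubmonoid (ℝ → ℝ) :=
  AddSubmonoid.closure {f | ∃ k, 1 ≤ k ∧ k ≤ r ∧ f = fun α => (descPochhammer ℝ k).eval α}

theorem MM_mono {r r' : ℕ} (h : r ≤ r') : MM r ≤ MM r' := by
  refine AddSubmonoid.closure_mono ?_
  rintro f ⟨k, h1, h2, rfl⟩
  exact ⟨k, h1, h2.trans h, rfl⟩

theorem desc_mem_MM {r k : ℕ} (h1 : 1 ≤ k) (h2 : k ≤ r) :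
    (fun α => (descPochhammer ℝ k).eval α) ∈ MM r :=
  AddSubmonoid.subset_closure ⟨k, h1, h2, rfl⟩

theorem desc_step (α : ℝ) (k : ℕ) : (descPochhammer ℝ (k + 1)).eval α =
    (descPochhammer ℝ k).eval α * (α - k) := by
  rw [descPochhammer_succ_right]
  simp

theorem MM_lin {r : ℕ} {f : ℝ → ℝ} (hf : f ∈ MM r) (a b : ℕ) :
    (fun α => ((a + 1) * α - 1) * f α) ∈ MM (r + 1) ∧ (fun α => (b * α) * f α) ∈ MM (r + 1) := by
  unfold MM at hf
  induction hf using AddSubmonoid.closure_induction with
  | mem f hf =>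
    obtain ⟨k, h1, h2, rfl⟩ := hf
    have m1 := desc_mem_MM (r := r + 1) (k := k + 1) (by omega) (by omega)
    have m2 := desc_mem_MM (r := r + 1) (k := k) h1 (by omega)
    constructor
    · have h3 := add_mem (AddSubmonoid.nsmul_mem _ m1 (a + 1))
        (AddSubmonoid.nsmul_mem _ m2 ((a + 1) * k - 1))
      convert h3 using 1
      funext α
      simp only [Pi.add_apply, Pi.smul_apply]
      simp only [nsmul_eq_mul]
      rw [desc_step, Nat.cast_sub (by nlinarith)]
      push_cast
      ring
    · have h3 := add_mem (AddSubmonoid.nsmul_mem _ m1 b)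
        (AddSubmonoid.nsmul_mem _ m2 (b * k))
      convert h3 using 1
      funext α
      simp only [Pi.add_apply, Pi.smul_apply]
      simp only [nsmul_eq_mul]
      rw [desc_step]
      push_cast
      ring
  | zero =>
    constructor
    · convert (MM (r + 1)).zero_mem using 1
      funext α
      simp
    · convert (MM (r + 1)).zero_mem using 1
      funext α
      simp
  | add f g _ _ h1 h2 =>
    constructor
    · convert add_mem h1.1 h2.1 using 1
      funext α
      simp only [Pi.add_apply]
      ring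
    · convert add_mem h1.2 h2.2 using 1
      funext α
      simp only [Pi.add_apply]
      ring

theorem MM_one_add {r : ℕ} {f : ℝ → ℝ} (hf : f ∈ MM r) (b : ℕ) :
    (fun α => (1 + α * b) * f α) ∈ MM (r + 1) := by
  have h1 := add_mem (MM_mono (Nat.le_succ r) hf) (MM_lin hf 0 b).2
  convert h1 using 1
  funext α
  simp only [Pi.add_apply]
  ring

theorem MM_pow (r : ℕ) : (fun α : ℝ => α ^ (r + 1)) ∈ MM (r + 1) := by
  induction r with
  | zero =>
    have := desc_mem_MM (r := 1) (k := 1) le_rfl le_rfl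
    convert this using 1
    funext α
    simp
  | succ r ih =>
    convert (MM_lin ih 0 1).2 using 1
    funext α
    simp only [Nat.cast_one, one_mul]
    ring

theorem MM_prod1 {r : ℕ} {f : ℝ → ℝ} (hf : f ∈ MM r) (a m : ℕ) :
    (fun α => (∏ v ∈ Finset.Ico a (a + m), (1 + α * (v : ℝ))) * f α) ∈ MM (r + m) := by
  induction m with
  | zero => simpa using hf
  | succ m ih =>
    have h3 := MM_one_add ih (a + m)
    rw [add_assoc] at h3
    convert h3 using 1
    funext α
    rw [← add_assoc, Finset.prod_Ico_succ_top (by omega)]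
    push_cast
    ring

theorem MM_prod2 {r : ℕ} {f : ℝ → ℝ} (hf : f ∈ MM r) (m : ℕ) :
    (fun α => (∏ i ∈ Finset.range m, (((i : ℝ) + 1) * α - 1)) * f α) ∈ MM (r + m) := by
  induction m with
  | zero => simpa using hf
  | succ m ih =>
    have h3 := (MM_lin ih m 0).1
    rw [add_assoc] at h3
    convert h3 using 1
    funext α
    rw [Finset.prod_range_succ]
    ring

theorem cj_mem_MM (d h j : ℕ) (hdh : 1 ≤ d + h) (hj : j ≤ h) :
    (fun α => cj α d h j) ∈ MM (d + h + h) := by
  obtain ⟨r, hr⟩ : ∃ r, d + h = r + 1 := ⟨d + h - 1, by omega⟩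
  have h1 := MM_pow r
  rw [← hr] at h1
  have h2 := MM_prod2 (MM_prod1 h1 (d + j + 1) (h - j)) j
  have h3 := AddSubmonoid.nsmul_mem _ h2 (h.factorial * ((d + j).factorial / j.factorial))
  have e1 : d + h + (h - j) + j = d + h + h := by omega
  rw [e1] at h3
  convert h3 using 1
  funext α
  unfold cj
  simp only [Pi.smul_apply]
  simp only [nsmul_eq_mul]
  rw [show d + j + 1 + (h - j) = d + h + 1 by omega]
  push_cast
  ring

theorem MM_expand {r : ℕ} {f : ℝ → ℝ} (hf : f ∈ MM r) : ∃ t : ℕ → ℕ, ∀ α,
    f α = ∑ k ∈ Finset.range (r + 1), (t k : ℝ) * (descPochhammer ℝ k).eval α := by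
  classical
  unfold MM at hf
  induction hf using AddSubmonoid.closure_induction with
  | mem f hf =>
    obtain ⟨k, h1, h2, rfl⟩ := hf
    refine ⟨fun i => if i = k then 1 else 0, fun α => ?_⟩
    rw [Finset.sum_eq_single_of_mem k (Finset.mem_range.mpr (by omega))]
    · simp
    · intro i _ hi
      simp [hi]
  | zero => exact ⟨fun _ => 0, fun α => by simp⟩
  | add f g _ _ h1 h2 =>
    obtain ⟨t, ht⟩ := h1
    obtain ⟨t', ht'⟩ := h2
    refine ⟨fun k => t k + t' k, fun α => ?_⟩
    rw [Pi.add_apply, ht, ht', ← Finset.sum_add_distrib]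
    refine Finset.sum_congr rfl fun k _ => ?_
    push_cast
    ring

end Pool.Agent.JH
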