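import Mathlib
import Pool.Agent.JH.Two3

/-!
# Two-column shapes: fundamental positivity of `e_p e_q - e_(p+1) e_(q-1)`
-/

set_option autoImplicit false

open MvPolynomial

namespace Pool.Agent.JH

/-- Places `j` (from `1`) such that not (`j - 1 ∈ A` and `j ∉ A`). -/
def DD (n : ℕ) (A : Finset ℕ) : Finset ℕ :=
  (Finset.Icc 1 (n - 1)).filter fun j => ¬ (j - 1 ∈ A ∧ j ∉ A)

/-- The positions of the small values. -/
def Aof {n : ℕ} (p : ℕ) (σ : Equiv.Perm (Fin n)) : Finset ℕ :=
  (Finset.univ.filter fun i : Fin n => (σ i).1 < p).map Fin.valEmbedding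

theorem mem_Aof {n : ℕ} (p : ℕ) (σ : Equiv.Perm (Fin n)) (i : Fin n) :
    i.1 ∈ Aof p σ ↔ (σ i).1 < p := by
  unfold Aof
  simp only [Finset.mem_map, Finset.mem_filter, Finset.mem_univ, true_and, Fin.valEmbedding_apply]
  constructor
  · rintro ⟨j, hj, hji⟩
    have : j = i := Fin.ext hji
    rwa [← this]
  · intro h
    exact ⟨i, h, rfl⟩

theorem card_val_lt {n k : ℕ} (hk : k ≤ n) :
    ((Finset.univ : Finset (Fin n)).filter fun i => i.1 < k).card = k := by
  have : ((Finset.univ : Finset (Fin n)).filter fun i => i.1 < k) =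
      Finset.univ.map (Fin.castLEEmb hk) := by
    ext i
    simp only [Finset.mem_filter, Finset.mem_univ, true_and, Finset.mem_map]
    constructor
    · intro h
      exact ⟨⟨i.1, h⟩, Fin.ext rfl⟩
    · rintro ⟨j, rfl⟩
      have := j.2
      simp only [Fin.castLEEmb_apply, Fin.val_castLE]
      omega
  rw [this, Finset.card_map, Finset.card_univ, Fintype.card_fin]

theorem Aof_mem {n p : ℕ} (hp : p ≤ n) (σ : Equiv.Perm (Fin n)) :
    Aof p σ ∈ (Finset.range n).powersetCard p := by
  rw [Finset.mem_powersetCard]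
  constructor
  · intro j hj
    unfold Aof at hj
    rw [Finset.mem_map] at hj
    obtain ⟨i, _, rfl⟩ := hj
    rw [Finset.mem_range]
    exact i.2
  · unfold Aof
    rw [Finset.card_map]
    refine Eq.trans ?_ (card_val_lt hp)
    refine Finset.card_bij (fun i _ => σ i) ?_ ?_ ?_
    · intro i hi
      simpa using hi
    · intro i _ j _ hij
      exact σ.injective hij
    · intro j hj
      exact ⟨σ.symm j, by simpa using hj, by simp⟩

/-- The property of the permutations in the expansion of `e_p e_q`. -/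
def TwoP {n : ℕ} (p : ℕ) (σ : Equiv.Perm (Fin n)) : Prop :=
  ∀ i j : Fin n, i < j → ((σ i).1 < p ↔ (σ j).1 < p) → σ j < σ i

theorem twoP_of_cond {p q : ℕ} (σ : Equiv.Perm (Fin (p + q)))
    (h : Cond (p + q) (cat p (fun _ => 2) fun _ => 2) σ.symm) : TwoP p σ := by
  have h0 : Fin.append (fun i => σ.symm (Fin.castAdd q i)) (fun i => σ.symm (Fin.natAdd p i)) =
      (σ.symm : Fin (p + q) → Fin (p + q)) := Fin.append_castAdd_natAdd
  rw [← h0, cond_append, cond_two_iff, cond_two_iff] at h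
  obtain ⟨h1, h2⟩ := h
  have key1 : ∀ a b : Fin (p + q), a < b → b.1 < p → σ.symm b < σ.symm a := by
    intro a b hab hb
    have hab' : a.1 < b.1 := hab
    exact h1 (a := ⟨a.1, by omega⟩) (b := ⟨b.1, hb⟩) hab
  have key2 : ∀ a b : Fin (p + q), a < b → p ≤ a.1 → σ.symm b < σ.symm a := by
    intro a b hab ha
    have hab' : a.1 < b.1 := hab
    have e1 : Fin.natAdd p ⟨a.1 - p, by have := a.2; omega⟩ = a := by
      apply Fin.ext
      simp only [Fin.val_natAdd]
      omega
    have e2 : Fin.natAdd p ⟨b.1 - p, by have := b.2; omega⟩ = b := by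
      apply Fin.ext
      simp only [Fin.val_natAdd]
      omega
    have h3 := h2 (a := ⟨a.1 - p, by have := a.2; omega⟩) (b := ⟨b.1 - p, by have := b.2; omega⟩)
      (by rw [Fin.lt_def]; simp only; omega)
    simp only at h3
    rwa [e1, e2] at h3
  intro i j hij hp
  by_contra hcon
  have hlt : σ i < σ j := by
    refine lt_of_le_of_ne (not_lt.mp hcon) fun h3 => ?_
    exact absurd (σ.injective h3) hij.ne
  by_cases hj : (σ j).1 < p
  · have := key1 _ _ hlt hj
    simp only [Equiv.symm_apply_apply] at this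
    exact absurd this (not_lt.mpr hij.le)
  · have := key2 _ _ hlt (by
      have : ¬ (σ i).1 < p := fun h => hj (hp.mp h)
      omega)
    simp only [Equiv.symm_apply_apply] at this
    exact absurd this (not_lt.mpr hij.le)

theorem Des_eq_DD {n p : ℕ} (σ : Equiv.Perm (Fin n)) (h : TwoP p σ) :
    Des σ = DD n (Aof p σ) := by
  classical
  unfold Des DD
  refine Finset.filter_congr fun j hj => ?_
  rw [Finset.mem_Icc] at hj
  have hn : j < n := by omega
  have hn' : j - 1 < n := by omega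
  have e1 : j ∈ Aof p σ ↔ (σ ⟨j, hn⟩).1 < p := mem_Aof p σ ⟨j, hn⟩
  have e2 : j - 1 ∈ Aof p σ ↔ (σ ⟨j - 1, hn'⟩).1 < p := mem_Aof p σ ⟨j - 1, hn'⟩
  have hlt : (⟨j - 1, hn'⟩ : Fin n) < ⟨j, hn⟩ := by
    rw [Fin.lt_def]; simp only; omega
  have h3 := h _ _ hlt
  rw [e1, e2]
  constructor
  · rintro ⟨_, _, h4⟩ ⟨h5, h6⟩
    have h7 : (σ ⟨j, hn⟩).1 < (σ ⟨j - 1, hn'⟩).1 := h4
    omega
  · intro h4
    refine ⟨hn, hj.1, ?_⟩
    by_cases h5 : (σ ⟨j - 1, hn'⟩).1 < p
    · have h6 : (σ ⟨j, hn⟩).1 < p := by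
        by_contra h7
        exact h4 ⟨h5, h7⟩
      exact h3 ⟨fun _ => h6, fun _ => h5⟩
    · by_cases h6 : (σ ⟨j, hn⟩).1 < p
      · rw [Fin.lt_def]
        omega
      · exact h3 ⟨fun h => absurd h h5, fun h => absurd h h6⟩

theorem Aof_inj {n p : ℕ} (σ τ : Equiv.Perm (Fin n)) (hσ : TwoP p σ) (hτ : TwoP p τ)
    (h : Aof p σ = Aof p τ) : σ = τ := by
  classical
  have hval : ∀ ρ : Equiv.Perm (Fin n), ∀ i, (ρ i).1 =
      (Finset.univ.filter fun k => ρ k < ρ i).card := by
    intro ρ i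
    have h1 : (Finset.univ.filter fun k => ρ k < ρ i) = (Finset.Iio (ρ i)).map ρ.symm.toEmbedding := by
      ext k
      simp only [Finset.mem_filter, Finset.mem_univ, true_and, Finset.mem_map, Finset.mem_Iio,
        Equiv.coe_toEmbedding]
      constructor
      · intro h
        exact ⟨ρ k, h, by simp⟩
      · rintro ⟨a, ha, rfl⟩
        simpa using ha
    rw [h1, Finset.card_map, Fin.card_Iio]
  have hchar : ∀ ρ : Equiv.Perm (Fin n), TwoP p ρ → ∀ i k, ρ k < ρ i ↔
      ((ρ k).1 < p ∧ ¬ (ρ i).1 < p) ∨ (((ρ k).1 < p ↔ (ρ i).1 < p) ∧ i < k) := by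
    intro ρ hρ i k
    constructor
    · intro h1
      have h1' : (ρ k).1 < (ρ i).1 := h1
      by_cases h2 : (ρ k).1 < p ↔ (ρ i).1 < p
      · right
        refine ⟨h2, ?_⟩
        by_contra h3
        rcases lt_or_eq_of_le (not_lt.mp h3) with h4 | h4
        · exact absurd (hρ k i h4 h2) (not_lt.mpr h1.le)
        · rw [h4] at h1
          exact lt_irrefl _ h1
      · left
        by_cases h3 : (ρ i).1 < p
        · exact absurd ⟨fun _ => h3, fun _ => by omega⟩ h2
        · refine ⟨?_, h3⟩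
          by_contra h4
          exact h2 ⟨fun h => absurd h h4, fun h => absurd h h3⟩
    · rintro (⟨h1, h2⟩ | ⟨h1, h2⟩)
      · rw [Fin.lt_def]
        omega
      · exact hρ i k h2 h1.symm
  have hA : ∀ i : Fin n, (σ i).1 < p ↔ (τ i).1 < p := by
    intro i
    rw [← mem_Aof, ← mem_Aof, h]
  ext i
  rw [hval σ, hval τ]
  congr 1
  refine Finset.filter_congr fun k _ => ?_
  rw [hchar σ hσ, hchar τ hτ, hA, hA]

open Classical in
/-- **The fundamental expansion of `e_p e_q`.** -/
theorem ee_fund (N p q : ℕ) : esymm (Fin N) ℝ p * esymm (Fin N) ℝ q =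
    ∑ A ∈ (Finset.range (p + q)).powersetCard p, fund N (p + q) (DD (p + q) A) := by
  set Sg := (Finset.univ : Finset (Equiv.Perm (Fin (p + q)))).filter fun σ =>
    Cond (p + q) (cat p (fun _ => 2) fun _ => 2) σ.symm with hSg
  have h1 : ∀ M : ℕ, esymm (Fin M) ℝ p * esymm (Fin M) ℝ q =
      ∑ σ ∈ Sg, fund M (p + q) (Des σ) := by
    intro M
    rw [← Ee_eq_esymm, ← Ee_eq_esymm]
    unfold Ee
    rw [G_mul, G_eq_sum_fund, hSg, Finset.sum_filter]
  have hP : ∀ σ ∈ Sg, TwoP p σ := by
    intro σ hσ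
    rw [hSg, Finset.mem_filter] at hσ
    exact twoP_of_cond σ hσ.2
  have hinj : Set.InjOn (Aof p) (Sg : Set (Equiv.Perm (Fin (p + q)))) := by
    intro σ hσ τ hτ h
    exact Aof_inj σ τ (hP σ hσ) (hP τ hτ) h
  have hcard : Sg.card = (p + q).choose p := by
    have h2 := congrArg (coeff (ind (Finset.univ : Finset (Fin (p + q))))) (h1 (p + q))
    rw [coeff_ee_sq _ _ _ rfl, coeff_sum] at h2
    simp only [coeff_fund_sq, Finset.sum_const, nsmul_eq_mul, mul_one] at h2
    exact_mod_cast h2.symm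
  have himg : Sg.image (Aof p) = (Finset.range (p + q)).powersetCard p := by
    refine Finset.eq_of_subset_of_card_le ?_ ?_
    · intro A hA
      obtain ⟨σ, _, rfl⟩ := Finset.mem_image.mp hA
      exact Aof_mem (by omega) σ
    · rw [Finset.card_powersetCard, Finset.card_range, Finset.card_image_of_injOn hinj, hcard]
  rw [h1 N, ← himg, Finset.sum_image hinj]
  exact Finset.sum_congr rfl fun σ hσ => by rw [Des_eq_DD σ (hP σ hσ)]

/-! ### The injection -/

/-- The height after `k` steps. -/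
def Ht (A : Finset ℕ) (k : ℕ) : ℤ := ∑ j ∈ Finset.range k, if j ∈ A then 1 else -1

theorem Ht_succ (A : Finset ℕ) (k : ℕ) : Ht A (k + 1) = Ht A k + if k ∈ A then 1 else -1 := by
  unfold Ht
  rw [Finset.sum_range_succ]

theorem Ht_total {n : ℕ} {A : Finset ℕ} (hA : A ⊆ Finset.range n) : Ht A n = 2 * A.card - n := by
  classical
  unfold Ht
  rw [Finset.sum_ite]
  have h1 : (Finset.range n).filter (fun j => j ∈ A) = A := by
    ext j
    rw [Finset.mem_filter]
    exact ⟨fun h => h.2, fun h => ⟨hA h, h⟩⟩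
  have h2 := Finset.card_filter_add_card_filter_not (s := Finset.range n) (fun j => j ∈ A)
  rw [h1, Finset.card_range] at h2
  rw [h1, Finset.sum_const, Finset.sum_const]
  simp only [nsmul_eq_mul, mul_one, mul_neg]
  omega

/-- `k` is the last place at which the height is minimal. -/
def LM (n : ℕ) (A : Finset ℕ) (k : ℕ) : Prop :=
  k + 2 ≤ n ∧ (∀ i, i ≤ k → Ht A k ≤ Ht A i) ∧ ∀ i, k < i → i ≤ n → Ht A k < Ht A i

theorem exists_LM {n : ℕ} {A : Finset ℕ} (h : 2 ≤ Ht A n) : ∃ k, LM n A k := by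
  classical
  have h0 : Ht A 0 = 0 := by simp [Ht]
  set P : ℕ → Prop := fun k => ∀ i, i ≤ k → Ht A k ≤ Ht A i with hP
  have hP0 : P 0 := by
    intro i hi
    have : i = 0 := by omega
    rw [this]
  set k := Nat.findGreatest P n with hk
  have hPk : P k := Nat.findGreatest_spec (P := P) (Nat.zero_le n) hP0
  have hgt : ∀ i, k < i → i ≤ n → Ht A k < Ht A i := by
    intro i
    induction i using Nat.strong_induction_on with
    | _ i ih =>
      intro h1 h2
      by_contra h3
      push Not at h3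
      refine Nat.findGreatest_is_greatest (P := P) h1 h2 fun j hj => ?_
      rcases Nat.lt_or_ge k j with h4 | h4
      · rcases Nat.lt_or_ge j i with h5 | h5
        · exact h3.trans (ih j h5 h4 (by omega)).le
        · have : j = i := by omega
          rw [this]
      · exact h3.trans (hPk j h4)
  have hk0 : Ht A k ≤ 0 := by rw [← h0]; exact hPk 0 (Nat.zero_le _)
  have hkn : k ≤ n := Nat.findGreatest_le n
  refine ⟨k, ?_, hPk, hgt⟩
  by_contra hcon
  have hc : k = n ∨ k + 1 = n := by omega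
  rcases hc with hc | hc
  · rw [hc] at hk0
    omega
  · have h3 := Ht_succ A k
    rw [hc] at h3
    split_ifs at h3 <;> omega

section LM

variable {n : ℕ} {A : Finset ℕ} {k : ℕ} (h : LM n A k)

include h

theorem LM.mem : k ∈ A := by
  by_contra hcon
  have h1 := h.2.2 (k + 1) (by omega) (by have := h.1; omega)
  rw [Ht_succ, if_neg hcon] at h1
  omega

theorem LM.mem_succ : k + 1 ∈ A := by
  by_contra hcon
  have h1 := h.2.2 (k + 1 + 1) (by omega) (by have := h.1; omega)
  rw [Ht_succ, Ht_succ, if_neg hcon, if_pos h.mem] at h1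
  omega

theorem LM.not_mem_pred (hk : 1 ≤ k) : k - 1 ∉ A := by
  intro hcon
  obtain ⟨m, rfl⟩ : ∃ m, k = m + 1 := ⟨k - 1, by omega⟩
  have h1 := h.2.1 m (by omega)
  rw [Nat.add_sub_cancel] at hcon
  rw [Ht_succ, if_pos hcon] at h1
  omega

theorem LM.DD_erase : DD n (A.erase k) = DD n A := by
  unfold DD
  refine Finset.filter_congr fun j hj => ?_
  rw [Finset.mem_Icc] at hj
  rw [Finset.mem_erase, Finset.mem_erase, not_iff_not]
  by_cases h1 : j = k
  · subst h1
    have h2 := h.mem
    have h3 := h.not_mem_pred hj.1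
    tauto
  · by_cases h2 : j - 1 = k
    · have h3 := h.mem_succ
      have h4 : j = k + 1 := by omega
      subst h4
      tauto
    · tauto

theorem LM.Ht_le (i : ℕ) (hi : i ≤ k) : Ht (A.erase k) i = Ht A i := by
  unfold Ht
  refine Finset.sum_congr rfl fun j hj => ?_
  rw [Finset.mem_range] at hj
  have : j ≠ k := by omega
  have h2 : j ∈ A.erase k ↔ j ∈ A := by rw [Finset.mem_erase]; tauto
  by_cases h1 : j ∈ A
  · rw [if_pos h1, if_pos (h2.mpr h1)]
  · rw [if_neg h1, if_neg (fun h3 => h1 (h2.mp h3))]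

theorem LM.Ht_gt (i : ℕ) : Ht (A.erase k) (k + 1 + i) = Ht A (k + 1 + i) - 2 := by
  induction i with
  | zero =>
    rw [add_zero, Ht_succ, Ht_succ, h.Ht_le k le_rfl, if_pos h.mem, if_neg (by simp)]
    ring
  | succ i ih =>
    rw [← add_assoc, Ht_succ, Ht_succ, ih]
    have : k + 1 + i ≠ k := by omega
    have h2 : k + 1 + i ∈ A.erase k ↔ k + 1 + i ∈ A := by rw [Finset.mem_erase]; tauto
    by_cases h1 : k + 1 + i ∈ A
    · rw [if_pos (h2.mpr h1), if_pos h1]
      ring
    · rw [if_neg (fun h3 => h1 (h2.mp h3)), if_neg h1]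
      ring

omit h in
theorem LM.down : Ht (A.erase k) (k + 1) = Ht (A.erase k) k - 1 := by
  rw [Ht_succ, if_neg (by simp)]
  ring

theorem LM.low (i : ℕ) (hi : i ≤ n) : Ht (A.erase k) (k + 1) ≤ Ht (A.erase k) i := by
  rw [LM.down]
  rcases Nat.lt_or_ge k i with h1 | h1
  · obtain ⟨m, rfl⟩ : ∃ m, i = k + 1 + m := ⟨i - (k + 1), by omega⟩
    rw [h.Ht_gt, h.Ht_le k le_rfl]
    have := h.2.2 (k + 1 + m) (by omega) hi
    omega
  · rw [h.Ht_le k le_rfl, h.Ht_le i h1]
    have := h.2.1 i h1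
    omega

theorem LM.high (i : ℕ) (hi : i ≤ k) : Ht (A.erase k) (k + 1) < Ht (A.erase k) i := by
  rw [LM.down, h.Ht_le k le_rfl, h.Ht_le i hi]
  have := h.2.1 i hi
  omega

end LM

theorem LM.inj {n : ℕ} {A A' : Finset ℕ} {k k' : ℕ} (h : LM n A k) (h' : LM n A' k')
    (he : A.erase k = A'.erase k') : A = A' := by
  have hk : k = k' := by
    rcases lt_trichotomy k k' with h1 | h1 | h1
    · exfalso
      have h2 := h'.high (k + 1) (by omega)
      have h3 := h.low (k' + 1) (by have := h'.1; omega)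
      rw [← he] at h2
      omega
    · exact h1
    · exfalso
      have h2 := h.high (k' + 1) (by omega)
      have h3 := h'.low (k + 1) (by have := h.1; omega)
      rw [← he] at h3
      omega
  rw [← Finset.insert_erase h.mem, ← Finset.insert_erase h'.mem, he, hk]

open Classical in
/-- The injection. -/
noncomputable def fl (n : ℕ) (A : Finset ℕ) : Finset ℕ :=
  if h : ∃ k, LM n A k then A.erase h.choose else A

/-- **The fundamental expansion of `e_p e_q - e_(p+1) e_(q-1)`.** -/
theorem S2_fund (p q : ℕ) (hqp : q ≤ p) : ∃ 𝒜 : Finset (Finset ℕ), ∀ N,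
    S2 N p q = ∑ A ∈ 𝒜, fund N (p + q) (DD (p + q) A) := by
  classical
  unfold S2
  by_cases hq : q = 0
  · refine ⟨(Finset.range (p + q)).powersetCard p, fun N => ?_⟩
    rw [if_pos hq, sub_zero, ee_fund]
  · set n := p + q with hn
    set PB := (Finset.range n).powersetCard (p + 1) with hPB
    have hex : ∀ A ∈ PB, ∃ k, LM n A k := by
      intro A hA
      rw [hPB, Finset.mem_powersetCard] at hA
      apply exists_LM
      rw [Ht_total hA.1, hA.2]
      push_cast
      omega
    have hfl : ∀ A ∈ PB, ∃ k, LM n A k ∧ fl n A = A.erase k := by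
      intro A hA
      refine ⟨(hex A hA).choose, (hex A hA).choose_spec, ?_⟩
      unfold fl
      rw [dif_pos (hex A hA)]
    have hinj : Set.InjOn (fl n) (PB : Set (Finset ℕ)) := by
      intro A hA A' hA' he
      obtain ⟨k, hk, hk2⟩ := hfl A hA
      obtain ⟨k', hk', hk2'⟩ := hfl A' hA'
      rw [hk2, hk2'] at he
      exact hk.inj hk' he
    have hsub : PB.image (fl n) ⊆ (Finset.range n).powersetCard p := by
      intro B hB
      obtain ⟨A, hA, rfl⟩ := Finset.mem_image.mp hB
      obtain ⟨k, hk, hk2⟩ := hfl A hA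
      rw [hPB, Finset.mem_powersetCard] at hA
      rw [hk2, Finset.mem_powersetCard]
      refine ⟨(Finset.erase_subset _ _).trans hA.1, ?_⟩
      rw [Finset.card_erase_of_mem hk.mem, hA.2]
      omega
    refine ⟨(Finset.range n).powersetCard p \ PB.image (fl n), fun N => ?_⟩
    have h1 := ee_fund N p q
    have h2 := ee_fund N (p + 1) (q - 1)
    have e : p + 1 + (q - 1) = n := by omega
    rw [e] at h2
    rw [if_neg hq, h1, h2, ← Finset.sum_sdiff hsub, Finset.sum_image hinj]
    have h3 : ∑ A ∈ PB, fund N n (DD n (fl n A)) = ∑ A ∈ PB, fund N n (DD n A) := by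
      refine Finset.sum_congr rfl fun A hA => ?_
      obtain ⟨k, hk, hk2⟩ := hfl A hA
      rw [hk2, hk.DD_erase]
    rw [h3]
    ring

theorem S2_expand (p q : ℕ) (hqp : q ≤ p) : ∃ s : Finset ℕ → ℕ, ∀ N,
    S2 N p q = ∑ S ∈ (Finset.Icc 1 (p + q - 1)).powerset, C (s S : ℝ) * fund N (p + q) S := by
  classical
  obtain ⟨𝒜, h𝒜⟩ := S2_fund p q hqp
  refine ⟨fun S => (𝒜.filter fun A => DD (p + q) A = S).card, fun N => ?_⟩
  rw [h𝒜 N, ← Finset.sum_fiberwise_of_maps_to (g := DD (p + q))
    (t := (Finset.Icc 1 (p + q - 1)).powerset)]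
  · refine Finset.sum_congr rfl fun S _ => ?_
    have : ∀ A ∈ 𝒜.filter (fun A => DD (p + q) A = S),
        fund N (p + q) (DD (p + q) A) = fund N (p + q) S := by
      intro A hA
      rw [(Finset.mem_filter.mp hA).2]
    rw [Finset.sum_congr rfl this, Finset.sum_const, nsmul_eq_mul, map_natCast]
  · intro A _
    rw [Finset.mem_powerset]
    exact Finset.filter_subset _ _

end Pool.Agent.JH
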