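import Mathlib
import Pool.Agent.JH.Two4

/-!
# The expansion of the two-column Jack polynomials
-/

set_option autoImplicit false

open MvPolynomial

namespace Pool.Agent.JH

theorem two_expand {μ : YoungDiagram} (h0 : (0, 0) ∈ μ) (h2 : (0, 2) ∉ μ) :
    ∃ c : ℕ → Finset ℕ → ℕ,
      (∀ k, ∑ S ∈ (Finset.Icc 1 (μ.card - 1)).powerset, c k S =
        μ.card.factorial * Nat.stirlingSecond μ.card k) ∧
      ∀ (N : ℕ) (α : ℝ), α ≠ 0 →
        C (α ^ μ.card) * (C ((α ^ μ.card)⁻¹) *
          F2 N α (μ.colLen 0 - μ.colLen 1) (μ.colLen 1)) =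
        ∑ k ∈ Finset.range (μ.card + 1), ∑ S ∈ (Finset.Icc 1 (μ.card - 1)).powerset,
          C ((c k S : ℝ) * (descPochhammer ℝ k).eval α) * fund N μ.card S := by
  classical
  have hc : 0 < μ.colLen 0 := YoungDiagram.mem_iff_lt_colLen.mp h0
  have hle := col_le (μ := μ)
  have hcard : μ.card = (μ.colLen 0 - μ.colLen 1) + μ.colLen 1 + μ.colLen 1 := by
    rw [two_card h2]
    omega
  have hdh : 1 ≤ (μ.colLen 0 - μ.colLen 1) + μ.colLen 1 := by omega
  rw [hcard]
  generalize μ.colLen 0 - μ.colLen 1 = d at hdh ⊢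
  generalize μ.colLen 1 = h at hdh ⊢
  clear hcard hle hc
  choose! t ht using fun j (hj : j ≤ h) => MM_expand (cj_mem_MM d h j hdh hj)
  choose! s hs using fun j (hj : j ≤ h) => S2_expand (d + h + j) (h - j) (by omega)
  have hs' : ∀ j, j ≤ h → ∀ N, S2 N (d + h + j) (h - j) =
      ∑ S ∈ (Finset.Icc 1 (d + h + h - 1)).powerset, C (s j S : ℝ) * fund N (d + h + h) S := by
    intro j hj N
    have e : d + h + j + (h - j) = d + h + h := by omega
    have := hs j hj N
    rwa [e] at this
  set c' : ℕ → Finset ℕ → ℕ := fun k S => ∑ j ∈ Finset.range (h + 1), t j k * s j S with hc'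
  have hexp : ∀ (N : ℕ) (α : ℝ), F2 N α d h =
      ∑ k ∈ Finset.range (d + h + h + 1), ∑ S ∈ (Finset.Icc 1 (d + h + h - 1)).powerset,
        C ((c' k S : ℝ) * (descPochhammer ℝ k).eval α) * fund N (d + h + h) S := by
    intro N α
    unfold F2
    have h3 : ∀ j ∈ Finset.range (h + 1), C (cj α d h j) * S2 N (d + h + j) (h - j) =
        ∑ k ∈ Finset.range (d + h + h + 1), ∑ S ∈ (Finset.Icc 1 (d + h + h - 1)).powerset,
          C (((t j k * s j S : ℕ) : ℝ) * (descPochhammer ℝ k).eval α) * fund N (d + h + h) S := by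
      intro j hj
      rw [Finset.mem_range] at hj
      rw [ht j (by omega) α, hs' j (by omega) N, map_sum, Finset.sum_mul]
      refine Finset.sum_congr rfl fun k _ => ?_
      rw [Finset.mul_sum]
      refine Finset.sum_congr rfl fun S _ => ?_
      push_cast
      simp only [map_mul]
      ring
    rw [Finset.sum_congr rfl h3, Finset.sum_comm]
    refine Finset.sum_congr rfl fun k _ => ?_
    rw [Finset.sum_comm]
    refine Finset.sum_congr rfl fun S _ => ?_
    rw [hc']
    simp only
    push_cast
    rw [Finset.sum_mul, map_sum, Finset.sum_mul]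
  -- the sum rule
  have hsum : ∀ k, k ≤ d + h + h → ∑ S ∈ (Finset.Icc 1 (d + h + h - 1)).powerset, c' k S =
      (d + h + h).factorial * Nat.stirlingSecond (d + h + h) k := by
    have h2 : ∀ m : ℕ, ∑ k ∈ Finset.range (d + h + h + 1),
        ((∑ S ∈ (Finset.Icc 1 (d + h + h - 1)).powerset, (c' k S : ℝ)) -
          (d + h + h).factorial * Nat.stirlingSecond (d + h + h) k) *
          (descPochhammer ℝ k).eval (m : ℝ) = 0 := by
      intro m
      have h3 := congrArg (coeff (ind (Finset.univ : Finset (Fin (d + h + h)))))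
        (hexp (d + h + h) m)
      rw [coeff_F2_sq, coeff_sum] at h3
      have h5 : ∀ k ∈ Finset.range (d + h + h + 1),
          coeff (ind (Finset.univ : Finset (Fin (d + h + h))))
          (∑ S ∈ (Finset.Icc 1 (d + h + h - 1)).powerset,
            C ((c' k S : ℝ) * (descPochhammer ℝ k).eval (m : ℝ)) *
              fund (d + h + h) (d + h + h) S) =
          (∑ S ∈ (Finset.Icc 1 (d + h + h - 1)).powerset, (c' k S : ℝ)) *
            (descPochhammer ℝ k).eval (m : ℝ) := by
        intro k _
        rw [coeff_sum, Finset.sum_mul]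
        refine Finset.sum_congr rfl fun S _ => ?_
        rw [coeff_C_mul, coeff_fund_sq, mul_one]
      rw [Finset.sum_congr rfl h5] at h3
      have h6 := pow_eq_sum_stirling (m : ℝ) (d + h + h)
      have h7 : ∑ k ∈ Finset.range (d + h + h + 1),
          ((∑ S ∈ (Finset.Icc 1 (d + h + h - 1)).powerset, (c' k S : ℝ)) -
            (d + h + h).factorial * Nat.stirlingSecond (d + h + h) k) *
            (descPochhammer ℝ k).eval (m : ℝ) =
          ∑ k ∈ Finset.range (d + h + h + 1),
            (∑ S ∈ (Finset.Icc 1 (d + h + h - 1)).powerset, (c' k S : ℝ)) *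
            (descPochhammer ℝ k).eval (m : ℝ) - (d + h + h).factorial *
          ∑ k ∈ Finset.range (d + h + h + 1),
            (Nat.stirlingSecond (d + h + h) k : ℝ) * (descPochhammer ℝ k).eval (m : ℝ) := by
        rw [Finset.mul_sum, ← Finset.sum_sub_distrib]
        refine Finset.sum_congr rfl fun k _ => ?_
        ring
      rw [h7, ← h3, ← h6]
      ring
    intro k hk
    have h8 := descPochhammer_unique (d + h + h) _ h2 k hk
    have h9 : (∑ S ∈ (Finset.Icc 1 (d + h + h - 1)).powerset, (c' k S : ℝ)) =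
        (d + h + h).factorial * Nat.stirlingSecond (d + h + h) k := by linarith
    exact_mod_cast h9
  refine ⟨fun k S => if k ≤ d + h + h then c' k S else 0, fun k => ?_, fun N α hα => ?_⟩
  · simp only
    by_cases hk : k ≤ d + h + h
    · simp only [hk, if_true]
      exact hsum k hk
    · simp only [hk, if_false, Finset.sum_const_zero]
      rw [Nat.stirlingSecond_eq_zero_of_lt (by omega), mul_zero]
  · have hp : α ^ (d + h + h) ≠ 0 := pow_ne_zero _ hα
    rw [← mul_assoc, ← map_mul, mul_inv_cancel₀ hp, map_one, one_mul, hexp]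
    refine Finset.sum_congr rfl fun k hk => Finset.sum_congr rfl fun S _ => ?_
    rw [Finset.mem_range] at hk
    simp only
    rw [if_pos (show k ≤ d + h + h by omega)]

end Pool.Agent.JH
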