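import Mathlib
import Pool.Agent.JH.Jack

/-!
# Uniqueness of the Jack polynomials
-/

set_option autoImplicit false

open MvPolynomial Filter Topology

namespace Pool.Agent.JH

/-! ### Asymptotics -/

/-- The pairing of a weight with an exponent. -/
def wp {N : ℕ} (w : Fin N → ℕ) (m : Fin N →₀ ℕ) : ℕ := ∑ i, w i * m i

theorem eval_tpow {N : ℕ} (w : Fin N → ℕ) (p : MvPolynomial (Fin N) ℝ) (t : ℝ) :
    eval (fun i => t ^ w i) p = ∑ m ∈ p.support, coeff m p * t ^ wp w m := by
  rw [eval_eq']
  refine Finset.sum_congr rfl fun m _ => ?_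
  congr 1
  unfold wp
  rw [← Finset.prod_pow_eq_pow_sum]
  refine Finset.prod_congr rfl fun i _ => ?_
  rw [pow_mul]

theorem lim_eval {N : ℕ} (w : Fin N → ℕ) (p : MvPolynomial (Fin N) ℝ) (lam : Fin N →₀ ℕ)
    (h : ∀ m ∈ p.support, m ≠ lam → wp w m < wp w lam) :
    Tendsto (fun t : ℝ => eval (fun i => t ^ w i) p / t ^ wp w lam) atTop (𝓝 (coeff lam p)) := by
  classical
  have h1 : ∀ m ∈ p.support, Tendsto (fun t : ℝ => coeff m p * (t ^ wp w m / t ^ wp w lam)) atTop
      (𝓝 (if m = lam then coeff m p else 0)) := by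
    intro m hm
    by_cases hml : m = lam
    · rw [if_pos hml]
      refine Tendsto.congr' ?_ tendsto_const_nhds
      filter_upwards [eventually_gt_atTop (0 : ℝ)] with t ht
      rw [hml, div_self (pow_ne_zero _ ht.ne'), mul_one]
    · rw [if_neg hml]
      have := (tendsto_pow_div_pow_atTop_zero (h m hm hml) (𝕜 := ℝ)).const_mul (coeff m p)
      rwa [mul_zero] at this
  have h2 := tendsto_finsetSum _ h1
  have h3 : ∑ m ∈ p.support, (if m = lam then coeff m p else 0) = coeff lam p := by
    rw [Finset.sum_ite_eq']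
    split_ifs with h4
    · rfl
    · rw [notMem_support_iff] at h4
      exact h4.symm
  rw [h3] at h2
  refine h2.congr fun t => ?_
  rw [eval_tpow, Finset.sum_div]
  refine Finset.sum_congr rfl fun m _ => ?_
  rw [mul_div_assoc]

theorem lim_ratio {a b : ℕ} (h : b < a) :
    Tendsto (fun t : ℝ => t ^ a / (t ^ a - t ^ b)) atTop (𝓝 1) := by
  have h1 : Tendsto (fun t : ℝ => 1 / (1 - t ^ b / t ^ a)) atTop (𝓝 (1 / (1 - 0))) := by
    refine Tendsto.div tendsto_const_nhds ?_ (by norm_num)
    exact tendsto_const_nhds.sub (tendsto_pow_div_pow_atTop_zero h)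
  rw [sub_zero, div_one] at h1
  refine h1.congr' ?_
  filter_upwards [eventually_gt_atTop (1 : ℝ)] with t ht
  have ht0 : t ^ a ≠ 0 := pow_ne_zero _ (by linarith)
  have h2 : t ^ b < t ^ a := pow_lt_pow_right₀ ht h
  have h3 : t ^ a - t ^ b ≠ 0 := by linarith
  have h4 : 1 - t ^ b / t ^ a ≠ 0 := by
    intro h5
    apply h3
    field_simp at h5
    linarith
  field_simp

theorem lim_ratio' {a b : ℕ} (h : a < b) :
    Tendsto (fun t : ℝ => t ^ a / (t ^ a - t ^ b)) atTop (𝓝 0) := by
  have h1 : Tendsto (fun t : ℝ => (t ^ a / t ^ b) / (t ^ a / t ^ b - 1)) atTop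
      (𝓝 (0 / (0 - 1))) := by
    refine Tendsto.div (tendsto_pow_div_pow_atTop_zero h) ?_ (by norm_num)
    exact (tendsto_pow_div_pow_atTop_zero h).sub tendsto_const_nhds
  rw [zero_div] at h1
  refine h1.congr' ?_
  filter_upwards [eventually_gt_atTop (1 : ℝ)] with t ht
  have ht0 : t ^ b ≠ 0 := pow_ne_zero _ (by linarith)
  have h2 : t ^ a < t ^ b := pow_lt_pow_right₀ ht h
  have h3 : t ^ a - t ^ b ≠ 0 := by linarith
  have h4 : t ^ a / t ^ b - 1 ≠ 0 := by
    intro h5
    apply h3
    field_simp at h5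
    linarith
  field_simp

/-- The eigenvalue of the Laplace-Beltrami operator at an exponent. -/
noncomputable def ev {N : ℕ} (a : ℝ) (m : Fin N → ℕ) : ℝ :=
  a / 2 * ∑ i, ((m i : ℝ) ^ 2 - m i) + ∑ i : Fin N, (m i : ℝ) * (N - 1 - i)

theorem card_gt {N : ℕ} (i : Fin N) :
    ∑ j ∈ Finset.univ.erase i, (if i < j then (1 : ℝ) else 0) = N - 1 - i := by
  classical
  rw [← Finset.sum_filter, Finset.sum_const, nsmul_eq_mul, mul_one]
  have : (Finset.univ.erase i).filter (fun j => i < j) = Finset.Ioi i := by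
    ext j
    simp only [Finset.mem_filter, Finset.mem_erase, Finset.mem_univ, and_true, Finset.mem_Ioi]
    constructor
    · exact fun h => h.2
    · exact fun h => ⟨h.ne', h⟩
  rw [this, Fin.card_Ioi]
  have := i.2
  rw [Nat.cast_sub (by omega), Nat.cast_sub (by omega)]
  push_cast
  ring

/-- **The eigenvalue is read off at the highest exponent.** -/
theorem eigen_lead {N : ℕ} (a e : ℝ) (D : MvPolynomial (Fin N) ℝ)
    (hD : ∀ x : Fin N → ℝ, Function.Injective x →
      a / 2 * ∑ i, x i ^ 2 * eval x (pderiv i (pderiv i D)) +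
        ∑ i, ∑ j ∈ Finset.univ.erase i, x i ^ 2 / (x i - x j) * eval x (pderiv i D) =
      e * eval x D) (w : Fin N → ℕ) (hw : StrictAnti w) (lam : Fin N →₀ ℕ)
    (hlam : lam ∈ D.support) (hmax : ∀ m ∈ D.support, m ≠ lam → wp w m < wp w lam) :
    e = ev a lam := by
  classical
  set W := wp w lam with hW
  -- the three limits
  have hsub1 : ∀ i, ∀ m ∈ (X i * pderiv i D).support, m ≠ lam → wp w m < wp w lam := by
    intro i m hm hne
    refine hmax m ?_ hne
    rw [mem_support_iff, coeff_X_mul_pderiv] at hm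
    rw [mem_support_iff]
    exact right_ne_zero_of_mul hm
  have hc2 : ∀ i m, coeff m (X i ^ 2 * pderiv i (pderiv i D)) = ((m i : ℝ) ^ 2 - m i) *
      coeff m D := by
    intro i m
    have h1 : X i ^ 2 * pderiv i (pderiv i D) =
        X i * pderiv i (X i * pderiv i D) - X i * pderiv i D := by
      rw [pderiv_mul, pderiv_X_self]
      ring
    rw [h1, coeff_sub, coeff_X_mul_pderiv, coeff_X_mul_pderiv]
    ring
  have hsub2 : ∀ i, ∀ m ∈ (X i ^ 2 * pderiv i (pderiv i D)).support, m ≠ lam →
      wp w m < wp w lam := by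
    intro i m hm hne
    refine hmax m ?_ hne
    rw [mem_support_iff, hc2] at hm
    rw [mem_support_iff]
    exact right_ne_zero_of_mul hm
  have l0 := (lim_eval w D lam hmax).const_mul e
  have l1 := fun i => lim_eval w _ lam (hsub1 i)
  have l2 := fun i => lim_eval w _ lam (hsub2 i)
  have l3 : ∀ i j : Fin N, i ≠ j → Tendsto (fun t : ℝ => t ^ w i / (t ^ w i - t ^ w j)) atTop
      (𝓝 (if i < j then 1 else 0)) := by
    intro i j hij
    by_cases h : i < j
    · rw [if_pos h]
      exact lim_ratio (hw h)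
    · rw [if_neg h]
      exact lim_ratio' (hw (lt_of_le_of_ne (not_lt.mp h) hij.symm))
  have l4 : Tendsto (fun t : ℝ => a / 2 * ∑ i, eval (fun i => t ^ w i)
      (X i ^ 2 * pderiv i (pderiv i D)) / t ^ W +
      ∑ i, ∑ j ∈ Finset.univ.erase i, t ^ w i / (t ^ w i - t ^ w j) *
        (eval (fun i => t ^ w i) (X i * pderiv i D) / t ^ W)) atTop
      (𝓝 (a / 2 * ∑ i, coeff lam (X i ^ 2 * pderiv i (pderiv i D)) +
        ∑ i, ∑ j ∈ Finset.univ.erase i, (if i < j then 1 else 0) *
          coeff lam (X i * pderiv i D))) := by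
    refine Tendsto.add (Tendsto.const_mul _ (tendsto_finsetSum _ fun i _ => l2 i)) ?_
    refine tendsto_finsetSum _ fun i _ => tendsto_finsetSum _ fun j hj => ?_
    exact (l3 i j (Finset.ne_of_mem_erase hj).symm).mul (l1 i)
  have l5 : Tendsto (fun t : ℝ => a / 2 * ∑ i, eval (fun i => t ^ w i)
      (X i ^ 2 * pderiv i (pderiv i D)) / t ^ W +
      ∑ i, ∑ j ∈ Finset.univ.erase i, t ^ w i / (t ^ w i - t ^ w j) *
        (eval (fun i => t ^ w i) (X i * pderiv i D) / t ^ W)) atTop
      (𝓝 (e * coeff lam D)) := by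
    refine l0.congr' ?_
    filter_upwards [eventually_gt_atTop (1 : ℝ)] with t ht
    have hinj : Function.Injective fun i : Fin N => t ^ w i := by
      intro i j hij
      exact hw.injective (pow_right_injective₀ (by linarith) (by linarith) hij)
    have h1 := hD _ hinj
    have ht0 : t ≠ 0 := by linarith
    rw [← mul_div_assoc, ← h1, add_div, mul_div_assoc, Finset.sum_div, Finset.sum_div]
    congr 1
    · congr 1
      refine Finset.sum_congr rfl fun i _ => ?_
      rw [map_mul, map_pow, eval_X]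
    · refine Finset.sum_congr rfl fun i _ => ?_
      rw [Finset.sum_div]
      refine Finset.sum_congr rfl fun j _ => ?_
      rw [map_mul, eval_X]
      ring
  have l6 := tendsto_nhds_unique l4 l5
  have hne : coeff lam D ≠ 0 := mem_support_iff.mp hlam
  have h7 : ev a lam * coeff lam D = e * coeff lam D := by
    rw [← l6]
    unfold ev
    rw [add_mul, mul_assoc, Finset.sum_mul, Finset.sum_mul]
    congr 1
    · congr 1
      refine Finset.sum_congr rfl fun i _ => ?_
      rw [hc2]
    · refine Finset.sum_congr rfl fun i _ => ?_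
      rw [← Finset.sum_mul, card_gt, coeff_X_mul_pderiv]
      ring
  exact (mul_right_cancel₀ hne h7).symm

/-! ### Choice of the weight -/

theorem wt_inj (n B : ℕ) (hB : n < B) : ∀ (N : ℕ) (m m' : Fin N → ℕ), ∑ i, m i ≤ n →
    ∑ i, m' i ≤ n → ∑ i, B ^ (N - 1 - i.1) * m i = ∑ i, B ^ (N - 1 - i.1) * m' i → m = m' := by
  have hbound : ∀ (N : ℕ) (m : Fin N → ℕ), ∑ i, m i ≤ n →
      ∑ i, B ^ (N - 1 - i.1) * m i < B ^ N := by
    intro N m hm
    cases N with
    | zero => simp
    | succ N =>
      calc ∑ i : Fin (N + 1), B ^ (N + 1 - 1 - i.1) * m i ≤ ∑ i : Fin (N + 1), B ^ N * m i := by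
            refine Finset.sum_le_sum fun i _ => Nat.mul_le_mul_right _ ?_
            exact Nat.pow_le_pow_right (by omega) (by omega)
        _ = B ^ N * ∑ i, m i := by rw [Finset.mul_sum]
        _ ≤ B ^ N * n := Nat.mul_le_mul_left _ hm
        _ < B ^ N * B := Nat.mul_lt_mul_of_pos_left hB (Nat.pow_pos (by omega))
        _ = B ^ (N + 1) := (pow_succ B N).symm
  intro N
  induction N with
  | zero => intro m m' _ _ _; funext i; exact i.elim0
  | succ N ih =>
    intro m m' hm hm' h
    rw [Fin.sum_univ_succ] at hm hm' h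
    rw [Fin.sum_univ_succ (f := fun i : Fin (N + 1) => B ^ (N + 1 - 1 - i.1) * m' i)] at h
    have e1 : ∀ q : Fin (N + 1) → ℕ, ∑ i : Fin N, B ^ (N + 1 - 1 - (i.succ).1) * q i.succ =
        ∑ i : Fin N, B ^ (N - 1 - i.1) * q i.succ := by
      intro q
      refine Finset.sum_congr rfl fun i _ => ?_
      congr 2
      rw [Fin.val_succ]
      omega
    rw [e1, e1] at h
    simp only [Fin.val_zero, Nat.sub_zero, Nat.add_sub_cancel] at h
    have b1 := hbound N (fun i => m i.succ) (by omega)
    have b2 := hbound N (fun i => m' i.succ) (by omega)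
    set R := ∑ i : Fin N, B ^ (N - 1 - i.1) * m i.succ
    set R' := ∑ i : Fin N, B ^ (N - 1 - i.1) * m' i.succ
    have hp : 0 < B ^ N := Nat.pow_pos (by omega)
    have h2 : m 0 = m' 0 := by
      have h3 : (B ^ N * m 0 + R) / B ^ N = (B ^ N * m' 0 + R') / B ^ N := by rw [h]
      rwa [Nat.mul_add_div hp, Nat.mul_add_div hp, Nat.div_eq_of_lt b1, Nat.div_eq_of_lt b2,
        add_zero, add_zero] at h3
    have h4 : R = R' := by
      rw [h2] at h
      omega
    have h5 := ih (fun i => m i.succ) (fun i => m' i.succ) (by omega) (by omega) h4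
    funext i
    refine Fin.cases h2 (fun j => ?_) i
    exact congrFun h5 j

theorem exists_weight {N : ℕ} (n : ℕ) (D : MvPolynomial (Fin N) ℝ) (hne : D ≠ 0)
    (hD : ∀ m ∈ D.support, ∑ i, m i ≤ n) : ∃ w : Fin N → ℕ, StrictAnti w ∧ ∃ lam ∈ D.support,
      ∀ m ∈ D.support, m ≠ lam → wp w m < wp w lam := by
  classical
  set w : Fin N → ℕ := fun i => (n + 2) ^ (N - 1 - i.1) with hwdef
  refine ⟨w, ?_, ?_⟩
  · intro i j hij
    simp only [hwdef]
    refine Nat.pow_lt_pow_right (by omega) ?_
    have h1 : i.1 < j.1 := hij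
    have := j.2
    omega
  · obtain ⟨lam, hlam, hmax⟩ := Finset.exists_max_image D.support (wp w)
      (support_nonempty.mpr hne)
    refine ⟨lam, hlam, fun m hm hml => lt_of_le_of_ne (hmax m hm) fun h => hml ?_⟩
    have := wt_inj n (n + 2) (by omega) N m lam (hD m hm) (hD lam hlam) h
    exact DFunLike.coe_injective this

theorem lead_sorted {N : ℕ} (D : MvPolynomial (Fin N) ℝ) (hs : D.IsSymmetric) (w : Fin N → ℕ)
    (hw : StrictAnti w) (lam : Fin N →₀ ℕ) (hlam : lam ∈ D.support)
    (hmax : ∀ m ∈ D.support, m ≠ lam → wp w m < wp w lam) (i j : Fin N) (hij : i < j) :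
    lam j ≤ lam i := by
  classical
  by_contra hcon
  push Not at hcon
  set lam' := lam.mapDomain (Equiv.swap i j) with hl'
  have hval : ∀ k, lam' k = lam (Equiv.swap i j k) := by
    intro k
    have := Finsupp.mapDomain_apply (Equiv.swap i j).injective lam (Equiv.swap i j k)
    rwa [Equiv.swap_apply_self] at this
  have hmem : lam' ∈ D.support := by
    rw [mem_support_iff]
    have h1 := coeff_rename_mapDomain (Equiv.swap i j) (Equiv.swap i j).injective D lam
    rw [hs] at h1
    rw [← hl'] at h1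
    rw [h1]
    exact mem_support_iff.mp hlam
  have hne : lam' ≠ lam := by
    intro h
    have h1 := hval i
    rw [h, Equiv.swap_apply_left] at h1
    omega
  have hlt := hmax lam' hmem hne
  have hij' : i ≠ j := hij.ne
  have e1 : wp w lam' = w i * lam j + (w j * lam i + ∑ k ∈ (Finset.univ.erase i).erase j,
      w k * lam k) := by
    unfold wp
    rw [← Finset.add_sum_erase _ _ (Finset.mem_univ i), ← Finset.add_sum_erase (Finset.univ.erase i)
      _ (Finset.mem_erase.mpr ⟨hij'.symm, Finset.mem_univ j⟩), hval i, hval j,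
      Equiv.swap_apply_left, Equiv.swap_apply_right]
    congr 2
    refine Finset.sum_congr rfl fun k hk => ?_
    rw [Finset.mem_erase, Finset.mem_erase] at hk
    rw [hval k, Equiv.swap_apply_of_ne_of_ne hk.2.1 hk.1]
  have e2 : wp w lam = w i * lam i + (w j * lam j + ∑ k ∈ (Finset.univ.erase i).erase j,
      w k * lam k) := by
    unfold wp
    rw [← Finset.add_sum_erase _ _ (Finset.mem_univ i), ← Finset.add_sum_erase (Finset.univ.erase i)
      _ (Finset.mem_erase.mpr ⟨hij'.symm, Finset.mem_univ j⟩)]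
  rw [e1, e2] at hlt
  have hwij := hw hij
  nlinarith

/-! ### Comparison of eigenvalues -/

theorem abel1 (d : ℕ → ℝ) (N : ℕ) : ∑ i ∈ Finset.range N, d i * (N - 1 - i) =
    ∑ k ∈ Finset.range N, ∑ i ∈ Finset.range k, d i := by
  induction N with
  | zero => simp
  | succ N ih =>
    rw [Finset.sum_range_succ (fun k => ∑ i ∈ Finset.range k, d i), ← ih, Finset.sum_range_succ]
    push_cast
    have : ∀ i ∈ Finset.range N, d i * ((N : ℝ) + 1 - 1 - i) = d i * (N - 1 - i) + d i := by
      intro i _; ring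
    rw [Finset.sum_congr rfl this, Finset.sum_add_distrib]
    ring

theorem abel2 (d g : ℕ → ℝ) (hg : ∀ i, g (i + 1) ≤ g i) (N : ℕ)
    (hS : ∀ k ≤ N + 1, 0 ≤ ∑ i ∈ Finset.range k, d i) :
    (∑ i ∈ Finset.range (N + 1), d i) * g N ≤ ∑ i ∈ Finset.range (N + 1), d i * g i := by
  induction N with
  | zero => simp
  | succ N ih =>
    rw [Finset.sum_range_succ, Finset.sum_range_succ _ (N + 1)]
    have h1 := ih fun k hk => hS k (by omega)
    have h2 := hS (N + 1) (by omega)
    have h3 := hg N
    nlinarith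

/-- Dominance comparison of the eigenvalues, `ℕ`-indexed. -/
theorem ev_inj (a : ℝ) (ha : 0 ≤ a) (N : ℕ) (l u : ℕ → ℝ) (hl : ∀ i, l (i + 1) ≤ l i)
    (hu : ∀ i, u (i + 1) ≤ u i)
    (hdom : ∀ k ≤ N, ∑ i ∈ Finset.range k, l i ≤ ∑ i ∈ Finset.range k, u i)
    (htot : ∑ i ∈ Finset.range N, l i = ∑ i ∈ Finset.range N, u i)
    (hev : a / 2 * ∑ i ∈ Finset.range N, (l i ^ 2 - l i) + ∑ i ∈ Finset.range N, l i * (N - 1 - i) =
      a / 2 * ∑ i ∈ Finset.range N, (u i ^ 2 - u i) + ∑ i ∈ Finset.range N, u i * (N - 1 - i)) :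
    ∀ i < N, l i = u i := by
  have hS : ∀ k ≤ N, 0 ≤ ∑ i ∈ Finset.range k, (u i - l i) := by
    intro k hk
    rw [Finset.sum_sub_distrib]
    linarith [hdom k hk]
  have htot' : ∑ i ∈ Finset.range N, (u i - l i) = 0 := by
    rw [Finset.sum_sub_distrib]; linarith
  have h1 : 0 ≤ ∑ i ∈ Finset.range N, (u i - l i) * (u i + l i) := by
    cases N with
    | zero => simp
    | succ N =>
      have := abel2 (fun i => u i - l i) (fun i => u i + l i)
        (fun i => add_le_add (hu i) (hl i)) N hS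
      rw [htot', zero_mul] at this
      exact this
  have h2 : ∑ k ∈ Finset.range N, ∑ i ∈ Finset.range k, (u i - l i) ≤ 0 := by
    rw [← abel1]
    have e1 : ∑ i ∈ Finset.range N, (u i - l i) * (N - 1 - i) =
        ∑ i ∈ Finset.range N, u i * (N - 1 - i) - ∑ i ∈ Finset.range N, l i * (N - 1 - i) := by
      rw [← Finset.sum_sub_distrib]
      exact Finset.sum_congr rfl fun i _ => by ring
    have e2 : ∑ i ∈ Finset.range N, (u i ^ 2 - u i) - ∑ i ∈ Finset.range N, (l i ^ 2 - l i) =
        ∑ i ∈ Finset.range N, (u i - l i) * (u i + l i) := by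
      have : ∑ i ∈ Finset.range N, (u i - l i) * (u i + l i) =
          ∑ i ∈ Finset.range N, (u i ^ 2 - u i) - ∑ i ∈ Finset.range N, (l i ^ 2 - l i) +
          ∑ i ∈ Finset.range N, (u i - l i) := by
        rw [← Finset.sum_sub_distrib, ← Finset.sum_add_distrib]
        exact Finset.sum_congr rfl fun i _ => by ring
      rw [this, htot', add_zero]
    rw [e1]
    have h3 : 0 ≤ a / 2 * (∑ i ∈ Finset.range N, (u i ^ 2 - u i) -
        ∑ i ∈ Finset.range N, (l i ^ 2 - l i)) := by
      rw [e2]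
      positivity
    linarith
  have h4 : ∀ k ∈ Finset.range N, ∑ i ∈ Finset.range k, (u i - l i) = 0 := by
    have h5 : ∀ k ∈ Finset.range N, 0 ≤ ∑ i ∈ Finset.range k, (u i - l i) := fun k hk =>
      hS k (Finset.mem_range.mp hk).le
    exact (Finset.sum_eq_zero_iff_of_nonneg h5).mp (le_antisymm h2 (Finset.sum_nonneg h5))
  have h5 : ∀ k ≤ N, ∑ i ∈ Finset.range k, (u i - l i) = 0 := by
    intro k hk
    rcases hk.lt_or_eq with h | h
    · exact h4 k (Finset.mem_range.mpr h)
    · rw [h]; exact htot'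
  intro i hi
  have h6 := h5 (i + 1) hi
  rw [Finset.sum_range_succ, h5 i hi.le] at h6
  linarith

/-! ### The cells of a Young diagram by rows -/

theorem sum_cells_rows (μ : YoungDiagram) (N : ℕ) (hN : μ.colLen 0 ≤ N) (F : ℕ × ℕ → ℝ) :
    ∑ c ∈ μ.cells, F c = ∑ i ∈ Finset.range N, ∑ j ∈ Finset.range (μ.rowLen i), F (i, j) := by
  classical
  have hmaps : ∀ c ∈ μ.cells, c.1 ∈ Finset.range N := by
    intro c hc
    rw [Finset.mem_range]
    have h1 : (c.1, 0) ∈ μ := μ.up_left_mem le_rfl (Nat.zero_le c.2) (YoungDiagram.mem_cells c |>.mp hc)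
    exact (YoungDiagram.mem_iff_lt_colLen.mp h1).trans_le hN
  rw [← Finset.sum_fiberwise_of_maps_to hmaps]
  refine Finset.sum_congr rfl fun i _ => ?_
  have h1 : μ.cells.filter (fun c => c.1 = i) = {i} ×ˢ Finset.range (μ.rowLen i) :=
    YoungDiagram.row_eq_prod
  rw [h1, Finset.sum_product]
  simp

theorem card_rows (μ : YoungDiagram) (N : ℕ) (hN : μ.colLen 0 ≤ N) :
    μ.card = ∑ i ∈ Finset.range N, μ.rowLen i := by
  have h := sum_cells_rows μ N hN (fun _ => 1)
  simp only [Finset.sum_const, Finset.card_range, nsmul_eq_mul, mul_one] at h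
  have h2 : μ.card = μ.cells.card := rfl
  rw [h2]
  exact_mod_cast h

theorem gauss0 (q : ℕ) : ∑ j ∈ Finset.range q, (j : ℝ) = ((q : ℝ) ^ 2 - q) / 2 := by
  induction q with
  | zero => simp
  | succ q ih => rw [Finset.sum_range_succ, ih]; push_cast; ring

theorem eigen_cells (a : ℝ) (μ : YoungDiagram) (N : ℕ) (hN : μ.colLen 0 ≤ N) :
    ∑ c ∈ μ.cells, (a * (c.2 : ℝ) - c.1 + (N - 1)) =
      a / 2 * ∑ i ∈ Finset.range N, ((μ.rowLen i : ℝ) ^ 2 - μ.rowLen i) +
        ∑ i ∈ Finset.range N, (μ.rowLen i : ℝ) * (N - 1 - i) := by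
  rw [sum_cells_rows μ N hN, Finset.mul_sum, ← Finset.sum_add_distrib]
  refine Finset.sum_congr rfl fun i _ => ?_
  simp only
  have : ∀ j ∈ Finset.range (μ.rowLen i), (a * (j : ℝ) - i + (N - 1)) =
      a * j + (N - 1 - i) := by
    intro j _; ring
  rw [Finset.sum_congr rfl this, Finset.sum_add_distrib, ← Finset.mul_sum, gauss0]
  simp only [Finset.sum_const, Finset.card_range, nsmul_eq_mul]
  ring

/-- **Uniqueness of the Jack polynomial.** -/
theorem IsJack.unique {a : ℝ} (ha : 0 ≤ a) {μ : YoungDiagram} {N : ℕ}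
    {J J' : MvPolynomial (Fin N) ℝ} (h : IsJack a μ N J) (h' : IsJack a μ N J') : J = J' := by
  classical
  by_cases hN : μ.colLen 0 ≤ N
  · by_contra hne
    set D := J - J' with hDdef
    have hD0 : D ≠ 0 := sub_ne_zero.mpr hne
    have hsupp : ∀ m ∈ D.support, m ∈ J.support ∨ m ∈ J'.support := by
      intro m hm
      rw [mem_support_iff] at hm
      by_contra hcon
      push Not at hcon
      rw [notMem_support_iff, notMem_support_iff] at hcon
      apply hm
      rw [hDdef, coeff_sub, hcon.1, hcon.2, sub_zero]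
    have hdom : ∀ m ∈ D.support, ∑ i, m i = μ.card ∧
        ∀ T : Finset (Fin N), ∑ i ∈ T, m i ≤ ∑ i ∈ Finset.range T.card, μ.rowLen i := by
      intro m hm
      rcases hsupp m hm with h1 | h1
      · exact h.dominated m h1
      · exact h'.dominated m h1
    have hsym : D.IsSymmetric := (symmetricSubalgebra (Fin N) ℝ).sub_mem h.symm h'.symm
    obtain ⟨w, hw, lam, hlam, hmax⟩ := exists_weight μ.card D hD0 (fun m hm => (hdom m hm).1.le)
    have hsort := lead_sorted D hsym w hw lam hlam hmax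
    set e : ℝ := ∑ c ∈ μ.cells, (a * (c.2 : ℝ) - c.1 + (N - 1)) with he
    have heig : ∀ x : Fin N → ℝ, Function.Injective x →
        a / 2 * ∑ i, x i ^ 2 * eval x (pderiv i (pderiv i D)) +
          ∑ i, ∑ j ∈ Finset.univ.erase i, x i ^ 2 / (x i - x j) * eval x (pderiv i D) =
        e * eval x D := by
      intro x hx
      have h1 := h.eigen x hx
      have h2 := h'.eigen x hx
      rw [hDdef]
      simp only [map_sub, mul_sub, Finset.sum_sub_distrib]
      linarith
    have hev := eigen_lead a e D heig w hw lam hlam hmax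
    -- `ℕ`-indexed versions
    set l : ℕ → ℝ := fun i => if hi : i < N then (lam ⟨i, hi⟩ : ℝ) else 0 with hldef
    set u : ℕ → ℝ := fun i => (μ.rowLen i : ℝ) with hudef
    have hl_fin : ∀ i : Fin N, l i.1 = lam i := by
      intro i
      simp only [hldef]
      rw [dif_pos i.2]
    have hl : ∀ i, l (i + 1) ≤ l i := by
      intro i
      simp only [hldef]
      by_cases h1 : i + 1 < N
      · rw [dif_pos h1, dif_pos (by omega)]
        exact_mod_cast hsort ⟨i, by omega⟩ ⟨i + 1, h1⟩ (by simp [Fin.lt_def])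
      · rw [dif_neg h1]
        split_ifs
        · positivity
        · exact le_rfl
    have hu : ∀ i, u (i + 1) ≤ u i := by
      intro i
      simp only [hudef]
      exact_mod_cast μ.rowLen_anti i (i + 1) (by omega)
    have hdomk : ∀ k ≤ N, ∑ i ∈ Finset.range k, l i ≤ ∑ i ∈ Finset.range k, u i := by
      intro k hk
      set T : Finset (Fin N) := Finset.univ.map (Fin.castLEEmb hk) with hT
      have h1 := (hdom lam hlam).2 T
      have h2 : T.card = k := by rw [hT, Finset.card_map, Finset.card_univ, Fintype.card_fin]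
      rw [h2] at h1
      have h3 : ∑ i ∈ Finset.range k, l i = ((∑ i ∈ T, lam i : ℕ) : ℝ) := by
        rw [hT, Finset.sum_map, Nat.cast_sum, ← Fin.sum_univ_eq_sum_range]
        refine Finset.sum_congr rfl fun i _ => ?_
        exact hl_fin (Fin.castLE hk i)
      rw [h3]
      simp only [hudef]
      exact_mod_cast h1
    have htot : ∑ i ∈ Finset.range N, l i = ∑ i ∈ Finset.range N, u i := by
      rw [← Fin.sum_univ_eq_sum_range]
      simp only [hl_fin, hudef]
      have h1 := (hdom lam hlam).1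
      rw [card_rows μ N hN] at h1
      exact_mod_cast h1
    have hfin := ev_inj a ha N l u hl hu hdomk htot (by
      have h1 : a / 2 * ∑ i ∈ Finset.range N, (l i ^ 2 - l i) +
          ∑ i ∈ Finset.range N, l i * (N - 1 - i) = ev a lam := by
        unfold ev
        rw [← Fin.sum_univ_eq_sum_range, ← Fin.sum_univ_eq_sum_range (fun i => l i * (N - 1 - i))]
        simp only [hl_fin]
      rw [h1, ← hev, he, eigen_cells a μ N hN])
    have hlam_eq : ∀ i : Fin N, lam i = μ.rowLen i := by
      intro i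
      have h1 := hfin i.1 i.2
      rw [hl_fin] at h1
      simp only [hudef] at h1
      exact_mod_cast h1
    have h1 := h.leading lam hN hlam_eq
    have h2 := h'.leading lam hN hlam_eq
    rw [mem_support_iff] at hlam
    apply hlam
    rw [hDdef, coeff_sub, h1, h2, sub_self]
  · push Not at hN
    have hzero : ∀ P : MvPolynomial (Fin N) ℝ, IsJack a μ N P → P = 0 := by
      intro P hP
      rw [← support_eq_empty]
      by_contra hcon
      obtain ⟨m, hm⟩ := Finset.nonempty_iff_ne_empty.mpr hcon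
      obtain ⟨h1, h2⟩ := hP.dominated m hm
      have h3 := h2 Finset.univ
      rw [h1, Finset.card_univ, Fintype.card_fin, card_rows μ (μ.colLen 0) le_rfl] at h3
      have h4 : ∑ i ∈ Finset.range (N + 1), μ.rowLen i ≤
          ∑ i ∈ Finset.range (μ.colLen 0), μ.rowLen i :=
        Finset.sum_le_sum_of_subset (Finset.range_subset_range.mpr hN)
      rw [Finset.sum_range_succ] at h4
      have h5 : 0 < μ.rowLen N :=
        YoungDiagram.mem_iff_lt_rowLen.mp (YoungDiagram.mem_iff_lt_colLen.mpr hN)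
      omega
    rw [hzero J h, hzero J' h']

end Pool.Agent.JH
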